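import Pool.Agent.Lib_helper45.KM.Defs

/-! Basic facts on the action on polynomial functions, and the complexes `UU`. -/

open MvPolynomial

namespace KM

variable {n r : ℕ} {A : Matrix (Fin n) (Fin n) ℤ}

lemma eval_act (g : (Fin r → ℚ) ≃ₗ[ℚ] (Fin r → ℚ)) (v : Fin r → ℚ)
    (f : MvPolynomial (Fin r) ℚ) : eval v (act g f) = eval (g⁻¹ v) f := by
  have : (eval v).comp (act g : MvPolynomial (Fin r) ℚ →+* MvPolynomial (Fin r) ℚ) =
      eval (g⁻¹ v) := by
    apply ringHom_ext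
    · intro c; simp [act]
    · intro k
      simp only [act, RingHom.comp_apply, RingHom.coe_coe, aeval_X, map_sum, map_mul, eval_C,
        eval_X]
      have h := LinearMap.pi_apply_eq_sum_univ ((g⁻¹ : (Fin r → ℚ) ≃ₗ[ℚ] (Fin r → ℚ)) :
        (Fin r → ℚ) →ₗ[ℚ] (Fin r → ℚ)) v
      have h2 := congrFun h k
      rw [Finset.sum_apply] at h2
      rw [LinearEquiv.coe_coe] at h2
      rw [h2]
      apply Finset.sum_congr rfl
      intro j _
      have h3 : (Pi.single j 1 : Fin r → ℚ) = fun i => if j = i then 1 else 0 := by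
        ext i; simp [Pi.single_apply, eq_comm]
      rw [Pi.smul_apply, smul_eq_mul, mul_comm, h3]
  exact DFunLike.congr_fun this f

lemma act_mul (g h : (Fin r → ℚ) ≃ₗ[ℚ] (Fin r → ℚ)) (f : MvPolynomial (Fin r) ℚ) :
    act (g * h) f = act g (act h f) := by
  apply MvPolynomial.funext
  intro v
  rw [eval_act, eval_act, eval_act, mul_inv_rev]
  rfl

@[simp] lemma act_one (f : MvPolynomial (Fin r) ℚ) :
    act (1 : (Fin r → ℚ) ≃ₗ[ℚ] (Fin r → ℚ)) f = f := by
  apply MvPolynomial.funext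
  intro v
  rw [eval_act, inv_one]
  rfl

lemma act_inv_act (g : (Fin r → ℚ) ≃ₗ[ℚ] (Fin r → ℚ)) (f : MvPolynomial (Fin r) ℚ) :
    act g⁻¹ (act g f) = f := by
  rw [← act_mul, inv_mul_cancel, act_one]

lemma act_act_inv (g : (Fin r → ℚ) ≃ₗ[ℚ] (Fin r → ℚ)) (f : MvPolynomial (Fin r) ℚ) :
    act g (act g⁻¹ f) = f := by
  rw [← act_mul, mul_inv_cancel, act_one]

lemma act_homog (g : (Fin r → ℚ) ≃ₗ[ℚ] (Fin r → ℚ)) {f : MvPolynomial (Fin r) ℚ} {m : ℕ}
    (hf : f.IsHomogeneous m) : (act g f).IsHomogeneous m := by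
  have := IsHomogeneous.aeval (R := ℚ) (S := ℚ) (n := 1) hf
    (fun k => ∑ j, C (g⁻¹ (Pi.single j 1) k) * X j) (fun k => by
      apply IsHomogeneous.sum
      intro j _
      have := (isHomogeneous_C (Fin r) (g⁻¹ (Pi.single j 1) k)).mul (isHomogeneous_X ℚ j)
      simpa using this)
  simpa [act] using this

/-- The invariants of all of `W`. -/
def IsInvt (R : Realization A r) (f : MvPolynomial (Fin r) ℚ) : Prop :=
  ∀ w : R.weyl, act (w : (Fin r → ℚ) ≃ₗ[ℚ] (Fin r → ℚ)) f = f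

/-- The simple reflections. -/
noncomputable def Realization.s (R : Realization A r) (hA : IsGCM A) (i : Fin n) :
    (Fin r → ℚ) ≃ₗ[ℚ] (Fin r → ℚ) :=
  Module.reflection (x := R.coroot i) (f := R.root i) (by rw [R.pairing, hA.diag]; norm_num)

lemma s_apply (R : Realization A r) (hA : IsGCM A) (i : Fin n) (v : Fin r → ℚ) :
    R.s hA i v = v - R.root i v • R.coroot i := by
  rw [Realization.s, Module.reflection_apply]

lemma weyl_eq (R : Realization A r) (hA : IsGCM A) :
    R.weyl = Subgroup.closure (Set.range (R.s hA)) := by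
  unfold Realization.weyl
  congr 1
  ext g
  constructor
  · rintro ⟨i, hi⟩
    exact ⟨i, by ext1 v; rw [s_apply, hi]⟩
  · rintro ⟨i, rfl⟩
    exact ⟨i, fun v => s_apply R hA i v⟩

lemma s_mem (R : Realization A r) (hA : IsGCM A) (i : Fin n) : R.s hA i ∈ R.weyl := by
  rw [weyl_eq R hA]
  exact Subgroup.subset_closure ⟨i, rfl⟩

end KM
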