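import Pool.Agent.Lib_helper45.KM.PrW

/-! Components of cochains. -/

open MvPolynomial KMWanted2

namespace KM

variable {n r : ℕ} {A : Matrix (Fin n) (Fin n) ℤ}

section general
variable {X P : Type*} [CommRing P]

/-- supported in degree `p` -/
def Supp (p : ℕ) (f : Full X P) : Prop := ∀ l, l.length ≠ p + 1 → f l = 0

/-- The degree `p` component of a cochain. -/
def compn (p : ℕ) : Full X P →ₗ[P] Full X P where
  toFun f := ⟨fun l => if l.length = p + 1 then f l else 0, by simp⟩
  map_add' f g := by ext l; simp only [Full.mk_apply, Full.add_apply]; split_ifs <;> simp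
  map_smul' c f := by ext l; simp only [Full.mk_apply, Full.smul_apply]; split_ifs <;> simp

lemma compn_apply (p : ℕ) (f : Full X P) (l : List X) :
    compn p f l = if l.length = p + 1 then f l else 0 := rfl

lemma compn_supp (p : ℕ) (f : Full X P) : Supp p (compn p f) := by
  intro l hl; rw [compn_apply, if_neg hl]

lemma compn_of_supp {p : ℕ} {f : Full X P} (h : Supp p f) : compn p f = f := by
  ext l; rw [compn_apply]; split_ifs with hl
  · rfl
  · exact (h l hl).symm

lemma d_compn (p : ℕ) (f : Full X P) : Full.d (compn p f) = compn (p + 1) (Full.d f) := by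
  ext l
  rw [Full.d_apply, compn_apply, Full.d_apply]
  unfold dd
  split_ifs with h
  · apply Finset.sum_congr rfl
    intro j hj
    rw [Finset.mem_range] at hj
    rw [compn_apply, if_pos]
    rw [List.length_eraseIdx_of_lt hj]; omega
  · apply Finset.sum_eq_zero
    intro j hj
    rw [Finset.mem_range] at hj
    rw [compn_apply, if_neg, mul_zero]
    rw [List.length_eraseIdx_of_lt hj]; omega

lemma compn_zero_d (f : Full X P) : compn 0 (Full.d f) = 0 := by
  ext l
  rw [compn_apply]
  split_ifs with h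
  · obtain ⟨x, rfl⟩ := List.length_eq_one_iff.1 (by simpa using h)
    rw [Full.d_apply, dd_cons, dd_nil, Full.nil]; simp
  · rfl

lemma full_finset_sum {ι : Type*} (s : Finset ι) (f : ι → Full X P) (l : List X) :
    (∑ i ∈ s, f i) l = ∑ i ∈ s, f i l := by
  classical
  induction s using Finset.induction_on with
  | empty => simp
  | insert a s ha ih => rw [Finset.sum_insert ha, Finset.sum_insert ha, Full.add_apply, ih]

lemma sum_compn {f : Full X P} {N : ℕ} (hN : ∀ l, N < l.length → f l = 0) :
    f = ∑ p ∈ Finset.range N, compn p f := by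
  ext l
  rw [full_finset_sum]
  simp only [compn_apply]
  rcases Nat.eq_zero_or_pos l.length with h0 | h0
  · have : l = [] := List.length_eq_zero_iff.1 h0
    subst this
    simp
  · by_cases h : N < l.length
    · rw [hN l h]; simp
    · obtain ⟨k, hk⟩ : ∃ k, l.length = k + 1 := ⟨l.length - 1, by omega⟩
      rw [Finset.sum_eq_single k]
      · rw [if_pos hk]
      · intro b _ hb
        rw [if_neg]; omega
      · intro hk'
        rw [Finset.mem_range] at hk'
        omega

lemma supp_mul {p q : ℕ} {f g : Full X P} (hf : Supp p f) (hg : Supp q g) :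
    Supp (p + q) (f * g) := by
  intro l hl
  rw [Full.mul_apply]
  unfold cup
  apply Finset.sum_eq_zero
  intro j hj
  rw [Finset.mem_range] at hj
  by_cases h : j = p
  · subst h
    rw [hg (l.drop j), mul_zero]
    rw [List.length_drop]; omega
  · rw [hf (l.take (j+1)), zero_mul]
    rw [List.length_take]; omega

lemma supp_zero_eq {f : Full X P} (hf : Supp 0 f) (hd : Full.d f = 0) (x : X) :
    f = f [x] • 1 := by
  ext l
  rw [Full.smul_apply, Full.one_apply]
  split_ifs with h
  · obtain ⟨y, rfl⟩ := List.length_eq_one_iff.1 h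
    rw [cocycle0_const f hd y x]; simp
  · rw [hf l (by simpa using h)]; simp

end general

/-- Linear maps of degree `e` and homogeneous components. -/
lemma homogComp_of_degree {σ : Type*} (φ : MvPolynomial σ ℚ →ₗ[ℚ] MvPolynomial σ ℚ) (e : ℕ)
    (hφ : ∀ i f, f.IsHomogeneous i → (φ f).IsHomogeneous (i + e)) (f : MvPolynomial σ ℚ) (m : ℕ) :
    homogeneousComponent (m + e) (φ f) = φ (homogeneousComponent m f) ∧
      (m < e → homogeneousComponent m (φ f) = 0) := by
  have h1 : φ f = ∑ i ∈ Finset.range (f.totalDegree + 1), φ (homogeneousComponent i f) := by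
    conv_lhs => rw [← sum_homogeneousComponent f, map_sum]
  have h2 : ∀ i m, homogeneousComponent m (φ (homogeneousComponent i f)) =
      if m = i + e then φ (homogeneousComponent i f) else 0 := by
    intro i m
    exact homogeneousComponent_of_mem (hφ i _ (homogeneousComponent_isHomogeneous i f))
  constructor
  · rw [h1, map_sum]
    simp only [h2]
    by_cases hm : m < f.totalDegree + 1
    · rw [Finset.sum_eq_single m]
      · simp
      · intro b _ hb
        rw [if_neg]; omega
      · intro h; exact absurd (Finset.mem_range.2 hm) h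
    · rw [Finset.sum_eq_zero]
      · rw [homogeneousComponent_eq_zero _ _ (by omega), map_zero]
      · intro b hb
        rw [Finset.mem_range] at hb
        rw [if_neg]; omega
  · intro hm
    rw [h1, map_sum]
    apply Finset.sum_eq_zero
    intro i _
    rw [h2, if_neg]; omega

lemma homogComp_act (g : (Fin r → ℚ) ≃ₗ[ℚ] (Fin r → ℚ)) (f : MvPolynomial (Fin r) ℚ) (m : ℕ) :
    homogeneousComponent m (act g f) = act g (homogeneousComponent m f) := by
  have := (homogComp_of_degree (act g).toLinearMap 0 (fun i f hf => by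
    simpa using act_homog g hf) f m).1
  simpa using this

lemma homogComp_mul {σ : Type*} (t : MvPolynomial σ ℚ) (e : ℕ) (ht : t.IsHomogeneous e)
    (f : MvPolynomial σ ℚ) (m : ℕ) :
    homogeneousComponent (m + e) (t * f) = t * homogeneousComponent m f ∧
      (m < e → homogeneousComponent m (t * f) = 0) := by
  have := homogComp_of_degree (LinearMap.mulLeft ℚ t) e (fun i f hf => by
    have := ht.mul hf
    rw [add_comm] at this
    simpa using this) f m
  simpa using this

/-- The projection of cochains to polynomial degree `m`. -/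
noncomputable def pr (X : Type*) (r m : ℕ) :
    Full X (MvPolynomial (Fin r) ℚ) →ₗ[ℚ] Full X (MvPolynomial (Fin r) ℚ) where
  toFun f := ⟨fun l => homogeneousComponent m (f l), by simp⟩
  map_add' f g := by ext1 l; simp
  map_smul' c f := by ext1 l; simp

lemma pr_apply {X : Type*} (m : ℕ) (f : Full X (MvPolynomial (Fin r) ℚ)) (l : List X) :
    pr X r m f l = homogeneousComponent m (f l) := rfl

lemma pr_d {X : Type*} (m : ℕ) (f : Full X (MvPolynomial (Fin r) ℚ)) :
    pr X r m (Full.d f) = Full.d (pr X r m f) := by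
  ext1 l
  rw [pr_apply, Full.d_apply, Full.d_apply]
  unfold dd
  rw [map_sum]
  apply Finset.sum_congr rfl
  intro j _
  have h : ((-1 : MvPolynomial (Fin r) ℚ)) ^ j = C ((-1) ^ j) := by simp
  rw [h, homogeneousComponent_C_mul, pr_apply]

lemma pr_pr {X : Type*} (m : ℕ) (f : Full X (MvPolynomial (Fin r) ℚ)) :
    pr X r m (pr X r m f) = pr X r m f := by
  ext1 l
  rw [pr_apply, pr_apply]
  exact homogeneousComponent_eq_self (homogeneousComponent_isHomogeneous _ _)

lemma pr_pr_ne {X : Type*} (m m' : ℕ) (f : Full X (MvPolynomial (Fin r) ℚ)) (h : m ≠ m') :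
    pr X r m (pr X r m' f) = 0 := by
  ext1 l
  rw [pr_apply, pr_apply, homogeneousComponent_of_mem (homogeneousComponent_isHomogeneous _ _),
    if_neg h]
  rfl

lemma pr_smul {X : Type*} (m e : ℕ) (t : MvPolynomial (Fin r) ℚ) (ht : t.IsHomogeneous e)
    (f : Full X (MvPolynomial (Fin r) ℚ)) :
    pr X r (m + e) (t • f) = t • pr X r m f := by
  ext1 l
  rw [pr_apply, Full.smul_apply, Full.smul_apply, pr_apply, smul_eq_mul, smul_eq_mul,
    (homogComp_mul t e ht _ m).1]

lemma pr_smul_zero {X : Type*} (m e : ℕ) (t : MvPolynomial (Fin r) ℚ) (ht : t.IsHomogeneous e)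
    (f : Full X (MvPolynomial (Fin r) ℚ)) (h : m < e) :
    pr X r m (t • f) = 0 := by
  ext1 l
  rw [pr_apply, Full.smul_apply, smul_eq_mul, (homogComp_mul t e ht _ m).2 h]
  rfl

lemma sum_pr {X : Type*} {f : Full X (MvPolynomial (Fin r) ℚ)} {N : ℕ}
    (hN : ∀ l, (f l).totalDegree ≤ N) : f = ∑ m ∈ Finset.range (N + 1), pr X r m f := by
  ext1 l
  rw [full_finset_sum]
  simp only [pr_apply]
  have h1 := sum_homogeneousComponent (f l)
  rw [← h1]
  conv_rhs => rw [h1]
  apply Finset.sum_subset
  · intro x hx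
    rw [Finset.mem_range] at *
    have := hN l
    omega
  · intro x _ hx
    rw [Finset.mem_range, not_lt] at hx
    exact homogeneousComponent_eq_zero _ _ (by omega)

variable {R : Realization A r}

lemma compn_mem_Coch {f : Full R.weyl (MvPolynomial (Fin r) ℚ)} (hf : f ∈ Coch R) (p : ℕ) :
    compn p f ∈ Coch R := by
  obtain ⟨hf, N, hN⟩ := hf
  refine ⟨fun w l => ?_, N, fun l => ⟨fun hl => ?_, ?_⟩⟩
  · rw [translate, compn_apply, compn_apply, List.length_map]
    split_ifs
    · exact hf w l
    · simp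
  · rw [compn_apply, (hN l).1 hl]; simp
  · rw [compn_apply]; split_ifs
    · exact (hN l).2
    · simp

lemma compn_mem_Cocycle {f : Full R.weyl (MvPolynomial (Fin r) ℚ)} (hf : f ∈ Cocycle R) (p : ℕ) :
    compn p f ∈ Cocycle R :=
  ⟨compn_mem_Coch hf.1 p, by rw [d_compn, hf.2, map_zero]⟩

lemma pr_mem_Coch {f : Full R.weyl (MvPolynomial (Fin r) ℚ)} (hf : f ∈ Coch R) (m : ℕ) :
    pr _ r m f ∈ Coch R := by
  obtain ⟨hf, N, hN⟩ := hf
  refine ⟨fun w l => ?_, N + m, fun l => ⟨fun hl => ?_, ?_⟩⟩
  · rw [pr_apply, pr_apply, hf, homogComp_act]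
  · rw [pr_apply, (hN l).1 (by omega), map_zero]
  · rw [pr_apply]
    exact (homogeneousComponent_isHomogeneous m (f l)).totalDegree_le.trans (Nat.le_add_left _ _)

lemma pr_mem_Cocycle {f : Full R.weyl (MvPolynomial (Fin r) ℚ)} (hf : f ∈ Cocycle R) (m : ℕ) :
    pr _ r m f ∈ Cocycle R :=
  ⟨pr_mem_Coch hf.1 m, by rw [← pr_d, hf.2, map_zero]⟩

lemma smul_mem_Coch {f : Full R.weyl (MvPolynomial (Fin r) ℚ)} (hf : f ∈ Coch R)
    {c : MvPolynomial (Fin r) ℚ} (hc : IsInvt R c) : c • f ∈ Coch R := by
  obtain ⟨hf, N, hN⟩ := hf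
  refine ⟨fun w l => ?_, N + c.totalDegree, fun l => ⟨fun hl => ?_, ?_⟩⟩
  · rw [Full.smul_apply, Full.smul_apply, smul_eq_mul, smul_eq_mul, map_mul, hf, hc w]
  · rw [Full.smul_apply, (hN l).1 (by omega), smul_zero]
  · rw [Full.smul_apply, smul_eq_mul]
    refine (totalDegree_mul _ _).trans ?_
    have := (hN l).2
    omega

lemma UU_le_Coch {hA : IsGCM A} {m p : ℕ} {f : Full R.weyl (MvPolynomial (Fin r) ℚ)}
    (hf : f ∈ UU R hA Set.univ m p) : f ∈ Coch R := by
  obtain ⟨h1, h2, h3⟩ := hf
  refine ⟨fun w l => h3 w ?_ l, m + p + 1, fun l => ⟨fun hl => h1 l (by omega), ?_⟩⟩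
  · rw [par, WI, Set.image_univ, ← weyl_eq]; exact w.2
  · exact (h2 l).totalDegree_le.trans (by omega)

lemma mem_UU_of {hA : IsGCM A} {m p : ℕ} {f : Full R.weyl (MvPolynomial (Fin r) ℚ)}
    (hf : f ∈ Coch R) (hs : Supp p f) (hm : pr _ r m f = f) : f ∈ UU R hA Set.univ m p := by
  refine ⟨hs, fun l => ?_, fun u _ l => hf.1 u l⟩
  have := DFunLike.congr_fun hm l
  rw [← this, pr_apply]
  exact homogeneousComponent_isHomogeneous _ _

lemma pr_of_UU {hA : IsGCM A} {I : Set (Fin n)} {m p : ℕ}
    {f : Full R.weyl (MvPolynomial (Fin r) ℚ)}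
    (hf : f ∈ UU R hA I m p) : pr _ r m f = f := by
  ext1 l
  rw [pr_apply]
  exact homogeneousComponent_eq_self (hf.2.1 l)

end KM
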