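import Mathlib

/-! Task K for MP_fc0265_gt (helper45): Coxeter combinatorics of the linear group generated by the
simple reflections of a realization of a generalized Cartan matrix. -/

namespace KMWanted2

section K

variable {ι V : Type*} [Fintype ι] [DecidableEq ι] [AddCommGroup V] [Module ℚ V]

/-- The parabolic subgroup generated by the reflections `s i`, `i ∈ I`. -/
def WI (s : ι → V ≃ₗ[ℚ] V) (I : Set ι) : Subgroup (V ≃ₗ[ℚ] V) := Subgroup.closure (s '' I)

/-- Functions on the group `H` that are left invariant under `W_I`. -/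
def LInv (s : ι → V ≃ₗ[ℚ] V) (H : Subgroup (V ≃ₗ[ℚ] V)) (M : Type*) [AddCommGroup M] [Module ℚ M]
    (I : Set ι) : Submodule ℚ (H → M) where
  carrier := {F | ∀ u ∈ WI s I, ∀ x y : H, (y : V ≃ₗ[ℚ] V) = u * x → F y = F x}
  add_mem' := by
    intro F G hF hG u hu x y h
    simp [hF u hu x y h, hG u hu x y h]
  zero_mem' := by intro u _ x y _; rfl
  smul_mem' := by
    intro c F hF u hu x y h
    simp [hF u hu x y h]

/-- The data of a realization of a generalized Cartan matrix, with its simple reflections. -/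
structure Data (A : ι → ι → ℤ) (coroot : ι → V) (root : ι → Module.Dual ℚ V)
    (s : ι → V ≃ₗ[ℚ] V) : Prop where
  diag : ∀ i, A i i = 2
  neg : ∀ i j, i ≠ j → A i j ≤ 0
  zero : ∀ i j, A i j = 0 → A j i = 0
  indep : LinearIndependent ℚ coroot
  pairing : ∀ i j, root j (coroot i) = A i j
  refl : ∀ i v, s i v = v - root i v • coroot i

variable {A : ι → ι → ℤ} {coroot : ι → V} {root : ι → Module.Dual ℚ V} {s : ι → V ≃ₗ[ℚ] V}

/-! ### words and lengths -/

namespace Cox

/-- product of a word -/
def wp (s : ι → V ≃ₗ[ℚ] V) (l : List ι) : V ≃ₗ[ℚ] V := (l.map s).prod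

omit [Fintype ι] [DecidableEq ι] in
@[simp] lemma wp_nil : wp s [] = 1 := rfl

omit [Fintype ι] [DecidableEq ι] in
@[simp] lemma wp_cons (i : ι) (l : List ι) : wp s (i :: l) = s i * wp s l := by simp [wp]

omit [Fintype ι] [DecidableEq ι] in
@[simp] lemma wp_append (l l' : List ι) : wp s (l ++ l') = wp s l * wp s l' := by simp [wp]

omit [Fintype ι] [DecidableEq ι] in
lemma s_mul_s (D : Data A coroot root s) (i : ι) : s i * s i = 1 := by
  ext v
  have h1 : root i (coroot i) = (2 : ℚ) := by rw [D.pairing, D.diag]; norm_num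
  rw [LinearEquiv.mul_apply, D.refl, D.refl]
  simp only [map_sub, map_smul, h1, smul_eq_mul, LinearEquiv.coe_one, id_eq]
  module

omit [Fintype ι] [DecidableEq ι] in
lemma s_inv (D : Data A coroot root s) (i : ι) : (s i)⁻¹ = s i :=
  inv_eq_of_mul_eq_one_left (s_mul_s D i)

omit [Fintype ι] [DecidableEq ι] in
lemma mul_s_mul_s (D : Data A coroot root s) (w : V ≃ₗ[ℚ] V) (i : ι) : w * s i * s i = w := by
  rw [mul_assoc, s_mul_s D, mul_one]

omit [Fintype ι] [DecidableEq ι] in
lemma s_mem {I : Set ι} {i : ι} (hi : i ∈ I) : s i ∈ WI s I :=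
  Subgroup.subset_closure ⟨i, hi, rfl⟩

omit [Fintype ι] [DecidableEq ι] in
lemma WI_mono {I J : Set ι} (h : I ⊆ J) : WI s I ≤ WI s J :=
  Subgroup.closure_mono (Set.image_mono h)

omit [Fintype ι] [DecidableEq ι] in
lemma wp_mem {I : Set ι} {l : List ι} (h : ∀ i ∈ l, i ∈ I) : wp s l ∈ WI s I := by
  induction l with
  | nil => exact one_mem _
  | cons a l ih =>
    rw [wp_cons]
    exact mul_mem (s_mem (h a (by simp))) (ih fun i hi => h i (by simp [hi]))

omit [Fintype ι] [DecidableEq ι] in
lemma wp_reverse (D : Data A coroot root s) (l : List ι) : wp s l.reverse = (wp s l)⁻¹ := by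
  induction l with
  | nil => simp
  | cons a l ih => simp [ih, s_inv D]

omit [Fintype ι] [DecidableEq ι] in
lemma exists_word (D : Data A coroot root s) {I : Set ι} {w : V ≃ₗ[ℚ] V} (hw : w ∈ WI s I) :
    ∃ l : List ι, (∀ i ∈ l, i ∈ I) ∧ wp s l = w := by
  induction hw using Subgroup.closure_induction with
  | mem x hx =>
    obtain ⟨i, hi, rfl⟩ := hx
    exact ⟨[i], by simpa using hi, by simp⟩
  | one => exact ⟨[], by simp, rfl⟩
  | mul x y _ _ hx hy =>
    obtain ⟨l, hl, rfl⟩ := hx
    obtain ⟨l', hl', rfl⟩ := hy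
    refine ⟨l ++ l', ?_, by simp⟩
    intro i hi
    rcases List.mem_append.1 hi with h | h
    · exact hl i h
    · exact hl' i h
  | inv x _ hx =>
    obtain ⟨l, hl, rfl⟩ := hx
    exact ⟨l.reverse, by simpa using hl, wp_reverse D l⟩

/-- word length with letters in `I` -/
noncomputable def len (s : ι → V ≃ₗ[ℚ] V) (I : Set ι) (w : V ≃ₗ[ℚ] V) : ℕ :=
  sInf {n | ∃ l : List ι, (∀ i ∈ l, i ∈ I) ∧ l.length = n ∧ wp s l = w}

omit [Fintype ι] [DecidableEq ι] in
lemma exists_reduced (D : Data A coroot root s) {I : Set ι} {w : V ≃ₗ[ℚ] V} (hw : w ∈ WI s I) :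
    ∃ l : List ι, (∀ i ∈ l, i ∈ I) ∧ l.length = len s I w ∧ wp s l = w := by
  have : {n | ∃ l : List ι, (∀ i ∈ l, i ∈ I) ∧ l.length = n ∧ wp s l = w}.Nonempty := by
    obtain ⟨l, hl, h⟩ := exists_word D hw
    exact ⟨l.length, l, hl, rfl, h⟩
  exact Nat.sInf_mem this

omit [Fintype ι] [DecidableEq ι] in
lemma len_le {I : Set ι} {l : List ι} (hl : ∀ i ∈ l, i ∈ I) : len s I (wp s l) ≤ l.length :=
  Nat.sInf_le ⟨l, hl, rfl, rfl⟩

omit [Fintype ι] [DecidableEq ι] in
lemma len_mul_le (D : Data A coroot root s) {I J : Set ι} (hJ : J ⊆ I) {w u : V ≃ₗ[ℚ] V}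
    (hw : w ∈ WI s I) (hu : u ∈ WI s J) : len s I (w * u) ≤ len s I w + len s J u := by
  obtain ⟨l, hl, hl', rfl⟩ := exists_reduced D hw
  obtain ⟨k, hk, hk', rfl⟩ := exists_reduced D hu
  rw [← hl', ← hk', ← wp_append, ← List.length_append]
  apply len_le
  intro i hi
  rcases List.mem_append.1 hi with h | h
  · exact hl i h
  · exact hJ (hk i h)

omit [Fintype ι] [DecidableEq ι] in
lemma len_s_le {I : Set ι} {i : ι} (hi : i ∈ I) : len s I (s i) ≤ 1 := by
  have := len_le (s := s) (I := I) (l := [i]) (by simpa using hi)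
  simpa using this

omit [Fintype ι] [DecidableEq ι] in
lemma len_mul_s_le (D : Data A coroot root s) {I : Set ι} {w : V ≃ₗ[ℚ] V} {i : ι}
    (hw : w ∈ WI s I) (hi : i ∈ I) : len s I (w * s i) ≤ len s I w + 1 :=
  (len_mul_le D subset_rfl hw (s_mem hi)).trans (Nat.add_le_add_left (len_s_le hi) _)

omit [Fintype ι] [DecidableEq ι] in
lemma len_s_mul_le (D : Data A coroot root s) {I : Set ι} {w : V ≃ₗ[ℚ] V} {i : ι}
    (hw : w ∈ WI s I) (hi : i ∈ I) : len s I (s i * w) ≤ len s I w + 1 := by
  have := (len_mul_le D subset_rfl (s_mem hi) hw).trans (Nat.add_le_add_right (len_s_le hi) _)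
  omega

omit [Fintype ι] [DecidableEq ι] in
lemma eq_one_of_len (D : Data A coroot root s) {I : Set ι} {w : V ≃ₗ[ℚ] V}
    (hw : w ∈ WI s I) (h : len s I w = 0) : w = 1 := by
  obtain ⟨l, hl, hl', rfl⟩ := exists_reduced D hw
  rw [h] at hl'
  rw [List.length_eq_zero_iff.1 hl', wp_nil]

omit [Fintype ι] [DecidableEq ι] in
/-- peel off the last letter of a reduced word -/
lemma exists_last (D : Data A coroot root s) {I : Set ι} {w : V ≃ₗ[ℚ] V}
    (hw : w ∈ WI s I) (h : w ≠ 1) :
    ∃ v ∈ WI s I, ∃ i ∈ I, w = v * s i ∧ len s I w = len s I v + 1 := by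
  obtain ⟨l, hl, hl', h1⟩ := exists_reduced D hw
  have hne : l ≠ [] := by
    rintro rfl
    exact h (by rw [← h1, wp_nil])
  obtain ⟨l', i, rfl⟩ : ∃ l' i, l = l' ++ [i] :=
    ⟨l.dropLast, l.getLast hne, (List.dropLast_append_getLast hne).symm⟩
  have hl'I : ∀ k ∈ l', k ∈ I := fun k hk => hl k (by simp [hk])
  have hiI : i ∈ I := hl i (by simp)
  have h2 : w = wp s l' * s i := by rw [← h1]; simp
  refine ⟨wp s l', wp_mem hl'I, i, hiI, h2, ?_⟩
  have h3 : len s I (wp s l') ≤ l'.length := len_le hl'I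
  have h4 : len s I w ≤ len s I (wp s l') + 1 := by
    rw [h2]; exact len_mul_s_le D (wp_mem hl'I) hiI
  simp only [List.length_append, List.length_singleton] at hl'
  omega

/-! ### rank two -/

/-- the alternating word of length `n` in `i, j` ending in `j` -/
def alt (i j : ι) : ℕ → List ι
  | 0 => []
  | n + 1 => (if Even n then j else i) :: alt i j n

omit [Fintype ι] [DecidableEq ι] in
lemma alt_succ' (i j : ι) (n : ℕ) : alt i j (n + 1) = alt j i n ++ [j] := by
  induction n with
  | zero => simp [alt]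
  | succ n ih =>
    rw [alt, ih, alt]
    by_cases h : Even n
    · have h' : ¬ Even (n + 1) := by
        simpa [Nat.even_add_one] using h
      simp [h, h']
    · have h' : Even (n + 1) := by
        simpa [Nat.even_add_one] using h
      simp [h, h']

omit [Fintype ι] [DecidableEq ι] in
lemma alt_length (i j : ι) (n : ℕ) : (alt i j n).length = n := by
  induction n with
  | zero => rfl
  | succ n ih => simp [alt, ih]

omit [Fintype ι] [DecidableEq ι] in
lemma alt_mem (i j : ι) (n : ℕ) : ∀ k ∈ alt i j n, k ∈ ({i, j} : Set ι) := by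
  induction n with
  | zero => simp [alt]
  | succ n ih =>
    intro k hk
    rw [alt, List.mem_cons] at hk
    rcases hk with rfl | hk
    · split_ifs <;> simp
    · exact ih k hk

omit [Fintype ι] [DecidableEq ι] in
lemma alt_split (n m : ℕ) : ∀ i j : ι, ∃ X : List ι, X.length = n ∧
    (∀ k ∈ X, k ∈ ({i, j} : Set ι)) ∧ alt i j (n + m) = X ++ alt i j m := by
  induction n with
  | zero => intro i j; exact ⟨[], rfl, by simp, by simp⟩
  | succ n ih =>
    intro i j
    obtain ⟨X, hX, hX', h⟩ := ih i j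
    refine ⟨(if Even (n + m) then j else i) :: X, by simp [hX], ?_, ?_⟩
    · intro k hk
      rw [List.mem_cons] at hk
      rcases hk with rfl | hk
      · split_ifs <;> simp
      · exact hX' k hk
    · have : n + 1 + m = n + m + 1 := by ring
      rw [this, alt, h]; simp

omit [Fintype ι] [DecidableEq ι] in
/-- every element of the dihedral group is the product of an alternating word -/
lemma exists_alt (D : Data A coroot root s) (i j : ι) (l : List ι)
    (hl : ∀ k ∈ l, k ∈ ({i, j} : Set ι)) :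
    ∃ n ≤ l.length, wp s l = wp s (alt i j n) ∨ wp s l = wp s (alt j i n) := by
  induction l using List.reverseRecOn with
  | nil => exact ⟨0, le_rfl, Or.inl rfl⟩
  | append_singleton l a ih =>
    obtain ⟨n, hn, h⟩ := ih fun k hk => hl k (by simp [hk])
    have ha : a = i ∨ a = j := by simpa using hl a (by simp)
    have key : ∀ i j : ι, wp s l = wp s (alt i j n) → ∀ a, a = i ∨ a = j →
        ∃ n' ≤ l.length + 1, wp s (l ++ [a]) = wp s (alt i j n') ∨
          wp s (l ++ [a]) = wp s (alt j i n') := by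
      intro i j h a ha
      rcases ha with rfl | rfl
      · exact ⟨n + 1, by omega, Or.inr (by rw [alt_succ', wp_append, wp_append, h])⟩
      · cases n with
        | zero =>
          refine ⟨1, by omega, Or.inl ?_⟩
          rw [wp_append, h]
          simp [alt]
        | succ n =>
          refine ⟨n, by omega, Or.inr ?_⟩
          rw [wp_append, h, alt_succ', wp_append]
          simp only [wp_cons, wp_nil, mul_one]
          rw [mul_s_mul_s D]
    rw [List.length_append, List.length_singleton]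
    rcases h with h | h
    · exact key i j h a ha
    · obtain ⟨n', hn', h'⟩ := key j i h a ha.symm
      exact ⟨n', hn', h'.symm⟩

omit [Fintype ι] [DecidableEq ι] in
lemma act (D : Data A coroot root s) (i j : ι) (v : V) (x y : ℚ) :
    s i (v + x • coroot i + y • coroot j) =
      v + (-x - A j i * y - root i v) • coroot i + y • coroot j := by
  rw [D.refl]
  simp only [map_add, map_smul, D.pairing, D.diag, smul_eq_mul]
  push_cast
  module

omit [Fintype ι] [DecidableEq ι] in
lemma act' (D : Data A coroot root s) (i j : ι) (v : V) (x y : ℚ) :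
    s j (v + x • coroot i + y • coroot j) =
      v + x • coroot i + (-y - A i j * x - root j v) • coroot j := by
  rw [D.refl]
  simp only [map_add, map_smul, D.pairing, D.diag, smul_eq_mul]
  push_cast
  module

/-- coordinates of `alt i j n` applied to `v + x α_i + y α_j`, where `a = A i j`, `b = A j i`,
`p = root i v`, `q = root j v`. -/
def st (a b p q x y : ℚ) : ℕ → ℚ × ℚ
  | 0 => (x, y)
  | n + 1 =>
    if Even n then ((st a b p q x y n).1, -(st a b p q x y n).2 - a * (st a b p q x y n).1 - q)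
    else (-(st a b p q x y n).1 - b * (st a b p q x y n).2 - p, (st a b p q x y n).2)

omit [Fintype ι] [DecidableEq ι] in
lemma wp_alt_apply (D : Data A coroot root s) (i j : ι) (n : ℕ) (v : V) (x y : ℚ) :
    wp s (alt i j n) (v + x • coroot i + y • coroot j) =
      v + (st (A i j) (A j i) (root i v) (root j v) x y n).1 • coroot i +
        (st (A i j) (A j i) (root i v) (root j v) x y n).2 • coroot j := by
  induction n with
  | zero => simp [alt, st]
  | succ n ih =>
    rw [alt, wp_cons, LinearEquiv.mul_apply, ih, st]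
    by_cases h : Even n
    · simp only [h, if_true]
      rw [act' D]
    · simp only [h, if_false]
      rw [act D]

omit [Fintype ι] [DecidableEq ι] in
lemma st_values (D : Data A coroot root s) (i j : ι) (hij : i ≠ j) (m : ℕ)
    (hm : (A i j * A j i = 0 ∧ m = 2) ∨ (A i j * A j i = 1 ∧ m = 3) ∨
      (A i j * A j i = 2 ∧ m = 4) ∨ (A i j * A j i = 3 ∧ m = 6)) :
    (A i j = 0 ∧ A j i = 0 ∧ m = 2) ∨ (A i j = -1 ∧ A j i = -1 ∧ m = 3) ∨
    (A i j = -1 ∧ A j i = -2 ∧ m = 4) ∨ (A i j = -2 ∧ A j i = -1 ∧ m = 4) ∨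
    (A i j = -1 ∧ A j i = -3 ∧ m = 6) ∨ (A i j = -3 ∧ A j i = -1 ∧ m = 6) := by
  have h1 := D.neg i j hij
  have h2 := D.neg j i hij.symm
  rcases hm with ⟨h, rfl⟩ | ⟨h, rfl⟩ | ⟨h, rfl⟩ | ⟨h, rfl⟩
  · left
    rcases mul_eq_zero.1 h with h | h
    · exact ⟨h, D.zero _ _ h, rfl⟩
    · exact ⟨D.zero _ _ h, h, rfl⟩
  all_goals
    have h3 : A j i ≤ -1 := by
      by_contra hc
      have : A j i = 0 := by omega
      rw [this] at h; simp at h
    have h4 : -3 ≤ A i j := by nlinarith
    interval_cases A i j <;> omega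

omit [Fintype ι] [DecidableEq ι] in
/-- braid relations -/
lemma braid (D : Data A coroot root s) (i j : ι) (hij : i ≠ j) (m : ℕ)
    (hm : (A i j * A j i = 0 ∧ m = 2) ∨ (A i j * A j i = 1 ∧ m = 3) ∨
      (A i j * A j i = 2 ∧ m = 4) ∨ (A i j * A j i = 3 ∧ m = 6)) :
    wp s (alt i j m) = wp s (alt j i m) := by
  have e1 : ∀ (i j : ι) (v : V), v + (0 : ℚ) • coroot i + (0 : ℚ) • coroot j = v :=
    fun i j v => by module
  ext v
  have e2 := wp_alt_apply D i j m v 0 0
  have e3 := wp_alt_apply D j i m v 0 0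
  rw [e1] at e2 e3
  rw [e2, e3, add_right_comm]
  have n1 : ¬ Even 1 := by decide
  have n2 : Even 2 := by decide
  have n3 : ¬ Even 3 := by decide
  have n4 : Even 4 := by decide
  have n5 : ¬ Even 5 := by decide
  rcases st_values D i j hij m hm with ⟨h1, h2, rfl⟩ | ⟨h1, h2, rfl⟩ | ⟨h1, h2, rfl⟩ |
    ⟨h1, h2, rfl⟩ | ⟨h1, h2, rfl⟩ | ⟨h1, h2, rfl⟩ <;>
  · rw [h1, h2]
    simp only [st, n1, n2, n3, n4, n5, Even.zero, if_true, if_false]
    push_cast
    module

lemma st_nonneg_inf {a b : ℚ} (ha : a ≤ 0) (hab : 4 ≤ a * b) (n : ℕ) :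
    0 ≤ (st a b 0 0 1 0 n).1 ∧ 0 ≤ (st a b 0 0 1 0 n).2 ∧
    (if Even n then 2 * (st a b 0 0 1 0 n).2 ≤ -a * (st a b 0 0 1 0 n).1 ∧
        -b * (st a b 0 0 1 0 n).2 ≤ 2 * (st a b 0 0 1 0 n).1
      else 2 * (st a b 0 0 1 0 n).1 ≤ -b * (st a b 0 0 1 0 n).2 ∧
        -a * (st a b 0 0 1 0 n).1 ≤ 2 * (st a b 0 0 1 0 n).2) := by
  induction n with
  | zero => simp [st, ha]
  | succ n ih =>
    obtain ⟨h1, h2, h3⟩ := ih
    rw [st]
    by_cases h : Even n
    · have h' : ¬ Even (n + 1) := by simpa [Nat.even_add_one] using h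
      simp only [h, h', if_true, if_false] at h3 ⊢
      obtain ⟨h3, h4⟩ := h3
      generalize (st a b 0 0 1 0 n).1 = x at *
      generalize (st a b 0 0 1 0 n).2 = y at *
      have h5 : 4 * x ≤ (a * b) * x := mul_le_mul_of_nonneg_right hab h1
      refine ⟨h1, by nlinarith, ?_, ?_⟩
      · nlinarith
      · nlinarith
    · have h' : Even (n + 1) := by simpa [Nat.even_add_one] using h
      simp only [h, h', if_true, if_false] at h3 ⊢
      obtain ⟨h3, h4⟩ := h3
      generalize (st a b 0 0 1 0 n).1 = x at *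
      generalize (st a b 0 0 1 0 n).2 = y at *
      have h5 : 4 * y ≤ (a * b) * y := mul_le_mul_of_nonneg_right hab h2
      refine ⟨by nlinarith, h2, ?_, ?_⟩
      · nlinarith
      · nlinarith

omit [Fintype ι] [DecidableEq ι] in
/-- rank two positivity -/
lemma rank_two (D : Data A coroot root s) (i j : ι) (hij : i ≠ j) {u : V ≃ₗ[ℚ] V}
    (hu : u ∈ WI s ({i, j} : Set ι))
    (hle : len s ({i, j} : Set ι) u ≤ len s ({i, j} : Set ι) (u * s i)) :
    ∃ x y : ℚ, 0 ≤ x ∧ 0 ≤ y ∧ u (coroot i) = x • coroot i + y • coroot j := by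
  obtain ⟨l, hl, hl', rfl⟩ := exists_reduced D hu
  obtain ⟨n, hn, h⟩ := exists_alt D i j l hl
  -- it is the alternating word ending in `j`
  have key : wp s l = wp s (alt i j n) := by
    rcases h with h | h
    · exact h
    · cases n with
      | zero => exact h
      | succ n =>
        exfalso
        have h1 : wp s l * s i = wp s (alt i j n) := by
          rw [h, alt_succ', wp_append]
          simp only [wp_cons, wp_nil, mul_one]
          rw [mul_s_mul_s D]
        have h2 := len_le (s := s) (alt_mem i j n)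
        rw [← h1, alt_length] at h2
        omega
  have key2 : ∀ m, ((A i j * A j i = 0 ∧ m = 2) ∨ (A i j * A j i = 1 ∧ m = 3) ∨
      (A i j * A j i = 2 ∧ m = 4) ∨ (A i j * A j i = 3 ∧ m = 6)) → n < m := by
    intro m hm
    by_contra hc
    obtain ⟨k, rfl⟩ : ∃ k, n = k + m := ⟨n - m, by omega⟩
    obtain ⟨X, hX, hX', h1⟩ := alt_split k m i j
    have hm0 : ∃ m', m = m' + 1 := ⟨m - 1, by omega⟩
    obtain ⟨m', rfl⟩ := hm0
    have h2 : wp s l * s i = wp s (X ++ alt i j m') := by
      rw [key, h1, wp_append, braid D i j hij _ hm, alt_succ', wp_append, wp_append, ← mul_assoc]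
      simp only [wp_cons, wp_nil, mul_one]
      rw [mul_s_mul_s D]
    have h3 : len s ({i, j} : Set ι) (wp s (X ++ alt i j m')) ≤ (X ++ alt i j m').length := by
      apply len_le
      intro k hk
      rcases List.mem_append.1 hk with h | h
      · exact hX' k h
      · exact alt_mem i j m' k h
    rw [← h2, List.length_append, hX, alt_length] at h3
    omega
  have e0 := wp_alt_apply D i j n 0 1 0
  simp only [one_smul, zero_smul, zero_add, add_zero, map_zero] at e0
  rw [key, e0]
  refine ⟨_, _, ?_, ?_, rfl⟩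
  all_goals
    have hA1 := D.neg i j hij
    have hA2 := D.neg j i hij.symm
    have hA3 : 0 ≤ A i j * A j i := mul_nonneg_of_nonpos_of_nonpos hA1 hA2
    have hA1' : (A i j : ℚ) ≤ 0 := by exact_mod_cast hA1
    have hA2' : (A j i : ℚ) ≤ 0 := by exact_mod_cast hA2
    by_cases h4 : 4 ≤ A i j * A j i
    · have h4' : (4 : ℚ) ≤ A i j * A j i := by exact_mod_cast h4
      have := st_nonneg_inf hA1' h4' n
      first
        | exact this.1
        | exact this.2.1
    · have hm : ∃ m, ((A i j * A j i = 0 ∧ m = 2) ∨ (A i j * A j i = 1 ∧ m = 3) ∨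
          (A i j * A j i = 2 ∧ m = 4) ∨ (A i j * A j i = 3 ∧ m = 6)) := by
        have : A i j * A j i = 0 ∨ A i j * A j i = 1 ∨ A i j * A j i = 2 ∨ A i j * A j i = 3 := by
          omega
        rcases this with h | h | h | h
        · exact ⟨2, by simp [h]⟩
        · exact ⟨3, by simp [h]⟩
        · exact ⟨4, by simp [h]⟩
        · exact ⟨6, by simp [h]⟩
      obtain ⟨m, hm⟩ := hm
      have hnm := key2 m hm
      have n1 : ¬ Even 1 := by decide
      have n2 : Even 2 := by decide
      have n3 : ¬ Even 3 := by decide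
      have n4 : Even 4 := by decide
      have n5 : ¬ Even 5 := by decide
      rcases st_values D i j hij m hm with ⟨h1, h2, rfl⟩ | ⟨h1, h2, rfl⟩ | ⟨h1, h2, rfl⟩ |
        ⟨h1, h2, rfl⟩ | ⟨h1, h2, rfl⟩ | ⟨h1, h2, rfl⟩ <;>
      · rw [h1, h2]
        interval_cases n <;>
        norm_num [st, n1, n2, n3, n4, n5]

/-! ### positivity -/

/-- nonnegative combinations of the coroots with index in `I` -/
def Pos (coroot : ι → V) (I : Set ι) (v : V) : Prop :=
  ∃ c : ι → ℚ, (∀ k, 0 ≤ c k) ∧ (∀ k, k ∉ I → c k = 0) ∧ v = ∑ k, c k • coroot k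

omit [DecidableEq ι] in
lemma Pos.add {I : Set ι} {v w : V} (hv : Pos coroot I v) (hw : Pos coroot I w) :
    Pos coroot I (v + w) := by
  obtain ⟨c, h1, h2, rfl⟩ := hv
  obtain ⟨d, h3, h4, rfl⟩ := hw
  refine ⟨fun k => c k + d k, fun k => add_nonneg (h1 k) (h3 k),
    fun k hk => by simp [h2 k hk, h4 k hk], ?_⟩
  simp [add_smul, Finset.sum_add_distrib]

omit [DecidableEq ι] in
lemma Pos.smul {I : Set ι} {v : V} (hv : Pos coroot I v) {x : ℚ} (hx : 0 ≤ x) :
    Pos coroot I (x • v) := by
  obtain ⟨c, h1, h2, rfl⟩ := hv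
  refine ⟨fun k => x * c k, fun k => mul_nonneg hx (h1 k), fun k hk => by simp [h2 k hk], ?_⟩
  simp [mul_smul, Finset.smul_sum]

omit [DecidableEq ι] in
lemma Pos.zero {I : Set ι} : Pos coroot I (0 : V) :=
  ⟨fun _ => 0, fun _ => le_rfl, fun _ _ => rfl, by simp⟩

omit [DecidableEq ι] in
lemma Pos.sum {I : Set ι} {κ : Type*} (t : Finset κ) (f : κ → V)
    (h : ∀ k ∈ t, Pos coroot I (f k)) : Pos coroot I (∑ k ∈ t, f k) := by
  classical
  induction t using Finset.induction_on with
  | empty => simpa using Pos.zero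
  | insert a t ha ih =>
    rw [Finset.sum_insert ha]
    exact (h a (by simp)).add (ih fun k hk => h k (by simp [hk]))

lemma Pos.of {I : Set ι} {i : ι} (hi : i ∈ I) : Pos coroot I (coroot i) := by
  refine ⟨Pi.single i 1, fun k => ?_, fun k hk => ?_, ?_⟩
  · by_cases h : k = i
    · subst h; simp
    · simp [Pi.single_eq_of_ne h]
  · have : k ≠ i := by rintro rfl; exact hk hi
    simp [this]
  · rw [Finset.sum_eq_single i]
    · simp
    · intro b _ hb; simp [hb]
    · simp

omit [DecidableEq ι] in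
lemma Pos.map {I J : Set ι} {w : V ≃ₗ[ℚ] V} (hw : ∀ i ∈ I, Pos coroot J (w (coroot i)))
    {v : V} (hv : Pos coroot I v) : Pos coroot J (w v) := by
  obtain ⟨c, h1, h2, rfl⟩ := hv
  rw [map_sum]
  apply Pos.sum
  intro k _
  rw [map_smul]
  by_cases hk : k ∈ I
  · exact (hw k hk).smul (h1 k)
  · rw [h2 k hk, zero_smul]; exact Pos.zero

omit [DecidableEq ι] in
lemma Pos.neg_eq_zero (D : Data A coroot root s) {I J : Set ι} {v : V} (hv : Pos coroot I v)
    (hv' : Pos coroot J (-v)) : v = 0 := by
  obtain ⟨c, h1, h2, rfl⟩ := hv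
  obtain ⟨d, h3, h4, h5⟩ := hv'
  have h6 : ∑ k, (c k + d k) • coroot k = 0 := by
    simp only [add_smul, Finset.sum_add_distrib]
    rw [← h5]; simp
  have h7 := Fintype.linearIndependent_iff.1 D.indep _ h6
  apply Finset.sum_eq_zero
  intro k _
  have := h7 k
  have h8 : c k = 0 := by linarith [h1 k, h3 k]
  rw [h8, zero_smul]

lemma not_pos_neg (D : Data A coroot root s) {I J : Set ι} {w : V ≃ₗ[ℚ] V} {i : ι}
    (h : Pos coroot I (w (coroot i))) (h' : Pos coroot J (-w (coroot i))) : False := by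
  have h1 := h.neg_eq_zero D h'
  have h2 : coroot i = 0 := by simpa using h1
  exact D.indep.ne_zero i h2

/-- the positivity theorem -/
theorem KT (D : Data A coroot root s) (I : Set ι) : ∀ n, ∀ w ∈ WI s I, len s I w = n →
    ∀ i ∈ I, len s I w ≤ len s I (w * s i) → Pos coroot I (w (coroot i)) := by
  intro n
  induction n using Nat.strong_induction_on with
  | _ n IH =>
  intro w hw hn i hi hle
  by_cases h1 : w = 1
  · subst h1
    exact Pos.of hi
  obtain ⟨w', hw', j, hj, h2, h3⟩ := exists_last D hw h1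
  have hji : i ≠ j := by
    rintro rfl
    rw [h2, mul_s_mul_s D, ← h2] at hle
    omega
  have hsub : ({i, j} : Set ι) ⊆ I := by
    rintro k (rfl | rfl)
    · exact hi
    · exact hj
  have hiD : i ∈ ({i, j} : Set ι) := by simp
  have hjD : j ∈ ({i, j} : Set ι) := by simp
  let P : ℕ → Prop := fun k => ∃ v ∈ WI s I, ∃ u ∈ WI s ({i, j} : Set ι), w = v * u ∧
    len s I v = k ∧ k + len s ({i, j} : Set ι) u ≤ n
  have hP : P (len s I w') := by
    refine ⟨w', hw', s j, s_mem hjD, h2, rfl, ?_⟩
    have := len_s_le (s := s) hjD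
    omega
  classical
  have hex : ∃ k, P k := ⟨_, hP⟩
  obtain ⟨v, hv, u, hu, h4, h5, h6⟩ := Nat.find_spec hex
  have hk0 : Nat.find hex ≤ len s I w' := Nat.find_min' hex hP
  have hmin : ∀ k, P k → len s I v ≤ k := fun k hk => by rw [h5]; exact Nat.find_min' hex hk
  rw [← h5] at h6 hk0
  have hasc : ∀ k ∈ ({i, j} : Set ι), len s I v ≤ len s I (v * s k) := by
    intro k hk
    by_contra hc
    push Not at hc
    have : P (len s I (v * s k)) := by
      refine ⟨v * s k, mul_mem hv (s_mem (hsub hk)), s k * u, mul_mem (s_mem hk) hu, ?_, rfl, ?_⟩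
      · rw [← mul_assoc, mul_s_mul_s D]; exact h4
      · have := len_s_mul_le D hu hk
        omega
    have := hmin _ this
    omega
  have hlt : len s I v < n := by omega
  have hpi := IH _ hlt v hv rfl i hi (hasc i hiD)
  have hpj := IH _ hlt v hv rfl j hj (hasc j hjD)
  have hu' : len s ({i, j} : Set ι) u ≤ len s ({i, j} : Set ι) (u * s i) := by
    by_contra hc
    push Not at hc
    have := len_mul_le D hsub hv (mul_mem hu (s_mem hiD))
    rw [← mul_assoc, ← h4] at this
    omega
  obtain ⟨x, y, hx, hy, h7⟩ := rank_two D i j hji hu hu'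
  rw [h4, LinearEquiv.mul_apply, h7, map_add, map_smul, map_smul]
  exact (hpi.smul hx).add (hpj.smul hy)

lemma s_coroot (D : Data A coroot root s) (w : V ≃ₗ[ℚ] V) (i : ι) :
    (w * s i) (coroot i) = - w (coroot i) := by
  rw [LinearEquiv.mul_apply, D.refl, D.pairing, D.diag, ← map_neg]
  congr 1
  push_cast
  module

lemma len_lt_of_pos (D : Data A coroot root s) {I J : Set ι} {w : V ≃ₗ[ℚ] V} (hw : w ∈ WI s I)
    {i : ι} (hi : i ∈ I) (h : Pos coroot J (w (coroot i))) : len s I w < len s I (w * s i) := by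
  by_contra hc
  push Not at hc
  have h1 := KT D I _ (w * s i) (mul_mem hw (s_mem hi)) rfl i hi (by rwa [mul_s_mul_s D])
  rw [s_coroot D] at h1
  exact not_pos_neg D h h1

lemma len_lt_of_neg (D : Data A coroot root s) {I J : Set ι} {w : V ≃ₗ[ℚ] V} (hw : w ∈ WI s I)
    {i : ι} (hi : i ∈ I) (h : Pos coroot J (- w (coroot i))) :
    len s I (w * s i) < len s I w := by
  by_contra hc
  push Not at hc
  exact not_pos_neg D (KT D I _ w hw rfl i hi hc) h

lemma pos_of_le (D : Data A coroot root s) {I : Set ι} {w : V ≃ₗ[ℚ] V} (hw : w ∈ WI s I)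
    {i : ι} (hi : i ∈ I) (h : len s I w ≤ len s I (w * s i)) : Pos coroot I (w (coroot i)) :=
  KT D I _ w hw rfl i hi h

lemma neg_of_le (D : Data A coroot root s) {I : Set ι} {w : V ≃ₗ[ℚ] V} (hw : w ∈ WI s I)
    {i : ι} (hi : i ∈ I) (h : len s I (w * s i) ≤ len s I w) :
    Pos coroot I (- w (coroot i)) := by
  rw [← s_coroot D]
  exact KT D I _ (w * s i) (mul_mem hw (s_mem hi)) rfl i hi (by rwa [mul_s_mul_s D])

lemma len_ne (D : Data A coroot root s) {I : Set ι} {w : V ≃ₗ[ℚ] V} (hw : w ∈ WI s I)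
    {i : ι} (hi : i ∈ I) : len s I (w * s i) ≠ len s I w := by
  intro h
  exact not_pos_neg D (pos_of_le D hw hi h.ge) (neg_of_le D hw hi h.le)

/-- if all elements of `I` are right ascents of `w`, then `w` is the unique shortest element of
`w W_I`. -/
lemma len_lt_mul (D : Data A coroot root s) {I : Set ι} {w : V ≃ₗ[ℚ] V}
    (hw : w ∈ WI s Set.univ) (h : ∀ i ∈ I, len s Set.univ w ≤ len s Set.univ (w * s i)) :
    ∀ n, ∀ u ∈ WI s I, len s I u = n → u ≠ 1 → len s Set.univ w < len s Set.univ (w * u) := by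
  intro n
  induction n with
  | zero =>
    intro u hu hn h1
    exact absurd (eq_one_of_len D hu hn) h1
  | succ n IH =>
    intro u hu hn h1
    obtain ⟨v, hv, i, hi, h2, h3⟩ := exists_last D hu h1
    have h4 : len s Set.univ w ≤ len s Set.univ (w * v) := by
      by_cases h5 : v = 1
      · rw [h5, mul_one]
      · exact (IH v hv (by omega) h5).le
    have h5 : Pos coroot I (v (coroot i)) := by
      apply pos_of_le D hv hi
      rw [← h2]; omega
    have h6 : Pos coroot Set.univ ((w * v) (coroot i)) := by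
      rw [LinearEquiv.mul_apply]
      apply Pos.map (I := I) _ h5
      intro k hk
      exact pos_of_le D hw (Set.mem_univ k) (h k hk)
    have h7 := len_lt_of_pos D (mul_mem hw (WI_mono (Set.subset_univ I) hv)) (Set.mem_univ i) h6
    rw [mul_assoc, ← h2] at h7
    omega

lemma finite_of_desc (D : Data A coroot root s) {J : Set ι} {w : V ≃ₗ[ℚ] V}
    (hw : w ∈ WI s Set.univ) (h : ∀ i ∈ J, len s Set.univ (w * s i) ≤ len s Set.univ w) :
    Finite (WI s J) := by
  have key : ∀ n, ∀ v ∈ WI s J, len s J v = n →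
      len s Set.univ (w * v) + len s J v ≤ len s Set.univ w := by
    intro n
    induction n with
    | zero =>
      intro v hv hn
      rw [hn, eq_one_of_len D hv hn, mul_one, add_zero]
    | succ n IH =>
      intro v hv hn
      have h1 : v ≠ 1 := by
        rintro rfl
        have := len_le (s := s) (I := J) (l := []) (by simp)
        simp at this
        omega
      obtain ⟨v', hv', i, hi, h2, h3⟩ := exists_last D hv h1
      have h4 := IH v' hv' (by omega)
      have h5 : Pos coroot J (v' (coroot i)) := by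
        apply pos_of_le D hv' hi
        rw [← h2]; omega
      have h6 : Pos coroot Set.univ (- (w * v') (coroot i)) := by
        obtain ⟨c, hc1, hc2, hc3⟩ := h5
        rw [LinearEquiv.mul_apply, hc3, map_sum, ← Finset.sum_neg_distrib]
        apply Pos.sum
        intro k _
        rw [map_smul, ← smul_neg]
        by_cases hk : k ∈ J
        · exact (neg_of_le D hw (Set.mem_univ k) (h k hk)).smul (hc1 k)
        · rw [hc2 k hk, zero_smul]; exact Pos.zero
      have h7 := len_lt_of_neg D (mul_mem hw (WI_mono (Set.subset_univ J) hv')) (Set.mem_univ i) h6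
      rw [mul_assoc, ← h2] at h7
      omega
  have hsub : ((WI s J : Subgroup (V ≃ₗ[ℚ] V)) : Set (V ≃ₗ[ℚ] V)) ⊆
      (wp s) '' {l : List ι | l.length ≤ len s Set.univ w} := by
    intro v hv
    obtain ⟨l, hl, hl', rfl⟩ := exists_reduced D hv
    refine ⟨l, ?_, rfl⟩
    have := key _ _ hv rfl
    show l.length ≤ _
    omega
  exact ((List.finite_length_le ι _).image _).subset hsub

/-! ### the triangular basis -/

/-- abstract data: a set `X` with a length function, an ascent set and a relation `R I` for every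
`I` with shortest representatives `m K x`. -/
structure Abs {X : Type*} (L : X → ℕ) (N : X → Set ι) (m : Finset ι → X → X)
    (R : Set ι → X → X → Prop) : Prop where
  asc : ∀ (K : Finset ι) x, (K : Set ι) ⊆ N (m K x)
  lt : ∀ K x, m K x = x ∨ L (m K x) < L x
  self : ∀ (K : Finset ι) x, (K : Set ι) ⊆ N x → m K x = x
  congr : ∀ (K : Finset ι) (I : Set ι) x y, I ⊆ (K : Set ι) → R I x y → m K x = m K y
  desc : ∀ x i, i ∉ N x → ∃ y, (∀ I : Set ι, i ∈ I → R I x y) ∧ L y < L x

section abs

variable {X : Type*} {L : X → ℕ} {N : X → Set ι} {m : Finset ι → X → X}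
    {R : Set ι → X → X → Prop} {M : Type*} [AddCommGroup M] [Module ℚ M]

open Classical in
/-- the synthesis map -/
noncomputable def TT (N : X → Set ι) (m : Finset ι → X → X) (M : Type*) [AddCommGroup M]
    [Module ℚ M] : (X → M) →ₗ[ℚ] (X → M) where
  toFun c x := ∑ K : Finset ι, if N (m K x) = (K : Set ι) then c (m K x) else 0
  map_add' := by
    intro c d
    ext x
    simp only [Pi.add_apply]
    rw [← Finset.sum_add_distrib]
    apply Finset.sum_congr rfl
    intro K _
    split_ifs <;> simp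
  map_smul' := by
    intro r c
    ext x
    simp only [Pi.smul_apply, RingHom.id_apply]
    rw [Finset.smul_sum]
    apply Finset.sum_congr rfl
    intro K _
    split_ifs <;> simp

open Classical in
lemma TT_apply (c : X → M) (x : X) :
    TT N m M c x = ∑ K : Finset ι, if N (m K x) = (K : Set ι) then c (m K x) else 0 := rfl

open Classical in
lemma TT_apply' (D : Abs L N m R) (c : X → M) (x : X) :
    TT N m M c x = c x + ∑ K : Finset ι,
      if L (m K x) < L x ∧ N (m K x) = (K : Set ι) then c (m K x) else 0 := by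
  have hfin : (N x).Finite := Set.toFinite _
  have h0 : m hfin.toFinset x = x := D.self _ _ (hfin.coe_toFinset).subset
  rw [TT_apply, ← Finset.add_sum_erase _ _ (Finset.mem_univ hfin.toFinset),
    ← Finset.add_sum_erase (a := hfin.toFinset) _ _ (Finset.mem_univ hfin.toFinset)]
  rw [h0]
  simp only [Set.Finite.coe_toFinset, if_true, lt_irrefl, false_and, if_false, zero_add]
  congr 1
  apply Finset.sum_congr rfl
  intro K hK
  have hK' : K ≠ hfin.toFinset := (Finset.mem_erase.1 hK).1
  by_cases h : N (m K x) = (K : Set ι)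
  · have h1 : L (m K x) < L x := by
      rcases D.lt K x with h2 | h2
      · exfalso
        rw [h2] at h
        apply hK'
        apply Finset.coe_injective
        rw [Set.Finite.coe_toFinset]
        exact h.symm
      · exact h2
    simp [h, h1]
  · simp [h]

lemma TT_inj (D : Abs L N m R) : Function.Injective (TT N m M) := by
  classical
  rw [← LinearMap.ker_eq_bot, LinearMap.ker_eq_bot']
  intro c hc
  have key : ∀ n, ∀ x, L x = n → c x = 0 := by
    intro n
    induction n using Nat.strong_induction_on with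
    | _ n IH =>
    intro x hx
    have h1 := TT_apply' D c x
    rw [hc, Finset.sum_eq_zero, add_zero] at h1
    · exact h1.symm
    · intro K _
      split_ifs with h
      · exact IH _ (hx ▸ h.1) _ rfl
      · rfl
  ext x
  exact key _ x rfl

open Classical in
/-- the analysis map -/
noncomputable def coef (L : X → ℕ) (N : X → Set ι) (m : Finset ι → X → X) (F : X → M) (x : X) :
    M :=
  F x - ∑ K : Finset ι,
      if h : L (m K x) < L x ∧ N (m K x) = (K : Set ι) then coef L N m F (m K x) else 0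
termination_by L x
decreasing_by exact h.1

lemma TT_surj (D : Abs L N m R) : Function.Surjective (TT N m M) := by
  classical
  intro F
  refine ⟨coef L N m F, ?_⟩
  ext x
  rw [TT_apply' D]
  conv_lhs => rw [coef]
  simp only [dite_eq_ite]
  abel

/-- coordinate subspaces -/
def CS (M : Type*) [AddCommGroup M] [Module ℚ M] (S : Set X) : Submodule ℚ (X → M) where
  carrier := {c | ∀ x, x ∉ S → c x = 0}
  add_mem' := by
    intro c d hc hd x hx
    simp [hc x hx, hd x hx]
  zero_mem' := fun _ _ => rfl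
  smul_mem' := by
    intro r c hc x hx
    simp [hc x hx]

/-- invariant functions -/
def RInv (M : Type*) [AddCommGroup M] [Module ℚ M] (R : Set ι → X → X → Prop) (I : Set ι) :
    Submodule ℚ (X → M) where
  carrier := {F | ∀ x y, R I x y → F x = F y}
  add_mem' := by
    intro c d hc hd x y h
    simp [hc x y h, hd x y h]
  zero_mem' := fun _ _ _ => rfl
  smul_mem' := by
    intro r c hc x y h
    simp [hc x y h]

lemma RInv_eq (D : Abs L N m R) (I : Set ι) :
    RInv M R I = (CS M {x | I ⊆ N x}).map (TT N m M) := by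
  classical
  apply le_antisymm
  · intro F hF
    obtain ⟨c, rfl⟩ := TT_surj D F
    refine ⟨c, ?_, rfl⟩
    have key : ∀ n, ∀ x, L x = n → ¬ I ⊆ N x → c x = 0 := by
      intro n
      induction n using Nat.strong_induction_on with
      | _ n IH =>
      intro x hx hI
      obtain ⟨i, hiI, hiN⟩ := Set.not_subset.1 hI
      obtain ⟨y, hy, hyL⟩ := D.desc x i hiN
      have h1 := hF x y (hy I hiI)
      rw [TT_apply' D, TT_apply] at h1
      have h2 : ∀ K : Finset ι, (if L (m K x) < L x ∧ N (m K x) = (K : Set ι) then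
          c (m K x) else 0) = (if N (m K y) = (K : Set ι) then c (m K y) else 0) := by
        intro K
        by_cases hK : I ⊆ (K : Set ι)
        · rw [← D.congr K I x y hK (hy I hiI)]
          have h3 : L (m K x) < L x := by
            rcases D.lt K x with h | h
            · exfalso
              have := D.asc K x
              rw [h] at this
              exact hI (hK.trans this)
            · exact h
          simp [h3]
        · have h3 : (if L (m K x) < L x ∧ N (m K x) = (K : Set ι) then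
              c (m K x) else 0) = 0 := by
            split_ifs with h
            · exact IH _ (by omega) _ rfl (by rw [h.2]; exact hK)
            · rfl
          have h4 : (if N (m K y) = (K : Set ι) then c (m K y) else 0) = 0 := by
            split_ifs with h
            · have : L (m K y) ≤ L y := by
                rcases D.lt K y with h | h
                · rw [h]
                · exact h.le
              exact IH _ (by omega) _ rfl (by rw [h]; exact hK)
            · rfl
          rw [h3, h4]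
      rw [Finset.sum_congr rfl fun K _ => h2 K] at h1
      simpa using h1
    intro x hx
    exact key _ x rfl hx
  · rintro _ ⟨c, hc, rfl⟩ x y hxy
    rw [TT_apply, TT_apply]
    apply Finset.sum_congr rfl
    intro K _
    by_cases hK : I ⊆ (K : Set ι)
    · rw [D.congr K I x y hK hxy]
    · have h3 : ∀ z, (if N (m K z) = (K : Set ι) then c (m K z) else 0) = 0 := by
        intro z
        split_ifs with h
        · apply hc
          show ¬ I ⊆ _
          rw [h]; exact hK
        · rfl
      rw [h3, h3]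

lemma CS_sup (S : ι → Set X) (K : Finset ι) :
    (⨆ k ∈ K, CS M (S k)) = CS M {x | ∃ k ∈ K, x ∈ S k} := by
  classical
  apply le_antisymm
  · refine iSup₂_le fun k hk c hc x hx => hc x fun h => hx ⟨k, hk, h⟩
  · intro c hc
    rcases isEmpty_or_nonempty ι with hι | hι
    · have : c = 0 := by
        ext x
        apply hc
        rintro ⟨k, -⟩
        exact hι.false k
      rw [this]; exact zero_mem _
    -- choose an index
    have hch : ∀ x, ∃ k, (∃ k ∈ K, x ∈ S k) → k ∈ K ∧ x ∈ S k := by
      intro x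
      by_cases h : ∃ k ∈ K, x ∈ S k
      · obtain ⟨k, hk⟩ := h
        exact ⟨k, fun _ => hk⟩
      · exact ⟨hι.some, fun h' => absurd h' h⟩
    choose f hf using hch
    have h1 : c = ∑ k ∈ K, fun x => if f x = k then c x else 0 := by
      ext x
      rw [Finset.sum_apply]
      by_cases h : ∃ k ∈ K, x ∈ S k
      · rw [Finset.sum_ite_eq]
        simp [(hf x h).1]
      · rw [hc x h]; simp
    rw [h1]
    apply Submodule.sum_mem
    intro k hk
    refine Submodule.mem_iSup_of_mem k (Submodule.mem_iSup_of_mem hk ?_)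
    intro x hx
    show (if f x = k then c x else 0) = 0
    split_ifs with h
    · apply hc
      intro h'
      apply hx
      rw [← h]
      exact (hf x h').2
    · rfl

end abs

/-! ### the instance -/

section inst

/-- representatives of the cosets `W x` -/
noncomputable def rr (s : ι → V ≃ₗ[ℚ] V) (x : V ≃ₗ[ℚ] V) : V ≃ₗ[ℚ] V :=
  (Quotient.mk (QuotientGroup.rightRel (WI s Set.univ)) x).out

/-- the element of `W` attached to `x` -/
noncomputable def gg (s : ι → V ≃ₗ[ℚ] V) (x : V ≃ₗ[ℚ] V) : V ≃ₗ[ℚ] V := rr s x * x⁻¹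

lemma gg_mem (x : V ≃ₗ[ℚ] V) : gg s x ∈ WI s Set.univ := by
  have h : (QuotientGroup.rightRel (WI s Set.univ)) (rr s x) x := Quotient.exact (Quotient.out_eq _)
  rw [QuotientGroup.rightRel_apply] at h
  have := inv_mem h
  rwa [mul_inv_rev, inv_inv] at this

lemma rr_mul {u : V ≃ₗ[ℚ] V} (hu : u ∈ WI s Set.univ) (x : V ≃ₗ[ℚ] V) :
    rr s (u * x) = rr s x := by
  have h : (QuotientGroup.rightRel (WI s Set.univ)) (u * x) x := by
    rw [QuotientGroup.rightRel_apply]
    have := inv_mem hu
    simpa [mul_inv_rev, ← mul_assoc] using this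
  unfold rr
  rw [Quotient.sound h]

lemma gg_mul {u : V ≃ₗ[ℚ] V} (hu : u ∈ WI s Set.univ) (x : V ≃ₗ[ℚ] V) :
    gg s (u * x) = gg s x * u⁻¹ := by
  unfold gg
  rw [rr_mul hu, mul_inv_rev, mul_assoc]

variable (H : Subgroup (V ≃ₗ[ℚ] V))

/-- length on `H` -/
noncomputable def LL (s : ι → V ≃ₗ[ℚ] V) (x : H) : ℕ := len s Set.univ (gg s x)

/-- ascents on `H` -/
def NN (s : ι → V ≃ₗ[ℚ] V) (x : H) : Set ι :=
  {i | len s Set.univ (gg s x) ≤ len s Set.univ (gg s x * s i)}

/-- coset relation on `H` -/
def RR (s : ι → V ≃ₗ[ℚ] V) (I : Set ι) (x y : H) : Prop :=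
  ∃ u ∈ WI s I, (y : V ≃ₗ[ℚ] V) = u * x

variable {H}

lemma RR.symm {I : Set ι} {x y : H} (h : RR H s I x y) : RR H s I y x := by
  obtain ⟨u, hu, h⟩ := h
  exact ⟨u⁻¹, inv_mem hu, by rw [h]; simp⟩

lemma RR.trans {I : Set ι} {x y z : H} (h : RR H s I x y) (h' : RR H s I y z) :
    RR H s I x z := by
  obtain ⟨u, hu, h⟩ := h
  obtain ⟨v, hv, h'⟩ := h'
  exact ⟨v * u, mul_mem hv hu, by rw [h', h, mul_assoc]⟩

lemma RR.mono {I J : Set ι} (hIJ : I ⊆ J) {x y : H} (h : RR H s I x y) : RR H s J x y := by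
  obtain ⟨u, hu, h⟩ := h
  exact ⟨u, WI_mono hIJ hu, h⟩

lemma LL_lt (D : Data A coroot root s) {I : Set ι} {x y : H} (hI : I ⊆ NN H s x)
    (h : RR H s I x y) (hne : y ≠ x) : LL H s x < LL H s y := by
  obtain ⟨u, hu, h⟩ := h
  unfold LL
  rw [h, gg_mul (WI_mono (Set.subset_univ I) hu)]
  apply len_lt_mul D (gg_mem _) (I := I) (fun i hi => hI hi) _ _ (inv_mem hu) rfl
  intro h1
  apply hne
  ext1
  rw [h, inv_eq_one.1 h1, one_mul]

lemma exists_min (D : Data A coroot root s) (hH : ∀ i, s i ∈ H) (I : Set ι) (x : H) :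
    ∃ y : H, RR H s I x y ∧ I ⊆ NN H s y := by
  classical
  have hex : ∃ n, ∃ y : H, RR H s I x y ∧ LL H s y = n := ⟨_, x, ⟨1, one_mem _, by simp⟩, rfl⟩
  obtain ⟨y, hy, hyn⟩ := Nat.find_spec hex
  refine ⟨y, hy, ?_⟩
  intro i hi
  have h1 := Nat.find_min' hex ⟨⟨s i * y, mul_mem (hH i) y.2⟩, hy.trans ⟨s i, s_mem hi, rfl⟩, rfl⟩
  rw [← hyn] at h1
  unfold LL at h1
  simp only at h1
  rw [gg_mul (s_mem (Set.mem_univ i)), s_inv D] at h1
  exact h1

/-- the shortest representative -/
noncomputable def mm (D : Data A coroot root s) (hH : ∀ i, s i ∈ H) (K : Finset ι) (x : H) : H :=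
  (exists_min D hH (K : Set ι) x).choose

lemma mm_rel (D : Data A coroot root s) (hH : ∀ i, s i ∈ H) (K : Finset ι) (x : H) :
    RR H s K x (mm D hH K x) := (exists_min D hH (K : Set ι) x).choose_spec.1

lemma mm_asc (D : Data A coroot root s) (hH : ∀ i, s i ∈ H) (K : Finset ι) (x : H) :
    (K : Set ι) ⊆ NN H s (mm D hH K x) := (exists_min D hH (K : Set ι) x).choose_spec.2

lemma rel_unique (D : Data A coroot root s) {I : Set ι} {x y : H}
    (h : RR H s I x y) (hx : I ⊆ NN H s x) (hy : I ⊆ NN H s y) : x = y := by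
  by_contra hne
  have h1 := LL_lt D hx h (Ne.symm hne)
  have h2 := LL_lt D hy h.symm hne
  omega

lemma abs_inst (D : Data A coroot root s) (hH : ∀ i, s i ∈ H) :
    Abs (LL H s) (NN H s) (mm D hH) (RR H s) where
  asc := mm_asc D hH
  lt := by
    intro K x
    by_cases h : mm D hH K x = x
    · exact Or.inl h
    · exact Or.inr (LL_lt D (mm_asc D hH K x) (mm_rel D hH K x).symm (Ne.symm h))
  self := by
    intro K x h
    exact (rel_unique D (mm_rel D hH K x) h (mm_asc D hH K x)).symm
  congr := by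
    intro K I x y hI h
    apply rel_unique D _ (mm_asc D hH K x) (mm_asc D hH K y)
    exact (mm_rel D hH K x).symm.trans ((h.mono hI).trans (mm_rel D hH K y))
  desc := by
    intro x i hi
    refine ⟨⟨s i * x, mul_mem (hH i) x.2⟩, fun I hiI => ⟨s i, s_mem hiI, rfl⟩, ?_⟩
    unfold LL
    simp only
    rw [gg_mul (s_mem (Set.mem_univ i)), s_inv D]
    by_contra hc
    push Not at hc
    exact hi hc

lemma LInv_eq (H : Subgroup (V ≃ₗ[ℚ] V)) (M : Type*) [AddCommGroup M] [Module ℚ M] (I : Set ι) :
    LInv s H M I = RInv M (RR H s) I := by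
  ext F
  constructor
  · rintro h x y ⟨u, hu, h1⟩
    exact (h u hu x y h1).symm
  · intro h u hu x y h1
    exact (h x y ⟨u, hu, h1⟩).symm

end inst

end Cox

open Cox

/-- (K1) distributivity -/
theorem cox_dl (D : Data A coroot root s) (H : Subgroup (V ≃ₗ[ℚ] V)) (hH : ∀ i, s i ∈ H)
    (M : Type*) [AddCommGroup M] [Module ℚ M] (I K : Finset ι) :
    LInv s H M I ⊓ (⨆ k ∈ K, LInv s H M {k}) ≤ ⨆ k ∈ K, LInv s H M (insert k (I : Set ι)) := by
  simp only [LInv_eq, RInv_eq (abs_inst D hH), ← Submodule.map_iSup]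
  rw [← Submodule.map_inf _ (TT_inj (abs_inst D hH)), CS_sup, CS_sup]
  apply Submodule.map_mono
  rintro c ⟨h1, h2⟩ x hx
  by_cases h3 : (I : Set ι) ⊆ NN H s x
  · apply h2 x
    rintro ⟨k, hk, h4⟩
    exact hx ⟨k, hk, Set.insert_subset (h4 rfl) h3⟩
  · exact h1 x h3

/-- (K2) for an infinite parabolic subgroup the sum of the spaces is everything -/
theorem cox_sum (D : Data A coroot root s) (H : Subgroup (V ≃ₗ[ℚ] V)) (hH : ∀ i, s i ∈ H)
    (M : Type*) [AddCommGroup M] [Module ℚ M] (J : Finset ι) (hJ : Infinite (WI s (J : Set ι))) :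
    (⨆ k ∈ J, LInv s H M {k}) = ⊤ := by
  simp only [LInv_eq, RInv_eq (abs_inst D hH), ← Submodule.map_iSup]
  rw [CS_sup]
  have h1 : {x : H | ∃ k ∈ J, x ∈ {x : H | ({k} : Set ι) ⊆ NN H s x}} = Set.univ := by
    ext x
    simp only [Set.singleton_subset_iff, Set.mem_univ, iff_true]
    by_contra hc
    apply not_finite_iff_infinite.2 hJ
    apply finite_of_desc D (gg_mem (s := s) (x : V ≃ₗ[ℚ] V))
    intro i hi
    by_contra hc'
    push Not at hc'
    exact hc ⟨i, hi, hc'.le⟩
  rw [h1]
  rw [eq_top_iff]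
  intro F _
  obtain ⟨c, rfl⟩ := TT_surj (abs_inst D hH) F
  exact ⟨c, fun x hx => absurd (Set.mem_univ x) hx, rfl⟩

end K

end KMWanted2
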