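import Mathlib

/-! Subcomplexes of a graded vector space: cocycles, coboundaries, Euler characteristic. -/

namespace KMWanted2

variable {E : Type*} [AddCommGroup E] [Module ℚ E] (d : E →ₗ[ℚ] E)

/-- cocycles -/
def Zc (U : ℕ → Submodule ℚ E) (p : ℕ) : Submodule ℚ E := U p ⊓ LinearMap.ker d

/-- coboundaries -/
def Bc (U : ℕ → Submodule ℚ E) : ℕ → Submodule ℚ E
  | 0 => ⊥
  | (p+1) => (U p).map d

/-- cohomology -/
abbrev Hc (U : ℕ → Submodule ℚ E) (p : ℕ) : Type _ :=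
  ↥(Zc d U p) ⧸ (Bc d U p).submoduleOf (Zc d U p)

/-- finite dimensional cohomology, vanishing above `N` -/
def Good (U : ℕ → Submodule ℚ E) (N : ℕ) : Prop :=
  (∀ p, FiniteDimensional ℚ (Hc d U p)) ∧ ∀ p, N < p → Module.finrank ℚ (Hc d U p) = 0

/-- Euler characteristic -/
noncomputable def chi (U : ℕ → Submodule ℚ E) (N : ℕ) : ℤ :=
  ∑ p ∈ Finset.range (N+1), (-1)^p * (Module.finrank ℚ (Hc d U p) : ℤ)

end KMWanted2
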