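import Mathlib

open Polynomial Finset

namespace KMWanted

/-- Homogeneous polynomials of degree `m` on `ℚ^r` invariant under `G`. -/
def inv {r : ℕ} (G : Subgroup ((Fin r → ℚ) ≃ₗ[ℚ] (Fin r → ℚ))) (m : ℕ) :
    Submodule ℚ (MvPolynomial (Fin r) ℚ) where
  carrier := {f | f ∈ MvPolynomial.homogeneousSubmodule (Fin r) ℚ m ∧
    ∀ g ∈ G, ∀ v, MvPolynomial.eval (g v) f = MvPolynomial.eval v f}
  add_mem' := by
    rintro a b ⟨ha, ha'⟩ ⟨hb, hb'⟩
    exact ⟨Submodule.add_mem _ ha hb, fun g hg v => by simp [ha' g hg v, hb' g hg v]⟩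
  zero_mem' := ⟨Submodule.zero_mem _, fun g _ v => by simp⟩
  smul_mem' := by
    rintro c a ⟨ha, ha'⟩
    exact ⟨Submodule.smul_mem _ c ha, fun g hg v => by simp [ha' g hg v]⟩

variable {r : ℕ}

section subst

variable {R : Type*} [CommRing R]

/-- Linear substitution `X_i ↦ ∑ A_ij X_j`. -/
noncomputable def subst (A : Matrix (Fin r) (Fin r) R) :
    MvPolynomial (Fin r) R →ₐ[R] MvPolynomial (Fin r) R :=
  MvPolynomial.aeval (fun i => ∑ j, MvPolynomial.C (A i j) * MvPolynomial.X j)

lemma subst_X (A : Matrix (Fin r) (Fin r) R) (i : Fin r) :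
    subst A (MvPolynomial.X i) = ∑ j, MvPolynomial.C (A i j) * MvPolynomial.X j := by
  simp [subst]

lemma subst_C (A : Matrix (Fin r) (Fin r) R) (c : R) :
    subst A (MvPolynomial.C c) = MvPolynomial.C c := by
  exact (subst A).commutes c

lemma subst_comp (A B : Matrix (Fin r) (Fin r) R) :
    (subst B).comp (subst A) = subst (A * B) := by
  apply MvPolynomial.algHom_ext
  intro i
  simp only [AlgHom.comp_apply, subst_X, map_sum, map_mul, subst_C, Matrix.mul_apply,
    Finset.mul_sum, Finset.sum_mul]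
  rw [Finset.sum_comm]
  simp [mul_assoc]

lemma subst_subst (A B : Matrix (Fin r) (Fin r) R) (f : MvPolynomial (Fin r) R) :
    subst B (subst A f) = subst (A * B) f := by
  rw [← subst_comp]; rfl

lemma subst_one (f : MvPolynomial (Fin r) R) : subst (1 : Matrix (Fin r) (Fin r) R) f = f := by
  have : subst (1 : Matrix (Fin r) (Fin r) R) = AlgHom.id R _ := by
    apply MvPolynomial.algHom_ext
    intro i
    simp [subst_X, Matrix.one_apply]
  rw [this]; rfl

lemma eval_subst (A : Matrix (Fin r) (Fin r) R) (v : Fin r → R) (f : MvPolynomial (Fin r) R) :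
    MvPolynomial.eval v (subst A f) = MvPolynomial.eval (A.mulVec v) f := by
  induction f using MvPolynomial.induction_on with
  | C a => simp [subst_C]
  | add p q hp hq => simp [hp, hq]
  | mul_X p n hp => simp [hp, subst_X, Matrix.mulVec, dotProduct]

lemma map_subst {S : Type*} [CommRing S] (φ : R →+* S) (A : Matrix (Fin r) (Fin r) R)
    (f : MvPolynomial (Fin r) R) :
    MvPolynomial.map φ (subst A f) = subst (A.map φ) (MvPolynomial.map φ f) := by
  induction f using MvPolynomial.induction_on with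
  | C a => simp [subst_C]
  | add p q hp hq => simp [hp, hq]
  | mul_X p n hp => simp [hp, subst_X]

lemma subst_isHomogeneous (A : Matrix (Fin r) (Fin r) R) {f : MvPolynomial (Fin r) R} {m : ℕ}
    (hf : f.IsHomogeneous m) : (subst A f).IsHomogeneous m := by
  have := MvPolynomial.IsHomogeneous.aeval (φ := f) (m := m) (n := 1) hf
    (fun i => ∑ j, MvPolynomial.C (A i j) * MvPolynomial.X j) (fun i => by
      apply MvPolynomial.IsHomogeneous.sum
      intro j _
      simpa using (MvPolynomial.isHomogeneous_C (Fin r) (A i j)).mul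
        (MvPolynomial.isHomogeneous_X R j))
  simpa [subst] using this

/-- The degree `m` trace of a substitution. -/
noncomputable def T (A : Matrix (Fin r) (Fin r) R) (m : ℕ) : R :=
  ∑ a ∈ finsuppAntidiag (univ : Finset (Fin r)) m,
    MvPolynomial.coeff a (subst A (MvPolynomial.monomial a 1))

lemma T_map {S : Type*} [CommRing S] (φ : R →+* S) (A : Matrix (Fin r) (Fin r) R) (m : ℕ) :
    T (A.map φ) m = φ (T A m) := by
  simp only [T, map_sum]
  refine Finset.sum_congr rfl fun a _ => ?_
  rw [← MvPolynomial.coeff_map, map_subst]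
  simp

lemma T_diagonal (d : Fin r → R) (m : ℕ) :
    T (Matrix.diagonal d) m = ∑ a ∈ finsuppAntidiag (univ : Finset (Fin r)) m, ∏ i, d i ^ a i := by
  simp only [T]
  refine Finset.sum_congr rfl fun a _ => ?_
  have h : subst (Matrix.diagonal d) (MvPolynomial.monomial a (1 : R)) =
      MvPolynomial.monomial a (∏ i, d i ^ a i) := by
    rw [MvPolynomial.monomial_eq, map_mul, subst_C, Finsupp.prod_fintype _ _ (by simp), map_prod]
    have : ∀ i : Fin r, subst (Matrix.diagonal d) (MvPolynomial.X i ^ a i) =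
        MvPolynomial.C (d i ^ a i) * MvPolynomial.X i ^ a i := by
      intro i
      rw [map_pow, subst_X]
      have : ∑ j, MvPolynomial.C (Matrix.diagonal d i j) * (MvPolynomial.X j : MvPolynomial (Fin r) R)
          = MvPolynomial.C (d i) * MvPolynomial.X i := by
        rw [Finset.sum_eq_single i]
        · simp
        · intro b _ hb
          simp [Matrix.diagonal_apply_ne _ hb.symm]
        · simp
      rw [this, mul_pow, map_pow]
    simp only [this]
    rw [Finset.prod_mul_distrib, MvPolynomial.monomial_eq, Finsupp.prod_fintype _ _ (by simp),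
      map_prod, map_one, one_mul]
  rw [h]
  simp

end subst

section field

variable {K : Type*} [Field K]

/-- Index type of the monomials of degree `m`. -/
abbrev Ix (r m : ℕ) := {a // a ∈ finsuppAntidiag (univ : Finset (Fin r)) m}

lemma degree_eq_of_mem {m : ℕ} {a : Fin r →₀ ℕ}
    (ha : a ∈ finsuppAntidiag (univ : Finset (Fin r)) m) : a.degree = m := by
  rw [mem_finsuppAntidiag] at ha
  rw [Finsupp.degree_eq_sum]
  exact ha.1

lemma mem_of_degree_eq {m : ℕ} {a : Fin r →₀ ℕ} (ha : a.degree = m) :
    a ∈ finsuppAntidiag (univ : Finset (Fin r)) m := by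
  rw [mem_finsuppAntidiag]
  rw [Finsupp.degree_eq_sum] at ha
  exact ⟨ha, Finset.subset_univ _⟩

/-- Coordinates on the homogeneous polynomials. -/
noncomputable def coordEquiv (r m : ℕ) (K : Type*) [Field K] :
    MvPolynomial.homogeneousSubmodule (Fin r) K m ≃ₗ[K] (Ix r m → K) where
  toFun f := fun a => MvPolynomial.coeff a.1 f.1
  map_add' f g := by ext a; simp
  map_smul' c f := by ext a; simp
  invFun c := ⟨∑ a : Ix r m, MvPolynomial.monomial a.1 (c a), by
    apply Submodule.sum_mem
    intro a _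
    exact MvPolynomial.isHomogeneous_monomial _ (degree_eq_of_mem a.2)⟩
  left_inv f := by
    apply Subtype.ext
    apply MvPolynomial.ext
    intro b
    simp only [MvPolynomial.coeff_sum, MvPolynomial.coeff_monomial]
    by_cases hb : b.degree = m
    · rw [Finset.sum_eq_single ⟨b, mem_of_degree_eq hb⟩]
      · simp
      · intro c _ hc
        rw [if_neg]
        intro h
        exact hc (Subtype.ext h)
      · simp
    · rw [Finset.sum_eq_zero]
      · symm
        by_contra hne
        exact hb (by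
          have := f.2
          rw [MvPolynomial.mem_homogeneousSubmodule] at this
          have h2 := this hne
          rwa [Finsupp.degree_eq_weight_one])
      · intro c _
        rw [if_neg]
        rintro rfl
        exact hb (degree_eq_of_mem c.2)
  right_inv c := by
    ext b
    simp only [MvPolynomial.coeff_sum, MvPolynomial.coeff_monomial]
    rw [Finset.sum_eq_single b]
    · simp
    · intro c _ hc
      rw [if_neg]
      intro h
      exact hc (Subtype.ext h)
    · simp

noncomputable def monoBasis (r m : ℕ) (K : Type*) [Field K] :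
    Module.Basis (Ix r m) K (MvPolynomial.homogeneousSubmodule (Fin r) K m) :=
  Module.Basis.ofEquivFun (coordEquiv r m K)

instance (r m : ℕ) (K : Type*) [Field K] :
    FiniteDimensional K (MvPolynomial.homogeneousSubmodule (Fin r) K m) :=
  Module.Finite.of_basis (monoBasis r m K)

lemma monoBasis_apply (r m : ℕ) (a : Ix r m) :
    (monoBasis r m K a).1 = MvPolynomial.monomial a.1 1 := by
  classical
  simp only [monoBasis, Module.Basis.coe_ofEquivFun]
  change ∑ b : Ix r m, MvPolynomial.monomial b.1 ((Pi.single a (1 : K) : Ix r m → K) b) = _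
  rw [Finset.sum_eq_single a]
  · simp
  · intro b _ hb
    simp [Pi.single_eq_of_ne hb]
  · simp

/-- The substitution on homogeneous polynomials of degree `m`. -/
noncomputable def act (A : Matrix (Fin r) (Fin r) K) (m : ℕ) :
    MvPolynomial.homogeneousSubmodule (Fin r) K m →ₗ[K]
      MvPolynomial.homogeneousSubmodule (Fin r) K m :=
  (subst A).toLinearMap.restrict (fun _ hf => subst_isHomogeneous A hf)

lemma act_val (A : Matrix (Fin r) (Fin r) K) (m : ℕ)
    (f : MvPolynomial.homogeneousSubmodule (Fin r) K m) :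
    (act A m f).1 = subst A f.1 := rfl

lemma monoBasis_repr (r m : ℕ) (f : MvPolynomial.homogeneousSubmodule (Fin r) K m) (a : Ix r m) :
    (monoBasis r m K).repr f a = MvPolynomial.coeff a.1 f.1 := by
  simp only [monoBasis, Module.Basis.ofEquivFun_repr_apply]
  rfl

lemma trace_act (A : Matrix (Fin r) (Fin r) K) (m : ℕ) :
    LinearMap.trace K (MvPolynomial.homogeneousSubmodule (Fin r) K m) (act A m) = T A m := by
  classical
  rw [LinearMap.trace_eq_matrix_trace K (monoBasis r m K), Matrix.trace]
  have h : ∀ a : Ix r m, Matrix.diag (LinearMap.toMatrix (monoBasis r m K) (monoBasis r m K)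
      (act A m)) a = MvPolynomial.coeff a.1 (subst A (MvPolynomial.monomial a.1 1)) := by
    intro a
    rw [Matrix.diag_apply, LinearMap.toMatrix_apply, monoBasis_repr, act_val, monoBasis_apply]
  rw [Finset.sum_congr rfl fun a _ => h a]
  exact Finset.sum_coe_sort (finsuppAntidiag (univ : Finset (Fin r)) m)
    (fun a => MvPolynomial.coeff a (subst A (MvPolynomial.monomial a (1 : K))))

lemma act_comp (A B : Matrix (Fin r) (Fin r) K) (m : ℕ) :
    (act B m) ∘ₗ (act A m) = act (A * B) m := by
  ext f : 2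
  simp [act_val, subst_subst]

lemma T_conj (P Q A : Matrix (Fin r) (Fin r) K) (h : Q * P = 1) (m : ℕ) :
    T (P * A * Q) m = T A m := by
  rw [← trace_act, ← trace_act, mul_assoc, ← act_comp, LinearMap.trace_comp_comm', act_comp,
    mul_assoc, h, mul_one]

/-- generating function for diagonal matrices. -/
lemma gen_diagonal {R : Type*} [CommRing R] (d : Fin r → R) :
    (PowerSeries.mk fun m => T (Matrix.diagonal d) m) *
      ((Matrix.diagonal d).charpolyRev : PowerSeries R) = 1 := by
  have h1 : ((Matrix.diagonal d).charpolyRev : R[X]) = ∏ i, (1 - X * C (d i)) := by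
    rw [Matrix.charpolyRev]
    have : (1 - (X : R[X]) • (Matrix.diagonal d).map C) =
        Matrix.diagonal (fun i => 1 - X * C (d i)) := by
      ext i j : 1
      by_cases hij : i = j
      · subst hij
        simp
      · simp [hij]
    rw [this, Matrix.det_diagonal]
  have h2 : (PowerSeries.mk fun m => T (Matrix.diagonal d) m) =
      ∏ i, PowerSeries.mk (fun k => d i ^ k) := by
    ext m
    rw [PowerSeries.coeff_mk, PowerSeries.coeff_prod, T_diagonal]
    simp
  have h3 : ∀ i, (PowerSeries.mk (fun k => d i ^ k)) *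
      ((1 - X * C (d i) : R[X]) : PowerSeries R) = 1 := by
    intro i
    have : ((1 - X * C (d i) : R[X]) : PowerSeries R) =
        1 - PowerSeries.X * PowerSeries.C (d i) := by
      rw [Polynomial.coe_sub, Polynomial.coe_one, Polynomial.coe_mul, Polynomial.coe_X,
        Polynomial.coe_C]
    rw [this]
    ext k
    rw [mul_sub, mul_one, ← mul_assoc, map_sub, PowerSeries.coeff_mul_C]
    cases k with
    | zero => simp
    | succ k => simp [PowerSeries.coeff_succ_mul_X, pow_succ]
  have h4 : ((∏ i, (1 - X * C (d i)) : R[X]) : PowerSeries R) =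
      ∏ i, ((1 - X * C (d i) : R[X]) : PowerSeries R) :=
    map_prod (Polynomial.coeToPowerSeries.ringHom (R := R))
      (fun i => (1 - X * C (d i) : R[X])) Finset.univ
  rw [h1, h2, h4, ← Finset.prod_mul_distrib]
  exact Finset.prod_eq_one fun i _ => h3 i

/-- A matrix of finite order over an algebraically closed field of char. zero is diagonalisable. -/
lemma exists_diag [IsAlgClosed K] [CharZero K] (A : Matrix (Fin r) (Fin r) K) (n : ℕ) (hn : 0 < n)
    (hA : A ^ n = 1) :
    ∃ (P Q : Matrix (Fin r) (Fin r) K) (d : Fin r → K), Q * P = 1 ∧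
      A = P * Matrix.diagonal d * Q := by
  classical
  set f : Module.End K (Fin r → K) := Matrix.toLin' A with hf
  have hfn : f ^ n = 1 := by
    rw [hf, ← Matrix.toLin'_pow, hA, Matrix.toLin'_one]; rfl
  have hss : f.IsSemisimple := by
    have hsq : Squarefree (X ^ n - 1 : K[X]) := by
      apply Polynomial.Separable.squarefree
      have := Polynomial.separable_X_pow_sub_C (F := K) (n := n) (1 : K)
        (by exact_mod_cast hn.ne') one_ne_zero
      simpa using this
    apply Module.End.isSemisimple_of_squarefree_aeval_eq_zero hsq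
    simp [hfn]
  have htop := hss.iSup_eigenspace_eq_top
  set S : Set (Fin r → K) := {v | ∃ μ : K, f v = μ • v} with hS
  have hspan : Submodule.span K S = ⊤ := by
    rw [eq_top_iff, ← htop]
    apply iSup_le
    intro μ v hv
    apply Submodule.subset_span
    exact ⟨μ, by simpa using hv⟩
  obtain ⟨b, hbS, hbspan, hbli⟩ := exists_linearIndependent K S
  rw [hspan] at hbspan
  let B0 : Module.Basis b K (Fin r → K) := Module.Basis.mk hbli (by simp [hbspan])
  have : Fintype b := Module.Basis.fintypeIndexOfRankLtAleph0 B0 (by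
    rw [rank_fin_fun]; exact Cardinal.natCast_lt_aleph0)
  have hcard : Fintype.card b = Fintype.card (Fin r) := by
    have := Module.finrank_eq_card_basis B0
    rw [Module.finrank_fin_fun] at this
    simpa using this.symm
  let e : b ≃ Fin r := Fintype.equivOfCardEq hcard
  let B : Module.Basis (Fin r) K (Fin r → K) := B0.reindex e
  have hB : ∀ i, ∃ μ : K, f (B i) = μ • B i := by
    intro i
    have : B i = (e.symm i : Fin r → K) := by simp [B, B0]
    rw [this]
    exact hbS (e.symm i).2
  choose d hd using hB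
  refine ⟨LinearMap.toMatrix B (Pi.basisFun K (Fin r)) LinearMap.id,
    LinearMap.toMatrix (Pi.basisFun K (Fin r)) B LinearMap.id, d, ?_, ?_⟩
  · rw [← LinearMap.toMatrix_comp]
    simp
  · have hD : Matrix.diagonal d = LinearMap.toMatrix B B f := by
      ext i j
      rw [LinearMap.toMatrix_apply, hd]
      by_cases hij : i = j
      · subst hij
        simp
      · simp [Matrix.diagonal_apply_ne _ hij, Ne.symm hij]
    rw [hD, ← LinearMap.toMatrix_comp, ← LinearMap.toMatrix_comp]
    simp [hf, LinearMap.toMatrix_eq_toMatrix']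

lemma charpolyRev_conj (P Q A : Matrix (Fin r) (Fin r) K) (h : Q * P = 1) :
    (P * A * Q).charpolyRev = A.charpolyRev := by
  have hPQ : P * Q = 1 := mul_eq_one_comm.mp h
  have h1 : (P.map C) * (Q.map C) = (1 : Matrix (Fin r) (Fin r) K[X]) := by
    rw [← Matrix.map_mul, hPQ]; simp
  have h2 : (Q.map C) * (P.map C) = (1 : Matrix (Fin r) (Fin r) K[X]) := by
    rw [← Matrix.map_mul, h]; simp
  rw [Matrix.charpolyRev, Matrix.charpolyRev]
  have h3 : 1 - (X : K[X]) • (P * A * Q).map C =
      P.map C * (1 - (X : K[X]) • A.map C) * Q.map C := by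
    rw [Matrix.map_mul, Matrix.map_mul, mul_sub, sub_mul, mul_one, h1]
    simp
  rw [h3, Matrix.det_mul_right_comm, h1, one_mul]

lemma master_algClosed [IsAlgClosed K] [CharZero K] (A : Matrix (Fin r) (Fin r) K) (n : ℕ)
    (hn : 0 < n) (hA : A ^ n = 1) :
    (PowerSeries.mk fun m => T A m) * (A.charpolyRev : PowerSeries K) = 1 := by
  obtain ⟨P, Q, d, hQP, rfl⟩ := exists_diag A n hn hA
  rw [charpolyRev_conj _ _ _ hQP]
  have : (fun m => T (P * Matrix.diagonal d * Q) m) = fun m => T (Matrix.diagonal d) m := by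
    ext m
    exact T_conj P Q _ hQP m
  rw [this]
  exact gen_diagonal d

end field

lemma master (A : Matrix (Fin r) (Fin r) ℚ) (n : ℕ) (hn : 0 < n) (hA : A ^ n = 1) :
    (PowerSeries.mk fun m => T A m) * (A.charpolyRev : PowerSeries ℚ) = 1 := by
  let φ : ℚ →+* ℂ := algebraMap ℚ ℂ
  have hφ : Function.Injective φ := φ.injective
  apply PowerSeries.map_injective φ hφ
  rw [map_mul, map_one]
  have hA' : (A.map φ) ^ n = 1 := by
    have : (A.map φ) ^ n = (A ^ n).map φ := (map_pow φ.mapMatrix A n).symm
    rw [this, hA]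
    simp
  have h := master_algClosed (A.map φ) n hn hA'
  have h1 : PowerSeries.map φ (PowerSeries.mk fun m => T A m) =
      PowerSeries.mk fun m => T (A.map φ) m := by
    ext m
    simp [T_map]
  have h2 : PowerSeries.map φ (A.charpolyRev : PowerSeries ℚ) =
      ((A.map φ).charpolyRev : PowerSeries ℂ) := by
    have h3 : (A.map φ).charpolyRev = A.charpolyRev.map φ := by
      rw [Matrix.charpolyRev, Matrix.charpolyRev, ← Polynomial.coe_mapRingHom, RingHom.map_det]
      congr 1
      ext i j : 1
      by_cases hij : i = j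
      · subst hij; simp
      · simp [hij]
    rw [h3]
    ext m
    simp
  rw [h1, h2, h]

lemma coeff_zero_charpolyRev (A : Matrix (Fin r) (Fin r) ℚ) : A.charpolyRev.coeff 0 = 1 := by
  rw [Polynomial.coeff_zero_eq_eval_zero, Matrix.eval_charpolyRev]

lemma natDegree_charpolyRev (A : Matrix (Fin r) (Fin r) ℚ) (hA : A.det ≠ 0) :
    A.charpolyRev.natDegree = r := by
  rw [← Matrix.reverse_charpoly, Polynomial.reverse_natDegree, Matrix.charpoly_natDegree_eq_dim,
    Fintype.card_fin]
  have : A.charpoly.natTrailingDegree = 0 := by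
    rw [Polynomial.natTrailingDegree_eq_zero]
    right
    intro h
    apply hA
    rw [Matrix.det_eq_sign_charpoly_coeff, h, mul_zero]
  rw [this, Nat.sub_zero]

section group

variable (G : Subgroup ((Fin r → ℚ) ≃ₗ[ℚ] (Fin r → ℚ)))

/-- the matrix of an element. -/
noncomputable def mat (g : (Fin r → ℚ) ≃ₗ[ℚ] (Fin r → ℚ)) : Matrix (Fin r) (Fin r) ℚ :=
  LinearMap.toMatrix' (g : (Fin r → ℚ) →ₗ[ℚ] (Fin r → ℚ))

lemma mat_mul (g h : (Fin r → ℚ) ≃ₗ[ℚ] (Fin r → ℚ)) : mat (g * h) = mat g * mat h := by
  rw [mat, mat, mat, ← LinearMap.toMatrix'_mul]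
  rfl

lemma mat_one : mat (1 : (Fin r → ℚ) ≃ₗ[ℚ] (Fin r → ℚ)) = 1 := by
  rw [mat, ← LinearMap.toMatrix'_one]
  rfl

lemma mat_pow (g : (Fin r → ℚ) ≃ₗ[ℚ] (Fin r → ℚ)) (n : ℕ) : mat (g ^ n) = mat g ^ n := by
  induction n with
  | zero => simp [mat_one]
  | succ n ih => rw [pow_succ, pow_succ, mat_mul, ih]

lemma mat_mulVec (g : (Fin r → ℚ) ≃ₗ[ℚ] (Fin r → ℚ)) (v : Fin r → ℚ) :
    (mat g).mulVec v = g v := by
  rw [mat, LinearMap.toMatrix'_mulVec]
  rfl

lemma det_mat_ne (g : (Fin r → ℚ) ≃ₗ[ℚ] (Fin r → ℚ)) : (mat g).det ≠ 0 := by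
  have h : mat g * mat g⁻¹ = 1 := by rw [← mat_mul, mul_inv_cancel, mat_one]
  have h2 := congrArg Matrix.det h
  rw [Matrix.det_mul, Matrix.det_one] at h2
  exact left_ne_zero_of_mul_eq_one h2

lemma mem_inv_iff {m : ℕ} {f : MvPolynomial (Fin r) ℚ} :
    f ∈ inv G m ↔ f ∈ MvPolynomial.homogeneousSubmodule (Fin r) ℚ m ∧
      ∀ g ∈ G, subst (mat g) f = f := by
  change (f ∈ MvPolynomial.homogeneousSubmodule (Fin r) ℚ m ∧
    ∀ g ∈ G, ∀ v, MvPolynomial.eval (g v) f = MvPolynomial.eval v f) ↔ _
  refine and_congr_right fun _ => forall₂_congr fun g hg => ?_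
  constructor
  · intro h
    apply MvPolynomial.funext
    intro v
    rw [eval_subst, mat_mulVec, h]
  · intro h v
    rw [← mat_mulVec, ← eval_subst, h]

/-- averaging operator. -/
noncomputable def avg [Fintype G] (m : ℕ) :
    MvPolynomial.homogeneousSubmodule (Fin r) ℚ m →ₗ[ℚ]
      MvPolynomial.homogeneousSubmodule (Fin r) ℚ m :=
  ((Fintype.card G : ℚ)⁻¹) • ∑ g : G, act (mat g.1) m

lemma act_comp_avg [Fintype G] (m : ℕ) (h : (Fin r → ℚ) ≃ₗ[ℚ] (Fin r → ℚ)) (hh : h ∈ G) :
    (act (mat h) m) ∘ₗ (avg G m) = avg G m := by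
  rw [avg, LinearMap.comp_smul]
  congr 1
  have h1 : (act (mat h) m) ∘ₗ (∑ g : G, act (mat g.1) m) =
      ∑ g : G, (act (mat h) m) ∘ₗ (act (mat g.1) m) := by
    apply LinearMap.ext
    intro f
    rw [LinearMap.comp_apply, LinearMap.sum_apply, map_sum, LinearMap.sum_apply]
    rfl
  rw [h1]
  refine Fintype.sum_equiv (Equiv.mulRight (⟨h, hh⟩ : G)) _ _ (fun g => ?_)
  rw [act_comp, ← mat_mul]
  rfl

lemma avg_of_fixed [Fintype G] (m : ℕ) (f : MvPolynomial.homogeneousSubmodule (Fin r) ℚ m)
    (hf : ∀ g ∈ G, act (mat g) m f = f) : avg G m f = f := by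
  have hc : (Fintype.card G : ℚ) ≠ 0 := by
    exact_mod_cast Fintype.card_ne_zero
  rw [avg, LinearMap.smul_apply, LinearMap.sum_apply,
    Finset.sum_congr rfl (fun (g : G) _ => hf g.1 g.2), Finset.sum_const, Finset.card_univ,
    ← Nat.cast_smul_eq_nsmul ℚ, smul_smul, inv_mul_cancel₀ hc, one_smul]

lemma avg_isProj [Fintype G] (m : ℕ) :
    LinearMap.IsProj ((inv G m).comap
      (MvPolynomial.homogeneousSubmodule (Fin r) ℚ m).subtype) (avg G m) := by
  constructor
  · intro f
    rw [Submodule.mem_comap, mem_inv_iff]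
    refine ⟨(avg G m f).2, fun h hh => ?_⟩
    have h1 : act (mat h) m (avg G m f) = avg G m f := by
      rw [← LinearMap.comp_apply, act_comp_avg G m h hh]
    exact congrArg Subtype.val h1
  · intro f hf
    rw [Submodule.mem_comap, mem_inv_iff] at hf
    exact avg_of_fixed G m f (fun g hg => Subtype.ext (hf.2 g hg))

lemma free_sub {K V : Type*} [Field K] [AddCommGroup V] [Module K V] (p : Submodule K V) :
    Module.Free K p := inferInstance

lemma fin_sub {K V : Type*} [Field K] [AddCommGroup V] [Module K V] [FiniteDimensional K V]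
    (p : Submodule K V) : Module.Finite K p := inferInstance

lemma proj_trace {K V : Type*} [Field K] [AddCommGroup V] [Module K V] [FiniteDimensional K V]
    (p : Submodule K V) (f : V →ₗ[K] V) (h : LinearMap.IsProj p f) :
    LinearMap.trace K V f = (Module.finrank K p : K) := h.trace

lemma finrank_inv [Fintype G] (m : ℕ) :
    (Module.finrank ℚ (inv G m) : ℚ) = (Fintype.card G : ℚ)⁻¹ * ∑ g : G, T (mat g.1) m := by
  have hle : inv G m ≤ MvPolynomial.homogeneousSubmodule (Fin r) ℚ m := fun f hf => hf.1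
  rw [← (Submodule.comapSubtypeEquivOfLe hle).finrank_eq, ← proj_trace _ _ (avg_isProj G m), avg,
    map_smul, map_sum, smul_eq_mul]
  simp only [trace_act]

/-- (B) Molien: the Hilbert series of the invariants of a finite group is a rational function
`u / v` with `deg u + r ≤ deg v` and `v(0) ≠ 0`. -/
theorem molien {r : ℕ} (G : Subgroup ((Fin r → ℚ) ≃ₗ[ℚ] (Fin r → ℚ))) [Finite G] :
    ∃ u v : ℚ[X], v.coeff 0 ≠ 0 ∧ (u = 0 ∨ u.natDegree + r ≤ v.natDegree) ∧
      (PowerSeries.mk fun m => (Module.finrank ℚ (inv G m) : ℚ)) * (v : PowerSeries ℚ) =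
        (u : PowerSeries ℚ) := by
  classical
  have := Fintype.ofFinite G
  have hc : (Fintype.card G : ℚ) ≠ 0 := by
    exact_mod_cast Fintype.card_ne_zero
  set D : G → ℚ[X] := fun g => (mat g.1).charpolyRev with hD
  have hD0 : ∀ g, (D g).coeff 0 = 1 := fun g => coeff_zero_charpolyRev _
  have hDne : ∀ g, D g ≠ 0 := by
    intro g h
    have := hD0 g
    rw [h] at this
    simp at this
  have hDdeg : ∀ g, (D g).natDegree = r := fun g => natDegree_charpolyRev _ (det_mat_ne _)
  have hDm : ∀ g : G, (PowerSeries.mk fun m => T (mat g.1) m) * (D g : PowerSeries ℚ) = 1 := by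
    intro g
    apply master _ (Fintype.card G) Fintype.card_pos
    rw [← mat_pow]
    have : (g.1) ^ (Fintype.card G) = 1 := by
      rw [← Subgroup.coe_pow, pow_card_eq_one, Subgroup.coe_one]
    rw [this, mat_one]
  refine ⟨C ((Fintype.card G : ℚ)⁻¹) * ∑ g : G, ∏ h ∈ univ.erase g, D h, ∏ g : G, D g, ?_, ?_, ?_⟩
  · rw [Polynomial.coeff_zero_prod]
    simp [hD0]
  · right
    have h1 : (∏ g : G, D g).natDegree = Fintype.card G * r := by
      rw [Polynomial.natDegree_prod _ _ (fun g _ => hDne g)]
      simp [hDdeg]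
    have h2 : (C ((Fintype.card G : ℚ)⁻¹) * ∑ g : G, ∏ h ∈ univ.erase g, D h).natDegree ≤
        (Fintype.card G - 1) * r := by
      refine (Polynomial.natDegree_C_mul_le _ _).trans ?_
      refine Polynomial.natDegree_sum_le_of_forall_le _ _ fun g _ => ?_
      rw [Polynomial.natDegree_prod _ _ (fun g _ => hDne g)]
      simp [hDdeg, Finset.card_erase_of_mem]
    rw [h1]
    have h3 : Fintype.card G * r = (Fintype.card G - 1) * r + r := by
      have : 0 < Fintype.card G := Fintype.card_pos
      obtain ⟨k, hk⟩ := Nat.exists_eq_succ_of_ne_zero this.ne'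
      rw [hk]
      simp [Nat.succ_mul]
    omega
  · have h1 : (PowerSeries.mk fun m => (Module.finrank ℚ (inv G m) : ℚ)) =
        PowerSeries.C ((Fintype.card G : ℚ)⁻¹) *
          ∑ g : G, PowerSeries.mk fun m => T (mat g.1) m := by
      ext m
      rw [PowerSeries.coeff_mk, finrank_inv, PowerSeries.coeff_C_mul, map_sum]
      simp
    have h2 : ∀ s : Finset G, ((∏ g ∈ s, D g : ℚ[X]) : PowerSeries ℚ) =
        ∏ g ∈ s, (D g : PowerSeries ℚ) := fun s =>
      map_prod (Polynomial.coeToPowerSeries.ringHom (R := ℚ)) D s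
    have h3 : ((∑ g : G, ∏ h ∈ univ.erase g, D h : ℚ[X]) : PowerSeries ℚ) =
        ∑ g : G, ((∏ h ∈ univ.erase g, D h : ℚ[X]) : PowerSeries ℚ) :=
      map_sum (Polynomial.coeToPowerSeries.ringHom (R := ℚ)) _ _
    rw [h1, Polynomial.coe_mul, Polynomial.coe_C, h3, h2, mul_assoc, Finset.sum_mul]
    congr 1
    refine Finset.sum_congr rfl fun g _ => ?_
    rw [h2, ← Finset.mul_prod_erase univ (fun g => (D g : PowerSeries ℚ)) (Finset.mem_univ g),
      ← mul_assoc, hDm, one_mul]

end group

end KMWanted
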