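import Pool.Agent.Lib_helper45.KM.Act
import Pool.Agent.Lib_helper45.KM.MVDefs
import Pool.Agent.Lib_helper45.KM.Cox
import Pool.Agent.Lib_helper45.KM.Molien

/-! The complexes of `W_I`-equivariant cochains. -/

open MvPolynomial KMWanted2

namespace KM

instance {X P R : Type*} [CommRing P] [CommSemiring R] [Algebra R P] :
    IsScalarTower R P (Full X P) :=
  ⟨fun c p f => by ext l; simp⟩

/-- The differential as a rational linear map. -/
noncomputable def dq (X P : Type*) [CommRing P] [Algebra ℚ P] : Full X P →ₗ[ℚ] Full X P :=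
  (Full.d (X := X) (P := P)).restrictScalars ℚ

lemma dq_apply {X P : Type*} [CommRing P] [Algebra ℚ P] (f : Full X P) : dq X P f = Full.d f := rfl

lemma dq_dq {X P : Type*} [CommRing P] [Algebra ℚ P] (f : Full X P) : dq X P (dq X P f) = 0 :=
  Full.d_d f

variable {n r : ℕ} {A : Matrix (Fin n) (Fin n) ℤ}

/-- The parabolic subgroups. -/
noncomputable def par (R : Realization A r) (hA : IsGCM A) (I : Set (Fin n)) :
    Subgroup ((Fin r → ℚ) ≃ₗ[ℚ] (Fin r → ℚ)) := WI (R.s hA) I

lemma par_le (R : Realization A r) (hA : IsGCM A) (I : Set (Fin n)) : par R hA I ≤ R.weyl := by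
  rw [par, WI, Subgroup.closure_le]
  rintro _ ⟨i, _, rfl⟩
  exact s_mem R hA i

/-- The `W_I`-equivariant cochains of degree `p` with values in the polynomials of degree `m`. -/
noncomputable def UU (R : Realization A r) (hA : IsGCM A) (I : Set (Fin n)) (m p : ℕ) :
    Submodule ℚ (Full R.weyl (MvPolynomial (Fin r) ℚ)) where
  carrier := {f | (∀ l, l.length ≠ p + 1 → f l = 0) ∧ (∀ l, (f l).IsHomogeneous m) ∧
    ∀ u : R.weyl, (u : (Fin r → ℚ) ≃ₗ[ℚ] (Fin r → ℚ)) ∈ par R hA I →
      ∀ l : List R.weyl, f (l.map (u * ·)) = act u (f l)}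
  add_mem' := by
    rintro f g ⟨hf1, hf2, hf3⟩ ⟨hg1, hg2, hg3⟩
    refine ⟨fun l hl => ?_, fun l => ?_, fun u hu l => ?_⟩
    · rw [Full.add_apply, hf1 l hl, hg1 l hl, add_zero]
    · rw [Full.add_apply]; exact (hf2 l).add (hg2 l)
    · rw [Full.add_apply, Full.add_apply, map_add, hf3 u hu, hg3 u hu]
  zero_mem' := ⟨fun l _ => rfl, fun l => isHomogeneous_zero _ _ _, fun u _ l => by simp⟩
  smul_mem' := by
    rintro c f ⟨hf1, hf2, hf3⟩
    refine ⟨fun l hl => ?_, fun l => ?_, fun u hu l => ?_⟩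
    · rw [Full.smul_apply, hf1 l hl, smul_zero]
    · rw [Full.smul_apply, smul_eq_C_mul]
      have := (isHomogeneous_C (Fin r) c).mul (hf2 l)
      simpa using this
    · rw [Full.smul_apply, Full.smul_apply, map_smul, hf3 u hu]

lemma mem_UU {R : Realization A r} {hA : IsGCM A} {I : Set (Fin n)} {m p : ℕ}
    {f : Full R.weyl (MvPolynomial (Fin r) ℚ)} :
    f ∈ UU R hA I m p ↔ (∀ l, l.length ≠ p + 1 → f l = 0) ∧ (∀ l, (f l).IsHomogeneous m) ∧
    ∀ u : R.weyl, (u : (Fin r → ℚ) ≃ₗ[ℚ] (Fin r → ℚ)) ∈ par R hA I →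
      ∀ l : List R.weyl, f (l.map (u * ·)) = act u (f l) := Iff.rfl

lemma dd_map {X P : Type*} [CommRing P] (f : List X → P) (φ : X → X) (l : List X) :
    dd f (l.map φ) = dd (fun l' => f (l'.map φ)) l := by
  unfold dd
  rw [List.length_map]
  apply Finset.sum_congr rfl
  intro j _
  rw [List.eraseIdx_map]

lemma UU_d (R : Realization A r) (hA : IsGCM A) (I : Set (Fin n)) (m p : ℕ) :
    (UU R hA I m p).map (dq _ _) ≤ UU R hA I m (p + 1) := by
  rintro _ ⟨f, ⟨hf1, hf2, hf3⟩, rfl⟩
  rw [dq_apply]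
  refine ⟨fun l hl => ?_, fun l => ?_, fun u hu l => ?_⟩
  · rw [Full.d_apply]
    unfold dd
    apply Finset.sum_eq_zero
    intro j hj
    rw [Finset.mem_range] at hj
    rw [hf1, mul_zero]
    rw [List.length_eraseIdx_of_lt hj]
    omega
  · rw [Full.d_apply]
    unfold dd
    apply IsHomogeneous.sum
    intro j _
    rcases neg_one_pow_eq_or (MvPolynomial (Fin r) ℚ) j with h | h
    · rw [h, one_mul]; exact hf2 _
    · rw [h, neg_one_mul]; exact (hf2 _).neg
  · rw [Full.d_apply, Full.d_apply, dd_map]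
    unfold dd
    rw [map_sum]
    apply Finset.sum_congr rfl
    intro j _
    rw [map_mul, map_pow, map_neg, map_one]
    simp only
    rw [hf3 u hu]

section spherical

variable (R : Realization A r) (hA : IsGCM A) (I : Set (Fin n)) [Finite (par R hA I)]

/-- Averaging contraction. -/
lemma sph_exact (m p : ℕ) :
    Zc (dq _ _) (UU R hA I m) (p + 1) ≤ Bc (dq _ _) (UU R hA I m) (p + 1) := by
  classical
  have := Fintype.ofFinite (par R hA I)
  rintro f ⟨⟨hf1, hf2, hf3⟩, hf4⟩
  have hd : ∀ l, dd f l = 0 := fun l => by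
    have := DFunLike.congr_fun (show Full.d f = 0 from hf4) l
    exact this
  set N : ℚ := ((Fintype.card (par R hA I) : ℕ) : ℚ) with hN
  have hN0 : N ≠ 0 := by
    rw [hN]; exact_mod_cast Fintype.card_ne_zero
  let inc : par R hA I → R.weyl := fun u => ⟨u, par_le R hA I u.2⟩
  have hk0 : (fun l : List R.weyl => N⁻¹ • ∑ u : par R hA I, f (inc u :: l)) [] = 0 := by
    have : ∀ u : par R hA I, f [inc u] = 0 := fun u => hf1 _ (by simp)
    simp [this]
  let k : Full R.weyl (MvPolynomial (Fin r) ℚ) :=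
    ⟨fun l => N⁻¹ • ∑ u : par R hA I, f (inc u :: l), hk0⟩
  have hk : ∀ l, k l = N⁻¹ • ∑ u : par R hA I, f (inc u :: l) := fun l => rfl
  refine ⟨k, ⟨fun l hl => ?_, fun l => ?_, fun v hv l => ?_⟩, ?_⟩
  · rw [hk]
    have : ∀ u : par R hA I, f (inc u :: l) = 0 := fun u => hf1 _ (by simp; omega)
    simp [this]
  · rw [hk, smul_eq_C_mul]
    have h1 : (∑ u : par R hA I, f (inc u :: l)).IsHomogeneous m :=
      IsHomogeneous.sum _ _ _ (fun u _ => hf2 _)
    have := (isHomogeneous_C (Fin r) N⁻¹).mul h1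
    simpa using this
  · rw [hk, hk, map_smul, map_sum]
    congr 1
    let v' : par R hA I := ⟨v, hv⟩
    rw [← Equiv.sum_comp (Equiv.mulLeft v')]
    apply Finset.sum_congr rfl
    intro u _
    rw [← hf3 v hv]
    congr 1
  · ext1 l
    rw [dq_apply, Full.d_apply]
    have h1 : ∀ u : par R hA I, dd (sh (inc u) f) l = f l := by
      intro u
      have := dd_cons f (inc u) l
      rw [hd] at this
      exact (sub_eq_zero.1 this.symm).symm
    have h2 : dd k l = N⁻¹ • ∑ u : par R hA I, dd (sh (inc u) f) l := by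
      unfold dd
      simp only [hk, sh]
      rw [Finset.sum_comm, Finset.smul_sum]
      apply Finset.sum_congr rfl
      intro j _
      rw [Algebra.mul_smul_comm, ← Finset.mul_sum]
    rw [h2]
    simp only [h1, Finset.sum_const, Finset.card_univ]
    rw [← Nat.cast_smul_eq_nsmul ℚ, smul_smul, ← hN, inv_mul_cancel₀ hN0, one_smul]

end spherical

end KM
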