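import Mathlib

/-! Cup product and differential on functions of lists. -/

set_option linter.unusedSectionVars false
set_option linter.unusedSimpArgs false

namespace KM

variable {X P : Type*} [CommRing P]

/-- The cup product `(f ∪ g)(x₀, …, x_n) = ∑_j f(x₀, …, x_j) g(x_j, …, x_n)`. -/
def cup (f g : List X → P) (l : List X) : P :=
  ∑ j ∈ Finset.range l.length, f (l.take (j + 1)) * g (l.drop j)

/-- The differential `(df)(x₀, …, x_n) = ∑_j (-1)^j f(x₀, …, x̂_j, …, x_n)`. -/
def dd (f : List X → P) (l : List X) : P :=
  ∑ j ∈ Finset.range l.length, (-1) ^ j * f (l.eraseIdx j)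

/-- The unit cochain. -/
def one (l : List X) : P := if l.length = 1 then 1 else 0

/-- The sign automorphism: `(-1)^p` on cochains of degree `p` (lists of length `p + 1`). -/
def eps (f : List X → P) (l : List X) : P := (-1) ^ (l.length + 1) * f l

/-- restriction to lists with first element `x` -/
def sh (x : X) (f : List X → P) (l : List X) : P := f (x :: l)

@[simp] lemma cup_nil (f g : List X → P) : cup f g [] = 0 := by simp [cup]

lemma cup_cons (f g : List X → P) (x : X) (l : List X) :
    cup f g (x :: l) = f [x] * g (x :: l) + cup (sh x f) g l := by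
  unfold cup
  rw [List.length_cons, Finset.sum_range_succ', add_comm]
  simp only [List.take_succ_cons, List.drop_succ_cons, sh, List.take_zero, List.drop_zero]

@[simp] lemma dd_nil (f : List X → P) : dd f [] = 0 := by simp [dd]

lemma dd_cons (f : List X → P) (x : X) (l : List X) :
    dd f (x :: l) = f l - dd (sh x f) l := by
  unfold dd
  rw [List.length_cons, Finset.sum_range_succ']
  simp only [List.eraseIdx_cons_succ, pow_succ, pow_zero, one_mul, List.eraseIdx_cons_zero, sh]
  rw [sub_eq_add_neg, add_comm, ← Finset.sum_neg_distrib]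
  congr 1
  apply Finset.sum_congr rfl; intro i _; ring

lemma dd_dd (f : List X → P) (l : List X) : dd (dd f) l = 0 := by
  induction l generalizing f with
  | nil => simp
  | cons x l ih =>
    rw [dd_cons]
    have : sh x (dd f) = fun l' => f l' - dd (sh x f) l' := by
      funext l'; exact dd_cons f x l'
    rw [this]
    have h2 : dd (fun l' => f l' - dd (sh x f) l') l = dd f l - dd (dd (sh x f)) l := by
      unfold dd; rw [← Finset.sum_sub_distrib]
      apply Finset.sum_congr rfl; intro i _; ring
    rw [h2, ih]; ring

lemma cup_add_left (f f' g : List X → P) (l : List X) :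
    cup (f + f') g l = cup f g l + cup f' g l := by
  simp [cup, add_mul, Finset.sum_add_distrib]

lemma cup_add_right (f g g' : List X → P) (l : List X) :
    cup f (g + g') l = cup f g l + cup f g' l := by
  simp [cup, mul_add, Finset.sum_add_distrib]

lemma cup_mul_left (c : P) (f g : List X → P) (l : List X) :
    cup (fun l' => c * f l') g l = c * cup f g l := by
  simp [cup, Finset.mul_sum, mul_assoc]

lemma cup_mul_right (c : P) (f g : List X → P) (l : List X) :
    cup f (fun l' => c * g l') l = c * cup f g l := by
  simp only [cup, Finset.mul_sum]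
  apply Finset.sum_congr rfl; intro i _; ring

lemma cup_neg_left (f g : List X → P) (l : List X) :
    cup (-f) g l = - cup f g l := by
  simp [cup]

lemma dd_add (f g : List X → P) (l : List X) : dd (f + g) l = dd f l + dd g l := by
  simp [dd, mul_add, Finset.sum_add_distrib]

lemma dd_mul (c : P) (f : List X → P) (l : List X) : dd (fun l' => c * f l') l = c * dd f l := by
  simp only [dd, Finset.mul_sum]
  apply Finset.sum_congr rfl; intro i _; ring

lemma cup_assoc (f g h : List X → P) (l : List X) :
    cup (cup f g) h l = cup f (cup g h) l := by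
  induction l generalizing f with
  | nil => simp
  | cons x l ih =>
    rw [cup_cons, cup_cons, cup_cons, cup_cons]
    have : sh x (cup f g) = (fun l' => f [x] * (sh x g) l') + cup (sh x f) g := by
      funext l'; rw [sh, cup_cons]; rfl
    rw [this, cup_add_left, cup_mul_left, ih, cup_nil]
    ring

/-- Leibniz rule. -/
lemma dd_cup (f g : List X → P) (hg : g [] = 0) (l : List X) :
    dd (cup f g) l = cup (dd f) g l + cup (eps f) (dd g) l - f [] * g l := by
  induction l generalizing f with
  | nil => simp [hg]
  | cons x l ih =>
    have e1 : sh x (cup f g) = (fun l' => f [x] * (sh x g) l') + cup (sh x f) g := by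
      funext l'; rw [sh, cup_cons]; rfl
    have e2 : sh x (dd f) = f + -(dd (sh x f)) := by
      funext l'; rw [sh, dd_cons]; simp [sub_eq_add_neg]
    have e3 : sh x (eps f) = -(eps (sh x f)) := by
      funext l'; simp [sh, eps]; ring
    rw [dd_cons, e1, dd_add, dd_mul, ih, cup_cons, cup_cons, e2, e3, cup_add_left, cup_neg_left,
      cup_neg_left, dd_cons, dd_cons]
    simp only [eps, sh, dd_nil, List.length_singleton]
    ring

lemma cup_zero_of (f g : List X → P) (hf : ∀ x l, f (x :: l) = 0) (l : List X) :
    cup f g l = 0 := by
  induction l generalizing f with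
  | nil => simp
  | cons x l ih =>
    rw [cup_cons, hf, ih (sh x f) (fun y l' => hf _ _)]; ring

lemma one_cup (f : List X → P) (hf : f [] = 0) (l : List X) : cup one f l = f l := by
  cases l with
  | nil => simp [hf]
  | cons x l =>
    rw [cup_cons, cup_zero_of]
    · simp [one]
    · intro y l'; simp [sh, one]

lemma cup_one (f : List X → P) (hf : f [] = 0) (l : List X) : cup f one l = f l := by
  have key : ∀ (l : List X) (f : List X → P), l ≠ [] → cup f one l = f l := by
    intro l
    induction l with
    | nil => intro f h; exact absurd rfl h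
    | cons x l ih =>
      intro f _
      rw [cup_cons]
      cases l with
      | nil => simp [one]
      | cons y l => rw [ih _ (by simp)]; simp [one, sh]
  cases l with
  | nil => simp [hf]
  | cons x l => exact key _ _ (by simp)

/-- Cochains on the full simplex with vertex set `X`. -/
structure Full (X P : Type*) [CommRing P] where
  /-- the underlying function -/
  toFun : List X → P
  nil' : toFun [] = 0

namespace Full

theorem toFun_injective : Function.Injective (toFun : Full X P → List X → P) := by
  rintro ⟨f, _⟩ ⟨g, _⟩ h; simp at h; simp [h]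

instance : FunLike (Full X P) (List X) P where
  coe := toFun
  coe_injective := toFun_injective

@[ext] lemma ext {f g : Full X P} (h : ∀ l, f l = g l) : f = g := DFunLike.ext _ _ h

@[simp] lemma nil (f : Full X P) : f [] = 0 := f.nil'

@[simp] lemma mk_apply (f : List X → P) (h : f [] = 0) (l : List X) : (mk f h : Full X P) l = f l := rfl

instance : Zero (Full X P) := ⟨⟨0, rfl⟩⟩

theorem add_nil (f g : Full X P) : (⇑f + ⇑g) [] = 0 := by simp

theorem neg_nil (f : Full X P) : (-⇑f) [] = 0 := by simp

theorem sub_nil (f g : Full X P) : (⇑f - ⇑g) [] = 0 := by simp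

theorem one_nil : (one ([] : List X) : P) = 0 := by simp [one]

theorem smul_nil {R : Type*} [CommSemiring R] [Algebra R P] (c : R) (f : Full X P) :
    (c • ⇑f) [] = 0 := by simp

instance : Add (Full X P) := ⟨fun f g => ⟨f + g, add_nil f g⟩⟩
instance : Neg (Full X P) := ⟨fun f => ⟨-f, neg_nil f⟩⟩
instance : Sub (Full X P) := ⟨fun f g => ⟨f - g, sub_nil f g⟩⟩
instance : One (Full X P) := ⟨⟨one, one_nil⟩⟩
instance : Mul (Full X P) := ⟨fun f g => ⟨cup f g, cup_nil f g⟩⟩
instance {R : Type*} [CommSemiring R] [Algebra R P] : SMul R (Full X P) :=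
  ⟨fun c f => ⟨c • f, smul_nil c f⟩⟩

@[simp] lemma zero_apply (l : List X) : (0 : Full X P) l = 0 := rfl
@[simp] lemma add_apply (f g : Full X P) (l : List X) : (f + g) l = f l + g l := rfl
@[simp] lemma neg_apply (f : Full X P) (l : List X) : (-f) l = - f l := rfl
@[simp] lemma sub_apply (f g : Full X P) (l : List X) : (f - g) l = f l - g l := rfl
lemma one_apply (l : List X) : (1 : Full X P) l = if l.length = 1 then 1 else 0 := rfl
lemma mul_apply (f g : Full X P) (l : List X) : (f * g) l = cup f g l := rfl
@[simp] lemma smul_apply {R : Type*} [CommSemiring R] [Algebra R P] (c : R) (f : Full X P)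
    (l : List X) : (c • f) l = c • f l := rfl

theorem add_assoc' (f g h : Full X P) : f + g + h = f + (g + h) := by ext l; simp [add_assoc]
theorem zero_add' (f : Full X P) : 0 + f = f := by ext l; simp
theorem add_zero' (f : Full X P) : f + 0 = f := by ext l; simp
theorem neg_add_cancel' (f : Full X P) : -f + f = 0 := by ext l; simp
theorem add_comm' (f g : Full X P) : f + g = g + f := by ext l; simp [add_comm]
theorem sub_eq_add_neg' (f g : Full X P) : f - g = f + -g := by ext l; simp [sub_eq_add_neg]
theorem left_distrib' (f g h : Full X P) : f * (g + h) = f * g + f * h := by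
  ext l; exact cup_add_right f g h l
theorem right_distrib' (f g h : Full X P) : (f + g) * h = f * h + g * h := by
  ext l; exact cup_add_left f g h l
theorem zero_mul' (f : Full X P) : 0 * f = 0 := by
  ext l; change cup (0 : List X → P) f l = 0; simp [cup]
theorem mul_zero' (f : Full X P) : f * 0 = 0 := by
  ext l; change cup f (0 : List X → P) l = 0; simp [cup]
theorem mul_assoc' (f g h : Full X P) : f * g * h = f * (g * h) := by
  ext l; exact cup_assoc f g h l
theorem one_mul' (f : Full X P) : 1 * f = f := by ext l; exact one_cup f f.nil l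
theorem mul_one' (f : Full X P) : f * 1 = f := by ext l; exact cup_one f f.nil l

instance : Ring (Full X P) where
  add_assoc := add_assoc'
  zero_add := zero_add'
  add_zero := add_zero'
  neg_add_cancel := neg_add_cancel'
  add_comm := add_comm'
  sub_eq_add_neg := sub_eq_add_neg'
  left_distrib := left_distrib'
  right_distrib := right_distrib'
  zero_mul := zero_mul'
  mul_zero := mul_zero'
  mul_assoc := mul_assoc'
  one_mul := one_mul'
  mul_one := mul_one'
  nsmul := nsmulRec
  zsmul := zsmulRec

section module
variable {R : Type*} [CommSemiring R] [Algebra R P]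

theorem one_smul' (f : Full X P) : (1 : R) • f = f := by ext l; simp
theorem mul_smul' (a b : R) (f : Full X P) : (a * b) • f = a • b • f := by
  ext l; simp [mul_smul]
theorem smul_zero' (a : R) : a • (0 : Full X P) = 0 := by ext l; simp
theorem smul_add' (a : R) (f g : Full X P) : a • (f + g) = a • f + a • g := by ext l; simp
theorem add_smul' (a b : R) (f : Full X P) : (a + b) • f = a • f + b • f := by
  ext l; simp [add_smul]
theorem zero_smul' (f : Full X P) : (0 : R) • f = 0 := by ext l; simp

instance : Module R (Full X P) where
  one_smul := one_smul'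
  mul_smul := mul_smul'
  smul_zero := smul_zero'
  smul_add := smul_add'
  add_smul := add_smul'
  zero_smul := zero_smul'

lemma coe_smul (c : R) (f : Full X P) :
    (⇑(c • f) : List X → P) = fun l => algebraMap R P c * f l := by
  funext l; rw [smul_apply, Algebra.smul_def]

theorem smul_mul' (c : R) (f g : Full X P) : c • f * g = c • (f * g) := by
  ext l
  rw [mul_apply, smul_apply, coe_smul, cup_mul_left, mul_apply, Algebra.smul_def]

theorem mul_smul'' (c : R) (f g : Full X P) : f * c • g = c • (f * g) := by
  ext l
  rw [mul_apply, smul_apply, coe_smul, cup_mul_right, mul_apply, Algebra.smul_def]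

instance : Algebra R (Full X P) := Algebra.ofModule smul_mul' mul_smul''

lemma algebraMap_apply (c : R) (l : List X) :
    (algebraMap R (Full X P) c) l = if l.length = 1 then algebraMap R P c else 0 := by
  rw [Algebra.algebraMap_eq_smul_one, smul_apply, one_apply]
  split_ifs with h
  · rw [Algebra.algebraMap_eq_smul_one]
  · simp

end module

theorem d_map_add (f g : Full X P) :
    (⟨dd (⇑(f + g)), dd_nil _⟩ : Full X P) = ⟨dd f, dd_nil f⟩ + ⟨dd g, dd_nil g⟩ := by
  ext l; exact dd_add f g l

theorem d_map_smul (c : P) (f : Full X P) :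
    (⟨dd (⇑(c • f)), dd_nil _⟩ : Full X P) = c • ⟨dd f, dd_nil f⟩ := by
  ext l; exact dd_mul c f l

/-- The differential. -/
def d : Full X P →ₗ[P] Full X P where
  toFun f := ⟨dd f, dd_nil f⟩
  map_add' := d_map_add
  map_smul' := d_map_smul

lemma d_apply (f : Full X P) (l : List X) : d f l = dd f l := rfl

/-- The sign automorphism. -/
def sgn : Full X P →ₗ[P] Full X P where
  toFun f := ⟨eps f, by simp [eps]⟩
  map_add' f g := by ext l; simp [eps, mul_add]
  map_smul' c f := by ext l; simp [eps]; ring

lemma sgn_apply (f : Full X P) (l : List X) : sgn f l = (-1) ^ (l.length + 1) * f l := rfl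

lemma d_d (f : Full X P) : d (d f) = 0 := by
  ext l; exact dd_dd f l

lemma d_mul (f g : Full X P) : d (f * g) = d f * g + sgn f * d g := by
  ext l
  have := dd_cup (f : List X → P) g g.nil l
  rw [f.nil, zero_mul, sub_zero] at this
  exact this

lemma sgn_sgn (f : Full X P) : sgn (sgn f) = f := by
  ext l
  rw [sgn_apply, sgn_apply, ← mul_assoc, ← mul_pow]
  simp

lemma d_sgn (f : Full X P) : d (sgn f) = - sgn (d f) := by
  ext l
  rw [neg_apply, sgn_apply, d_apply, d_apply]
  simp only [dd, Finset.mul_sum]
  rw [← Finset.sum_neg_distrib]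
  apply Finset.sum_congr rfl
  intro j hj
  rw [Finset.mem_range] at hj
  rw [sgn_apply, List.length_eraseIdx_of_lt hj]
  obtain ⟨k, hk⟩ : ∃ k, l.length = k + 1 := ⟨l.length - 1, by omega⟩
  rw [hk, Nat.add_sub_cancel]
  ring

lemma d_one : d (1 : Full X P) = 0 := by
  ext l
  rw [d_apply, zero_apply]
  rcases l with _ | ⟨x, _ | ⟨y, l⟩⟩
  · simp
  · rw [dd_cons, dd_nil, nil]; simp
  · rw [dd_cons, dd_cons]
    rcases l with _ | ⟨z, l⟩
    · simp [sh, one_apply]
    · have h1 : (1 : Full X P) (y :: z :: l) = 0 := by rw [one_apply, if_neg (by simp)]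
      have h2 : sh x (⇑(1 : Full X P)) (z :: l) = 0 := by
        rw [sh, one_apply, if_neg (by simp)]
      have h3 : dd (sh y (sh x (⇑(1 : Full X P)))) (z :: l) = 0 := by
        unfold dd
        apply Finset.sum_eq_zero
        intro j _
        rw [sh, sh, one_apply, if_neg (by simp), mul_zero]
      rw [h1, h2, h3]; simp

lemma d_smul' {R : Type*} [CommSemiring R] [Algebra R P] (c : R) (f : Full X P) :
    d (c • f) = c • d f := by
  have : c • f = (algebraMap R P c) • f := by
    ext l; rw [smul_apply, smul_apply, Algebra.smul_def]; rfl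
  rw [this, map_smul]
  ext l; rw [smul_apply, smul_apply, Algebra.smul_def (A := P) c, smul_eq_mul]

lemma d_algebraMap {R : Type*} [CommSemiring R] [Algebra R P] (c : R) :
    d (algebraMap R (Full X P) c) = 0 := by
  rw [Algebra.algebraMap_eq_smul_one, d_smul', d_one, smul_zero]

end Full

end KM
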