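import Pool.Agent.Lib_helper45.KM.Cup

/-!
# The rational cohomology ring of the classifying space of a Kac–Moody group

For a generalized Cartan matrix `A` with a realization (`V = H₂(BT; ℚ)`, simple coroots in `V`,
simple roots in `V*`), Weyl group `W ⊆ GL(V)` and `P = H^*(BT; ℚ) = Sym V*` (polynomial functions on
`V`), the ring `H^*(BG(A); ℚ)` is the group cohomology ring `H^*(W; P)`.
Here this ring is defined by homogeneous group cochains with the cup product.
-/

open MvPolynomial

namespace KM

/-- Generalized Cartan matrices. -/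
structure IsGCM {n : ℕ} (A : Matrix (Fin n) (Fin n) ℤ) : Prop where
  diag : ∀ i, A i i = 2
  neg : ∀ i j, i ≠ j → A i j ≤ 0
  zero : ∀ i j, A i j = 0 → A j i = 0

/-- Indecomposable matrices. -/
def Indecomposable {n : ℕ} (A : Matrix (Fin n) (Fin n) ℤ) : Prop :=
  ∀ s : Finset (Fin n), s.Nonempty → sᶜ.Nonempty → ∃ i ∈ s, ∃ j ∈ sᶜ, A i j ≠ 0

/-- Indefinite type: `A u < 0` for some `u > 0`. -/
def IndefiniteType {n : ℕ} (A : Matrix (Fin n) (Fin n) ℤ) : Prop :=
  ∃ u : Fin n → ℝ, (∀ i, 0 < u i) ∧ ∀ i, ∑ j, (A i j : ℝ) * u j < 0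

/-- A realization of `A` of rank `r`: linearly independent coroots in `V = ℚ^r` and roots in the
dual space with `⟨α_j, α_i^∨⟩ = a_ij`. -/
structure Realization {n : ℕ} (A : Matrix (Fin n) (Fin n) ℤ) (r : ℕ) where
  /-- simple coroots -/
  coroot : Fin n → Fin r → ℚ
  /-- simple roots -/
  root : Fin n → Module.Dual ℚ (Fin r → ℚ)
  indep : LinearIndependent ℚ coroot
  pairing : ∀ i j, root j (coroot i) = A i j

variable {n r : ℕ} {A : Matrix (Fin n) (Fin n) ℤ}

/-- The group `GL_r(ℚ)` of linear automorphisms of `V = ℚ^r`. -/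
abbrev GLr (r : ℕ) : Type := (Fin r → ℚ) ≃ₗ[ℚ] (Fin r → ℚ)

/-- The Weyl group, generated by the simple reflections `v ↦ v - ⟨α_i, v⟩ α_i^∨`. -/
def Realization.weyl (R : Realization A r) : Subgroup (GLr r) :=
  Subgroup.closure {g | ∃ i, ∀ v, g v = v - R.root i v • R.coroot i}

/-- The Weyl group as a type. -/
abbrev Weyl (R : Realization A r) : Type := R.weyl

/-- Translation `(w₀, …, w_p) ↦ (g w₀, …, g w_p)` of lists of elements of `W`. -/
def translate {R : Realization A r} (g : Weyl R) (l : List (Weyl R)) : List (Weyl R) :=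
  l.map (g * ·)

/-- The action of `GL(V)` on polynomial functions on `V`: `(g • f)(v) = f(g⁻¹ v)`. -/
noncomputable def act (g : GLr r) :
    MvPolynomial (Fin r) ℚ →ₐ[ℚ] MvPolynomial (Fin r) ℚ :=
  aeval (fun k => ∑ j, C (g⁻¹ (Pi.single j 1) k) * X j)

/-- Functions on lists of elements of `W` with values in `P`, vanishing on the empty list. -/
abbrev Fun (R : Realization A r) : Type := Full (Weyl R) (MvPolynomial (Fin r) ℚ)

/-- The condition defining cochains of `W` with values in `P`: a function `f` of lists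
`(w₀, …, w_p)` of elements of `W`, with values in `P`, such that
`f(w w₀, …, w w_p) = w • f(w₀, …, w_p)`, vanishing on all long lists and of bounded degree in `P`. -/
def IsCoch (R : Realization A r) (f : Fun R) : Prop :=
  (∀ (g : Weyl R) (l : List (Weyl R)), f (translate g l) = act g.1 (f l)) ∧
    ∃ N, ∀ l, (N < l.length → f l = 0) ∧ (f l).totalDegree ≤ N

theorem IsCoch.mul {R : Realization A r} {f g : Fun R}
    (h : IsCoch R f) (h' : IsCoch R g) : IsCoch R (f * g) := by
  obtain ⟨hf, N, hN⟩ := h
  obtain ⟨hg, M, hM⟩ := h'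
  refine ⟨fun w l => ?_, N + M, fun l => ⟨fun hl => ?_, ?_⟩⟩
  · have hf' : ∀ l, f (List.map (fun x => w * x) l) = act w.1 (f l) := hf w
    have hg' : ∀ l, g (List.map (fun x => w * x) l) = act w.1 (g l) := hg w
    simp only [translate, Full.mul_apply, cup, List.length_map, map_sum, map_mul]
    apply Finset.sum_congr rfl
    intro j _
    rw [← List.map_take, ← List.map_drop, hf', hg']
  · simp only [Full.mul_apply, cup]
    apply Finset.sum_eq_zero
    intro j hj
    rw [Finset.mem_range] at hj
    by_cases h : N < (l.take (j + 1)).length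
    · rw [(hN _).1 h, zero_mul]
    · rw [(hM (l.drop j)).1, mul_zero]
      rw [List.length_take] at h
      rw [List.length_drop]
      omega
  · simp only [Full.mul_apply, cup]
    apply totalDegree_finsetSum_le
    intro j _
    exact (totalDegree_mul _ _).trans (add_le_add (hN _).2 (hM _).2)

theorem IsCoch.add {R : Realization A r} {f g : Fun R}
    (h : IsCoch R f) (h' : IsCoch R g) : IsCoch R (f + g) := by
  obtain ⟨hf, N, hN⟩ := h
  obtain ⟨hg, M, hM⟩ := h'
  refine ⟨fun w l => ?_, N + M, fun l => ⟨fun hl => ?_, ?_⟩⟩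
  · rw [Full.add_apply, Full.add_apply, map_add, hf, hg]
  · rw [Full.add_apply, (hN l).1 (by omega), (hM l).1 (by omega), add_zero]
  · rw [Full.add_apply]
    refine (totalDegree_add _ _).trans (max_le ?_ ?_)
    · exact (hN l).2.trans (Nat.le_add_right _ _)
    · exact (hM l).2.trans (Nat.le_add_left _ _)

theorem IsCoch.algebraMap (R : Realization A r) (c : ℚ) :
    IsCoch R (algebraMap ℚ (Fun R) c) := by
  refine ⟨fun w l => ?_, 1, fun l => ⟨fun hl => ?_, ?_⟩⟩
  · rw [Full.algebraMap_apply, Full.algebraMap_apply, translate, List.length_map]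
    split_ifs <;> simp
  · rw [Full.algebraMap_apply, if_neg (by omega)]
  · rw [Full.algebraMap_apply]
    split_ifs <;> simp

/-- The algebra of cochains of `W` with values in `P` (the direct sum over `p` and `m` of the
homogeneous group cochains of degree `p` with values in `P_m`).  The product, inherited from the
algebra `Full`, is the cup product `(f g)(w₀, …, w_n) = ∑_j f(w₀, …, w_j) g(w_j, …, w_n)`. -/
noncomputable def Coch (R : Realization A r) :
    Subalgebra ℚ (Fun R) where
  carrier := {f | IsCoch R f}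
  mul_mem' := IsCoch.mul
  add_mem' := IsCoch.add
  algebraMap_mem' := IsCoch.algebraMap R

lemma mem_Coch {R : Realization A r} {f : Fun R} :
    f ∈ Coch R ↔ (∀ (g : R.weyl) (l : List R.weyl), f (l.map (g * ·)) = act g (f l)) ∧
      ∃ N, ∀ l, (N < l.length → f l = 0) ∧ (f l).totalDegree ≤ N := Iff.rfl

/-- Cocycles: cochains with zero differential. -/
def IsCocycle (R : Realization A r) (f : Fun R) : Prop :=
  IsCoch R f ∧ Full.d f = 0

theorem IsCocycle.mul {R : Realization A r} {f g : Fun R}
    (h : IsCocycle R f) (h' : IsCocycle R g) : IsCocycle R (f * g) :=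
  ⟨h.1.mul h'.1, by rw [Full.d_mul, h.2, h'.2, zero_mul, mul_zero, add_zero]⟩

theorem IsCocycle.add {R : Realization A r} {f g : Fun R}
    (h : IsCocycle R f) (h' : IsCocycle R g) : IsCocycle R (f + g) :=
  ⟨h.1.add h'.1, by rw [map_add, h.2, h'.2, add_zero]⟩

theorem IsCocycle.algebraMap (R : Realization A r) (c : ℚ) :
    IsCocycle R (algebraMap ℚ (Fun R) c) :=
  ⟨IsCoch.algebraMap R c, Full.d_algebraMap c⟩

/-- The algebra of cocycles. -/
noncomputable def Cocycle (R : Realization A r) :
    Subalgebra ℚ (Fun R) where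
  carrier := {f | IsCocycle R f}
  mul_mem' := IsCocycle.mul
  add_mem' := IsCocycle.add
  algebraMap_mem' := IsCocycle.algebraMap R

lemma mem_Cocycle {R : Realization A r} {f : Fun R} :
    f ∈ Cocycle R ↔ f ∈ Coch R ∧ Full.d f = 0 := Iff.rfl

lemma sgn_mem_Coch {R : Realization A r} {f : Fun R}
    (hf : f ∈ Coch R) : Full.sgn f ∈ Coch R := by
  obtain ⟨hf, N, hN⟩ := hf
  refine ⟨fun w l => ?_, N, fun l => ⟨fun hl => ?_, ?_⟩⟩
  · rw [Full.sgn_apply, Full.sgn_apply, hf, translate, List.length_map, map_mul, map_pow, map_neg,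
      map_one]
  · rw [Full.sgn_apply, (hN l).1 hl, mul_zero]
  · rw [Full.sgn_apply]
    rcases neg_one_pow_eq_or (MvPolynomial (Fin r) ℚ) (l.length + 1) with h | h
    · rw [h, one_mul]; exact (hN l).2
    · rw [h, neg_one_mul, totalDegree_neg]; exact (hN l).2

/-- Two cocycles are cohomologous if their difference is the coboundary of a cochain. -/
def Cohomologous (R : Realization A r) (a b : Cocycle R) : Prop :=
  ∃ g ∈ Coch R, (a : Fun R) - b = Full.d g

theorem cohomologous_refl (R : Realization A r) (a : Cocycle R) : Cohomologous R a a :=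
  ⟨0, (Coch R).zero_mem, by simp⟩

theorem cohomologous_symm (R : Realization A r) {a b : Cocycle R} (h : Cohomologous R a b) :
    Cohomologous R b a := by
  obtain ⟨g, hg, h⟩ := h
  exact ⟨-g, neg_mem hg, by rw [map_neg, ← h]; abel⟩

theorem cohomologous_trans (R : Realization A r) {a b c : Cocycle R} (h : Cohomologous R a b)
    (h' : Cohomologous R b c) : Cohomologous R a c := by
  obtain ⟨g, hg, h⟩ := h
  obtain ⟨g', hg', h'⟩ := h'
  exact ⟨g + g', (Coch R).add_mem hg hg', by rw [map_add, ← h, ← h']; abel⟩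

theorem cohomologous_add (R : Realization A r) {a b c e : Cocycle R} (h : Cohomologous R a b)
    (h' : Cohomologous R c e) : Cohomologous R (a + c) (b + e) := by
  obtain ⟨g, hg, h⟩ := h
  obtain ⟨g', hg', h'⟩ := h'
  refine ⟨g + g', (Coch R).add_mem hg hg', ?_⟩
  rw [map_add, ← h, ← h']; push_cast; abel

theorem cohomologous_mul (R : Realization A r) {a b c e : Cocycle R} (h : Cohomologous R a b)
    (h' : Cohomologous R c e) : Cohomologous R (a * c) (b * e) := by
  obtain ⟨a, ha⟩ := a
  obtain ⟨b, hb⟩ := b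
  obtain ⟨c, hc⟩ := c
  obtain ⟨e, he⟩ := e
  obtain ⟨g, hg, h⟩ := h
  obtain ⟨g', hg', h'⟩ := h'
  simp only at h h'
  refine ⟨g * c + Full.sgn b * g', (Coch R).add_mem ((Coch R).mul_mem hg hc.1)
    ((Coch R).mul_mem (sgn_mem_Coch hb.1) hg'), ?_⟩
  simp only [MulMemClass.mk_mul_mk]
  rw [map_add, Full.d_mul, Full.d_mul, Full.d_sgn, Full.sgn_sgn, hc.2, hb.2, ← h, ← h', map_zero,
    neg_zero, mul_zero, zero_mul]
  noncomm_ring

theorem cohomologous_equivalence (R : Realization A r) : Equivalence (Cohomologous R) :=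
  ⟨cohomologous_refl R, cohomologous_symm R, cohomologous_trans R⟩

/-- The ring congruence `being cohomologous` on the algebra of cocycles. -/
noncomputable def cohomologous (R : Realization A r) : RingCon (Cocycle R) where
  r := Cohomologous R
  iseqv := cohomologous_equivalence R
  add' := cohomologous_add R
  mul' := cohomologous_mul R

/-- The ring `H^*(BG(A); ℚ) = H^*(W; P)`: cocycles modulo coboundaries. -/
abbrev HBG (R : Realization A r) : Type := (cohomologous R).Quotient

end KM
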