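import Pool.Agent.Lib_helper45.KM.Comp

/-! If the cohomology ring is finitely generated then it is a finite module over the invariants. -/

open MvPolynomial KMWanted2

namespace KM

variable {n r : ℕ} {A : Matrix (Fin n) (Fin n) ℤ}

/-- The invariant subalgebra. -/
noncomputable def invAlg (R : Realization A r) : Subalgebra ℚ (MvPolynomial (Fin r) ℚ) where
  carrier := {c | IsInvt R c}
  mul_mem' := by intro a b ha hb w; rw [map_mul, ha w, hb w]
  add_mem' := by intro a b ha hb w; rw [map_add, ha w, hb w]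
  algebraMap_mem' := by intro c w; rw [AlgHom.commutes]

/-- The coboundaries as a module over the invariants. -/
noncomputable def cob (R : Realization A r) :
    Submodule (invAlg R) (Full R.weyl (MvPolynomial (Fin r) ℚ)) where
  carrier := {z | ∃ g ∈ Coch R, z = Full.d g}
  add_mem' := by
    rintro _ _ ⟨g, hg, rfl⟩ ⟨g', hg', rfl⟩
    exact ⟨g + g', (Coch R).add_mem hg hg', by rw [map_add]⟩
  zero_mem' := ⟨0, (Coch R).zero_mem, by rw [map_zero]⟩
  smul_mem' := by
    rintro ⟨c, hc⟩ _ ⟨g, hg, rfl⟩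
    exact ⟨c • g, smul_mem_Coch hg hc, by rw [map_smul]; rfl⟩

lemma mem_cob {R : Realization A r} {z : Full R.weyl (MvPolynomial (Fin r) ℚ)} :
    z ∈ cob R ↔ ∃ g ∈ Coch R, z = Full.d g := Iff.rfl

/-- vanishing above `N` -/
lemma vanish (R : Realization A r) (hA : IsGCM A) {N : ℕ}
    (hN : ∀ m, Good (dq _ _) (UU R hA Set.univ m) N) {p : ℕ} (hp : N < p)
    {z : Full R.weyl (MvPolynomial (Fin r) ℚ)} (hz : z ∈ Cocycle R) (hs : Supp p z) :
    z ∈ cob R := by
  obtain ⟨q, rfl⟩ : ∃ q, p = q + 1 := ⟨p - 1, by omega⟩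
  obtain ⟨⟨hz1, M, hM⟩, hz2⟩ := hz
  have hz0 : z ∈ Cocycle R := ⟨⟨hz1, M, hM⟩, hz2⟩
  have h1 := sum_pr (fun l => (hM l).2)
  have h2 : ∀ m, ∃ g ∈ UU R hA Set.univ m q, pr _ r m z = Full.d g := by
    intro m
    have h3 : pr _ r m z ∈ Zc (dq _ _) (UU R hA Set.univ m) (q + 1) := by
      refine ⟨mem_UU_of (pr_mem_Coch hz0.1 m) ?_ (pr_pr m z), ?_⟩
      · intro l hl; rw [pr_apply, hs l hl, map_zero]
      · exact (pr_mem_Cocycle hz0 m).2
    have h4 := (hN m).2 (q + 1) hp
    have h5 := (hN m).1 (q + 1)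
    have h6 : Subsingleton (Hc (dq _ _) (UU R hA Set.univ m) (q + 1)) :=
      Module.finrank_zero_iff.1 h4
    rw [Submodule.Quotient.subsingleton_iff, Submodule.submoduleOf_eq_top] at h6
    obtain ⟨g, hg, h7⟩ := h6 h3
    exact ⟨g, hg, h7.symm⟩
  choose g hg1 hg2 using h2
  refine ⟨∑ m ∈ Finset.range (M + 1), g m, ?_, ?_⟩
  · exact (Coch R).sum_mem (fun m _ => UU_le_Coch (hg1 m))
  · rw [map_sum, ← Finset.sum_congr rfl (fun m _ => hg2 m)]
    exact h1

/-- products of `k` elements of `S` -/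
def words {M : Type*} [Monoid M] (S : Set M) : ℕ → Set M
  | 0 => {1}
  | (k+1) => Set.image2 (· * ·) S (words S k)

lemma words_finite {M : Type*} [Monoid M] {S : Set M} (hS : S.Finite) (k : ℕ) :
    (words S k).Finite := by
  induction k with
  | zero => exact Set.finite_singleton 1
  | succ k ih => exact hS.image2 _ ih

lemma words_prop (R : Realization A r) {S : Set (Full R.weyl (MvPolynomial (Fin r) ℚ))}
    (hS : ∀ s ∈ S, s ∈ Cocycle R ∧ ∃ p, 1 ≤ p ∧ Supp p s) (k : ℕ) :
    ∀ t ∈ words S k, t ∈ Cocycle R ∧ ∃ p, k ≤ p ∧ Supp p t := by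
  induction k with
  | zero =>
    rintro _ rfl
    refine ⟨(Cocycle R).one_mem, 0, le_rfl, fun l hl => ?_⟩
    rw [Full.one_apply, if_neg (by simpa using hl)]
  | succ k ih =>
    rintro _ ⟨s, hs, t, ht, rfl⟩
    obtain ⟨h1, p, hp, h2⟩ := hS s hs
    obtain ⟨h3, q, hq, h4⟩ := ih t ht
    exact ⟨(Cocycle R).mul_mem h1 h3, p + q, by omega, supp_mul h2 h4⟩

lemma mul_cob {R : Realization A r} {s z : Full R.weyl (MvPolynomial (Fin r) ℚ)}
    (hs : s ∈ Cocycle R) (hz : z ∈ cob R) : s * z ∈ cob R := by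
  obtain ⟨g, hg, rfl⟩ := hz
  refine ⟨Full.sgn s * g, (Coch R).mul_mem (sgn_mem_Coch hs.1) hg, ?_⟩
  rw [Full.d_mul, Full.sgn_sgn, Full.d_sgn, hs.2, map_zero, neg_zero, zero_mul, zero_add]

/-- Finite generation as a module. -/
theorem module_fg (R : Realization A r) (hA : IsGCM A) {N : ℕ}
    (hN : ∀ m, Good (dq _ _) (UU R hA Set.univ m) N) (hft : Algebra.FiniteType ℚ (HBG R)) :
    ∃ W : Finset (Full R.weyl (MvPolynomial (Fin r) ℚ)), (∀ w ∈ W, w ∈ Cocycle R) ∧
      ∀ z ∈ Cocycle R, z ∈ cob R ⊔ Submodule.span (invAlg R)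
        (W : Set (Full R.weyl (MvPolynomial (Fin r) ℚ))) := by
  classical
  obtain ⟨s, hs⟩ := hft.out
  let π : Cocycle R →ₐ[ℚ] HBG R := RingCon.mkₐ (α := ℚ) (cohomologous R)
  have hπ : Function.Surjective π := RingCon.mkₐ_surjective (α := ℚ) (cohomologous R)
  choose σ hσ using hπ
  -- lifts
  let S1 : Set (Cocycle R) := σ '' (s : Set (HBG R))
  have hS1 : S1.Finite := (Finset.finite_toSet s).image σ
  have hgen1 : ∀ z : Cocycle R, ∃ a ∈ Algebra.adjoin ℚ S1, π a = π z := by
    intro z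
    have h1 : π z ∈ (Algebra.adjoin ℚ S1).map π := by
      rw [AlgHom.map_adjoin]
      have : π '' S1 = s := by
        ext x
        constructor
        · rintro ⟨_, ⟨y, hy, rfl⟩, rfl⟩
          rw [hσ]; exact hy
        · intro hx
          exact ⟨σ x, ⟨x, hx, rfl⟩, hσ x⟩
      rw [this, hs]
      trivial
    obtain ⟨a, ha, h⟩ := h1
    exact ⟨a, ha, h⟩
  let S2 : Set (Full R.weyl (MvPolynomial (Fin r) ℚ)) := (Cocycle R).val '' S1
  have hS2 : S2.Finite := hS1.image _
  have hS2c : ∀ x ∈ S2, x ∈ Cocycle R := by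
    rintro _ ⟨x, _, rfl⟩
    exact x.2
  have hgen2 : ∀ z ∈ Cocycle R, ∃ a ∈ Algebra.adjoin ℚ S2, ∃ g ∈ Coch R, a - z = Full.d g := by
    intro z hz
    obtain ⟨a, ha, h⟩ := hgen1 ⟨z, hz⟩
    refine ⟨a.1, ?_, ?_⟩
    · have : (a : Full R.weyl (MvPolynomial (Fin r) ℚ)) ∈ (Algebra.adjoin ℚ S1).map (Cocycle R).val :=
        ⟨a, ha, rfl⟩
      rwa [AlgHom.map_adjoin] at this
    · have h2 : (cohomologous R) a ⟨z, hz⟩ := by
        have := (RingCon.eq (cohomologous R)).1 (show (a : (cohomologous R).Quotient) =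
          ((⟨z, hz⟩ : Cocycle R) : (cohomologous R).Quotient) from h)
        exact this
      exact h2
  -- a common bound for the lengths
  have hbd : ∃ L, ∀ x ∈ S2, ∀ l : List R.weyl, L < l.length → x l = 0 := by
    have : ∀ x ∈ S2, ∃ L, ∀ l : List R.weyl, L < l.length → x l = 0 := by
      intro x hx
      obtain ⟨⟨_, L, hL⟩, _⟩ := hS2c x hx
      exact ⟨L, fun l => (hL l).1⟩
    choose! L hL using this
    obtain ⟨M, hM⟩ := (hS2.image L).bddAbove
    exact ⟨M, fun x hx l hl => hL x hx l (lt_of_le_of_lt (hM ⟨x, hx, rfl⟩) hl)⟩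
  obtain ⟨L, hL⟩ := hbd
  -- homogeneous generators
  let Sp : Set (Full R.weyl (MvPolynomial (Fin r) ℚ)) :=
    Set.image2 (fun p x => compn p x) (Set.Icc 1 L) S2
  let S0 : Set (Full R.weyl (MvPolynomial (Fin r) ℚ)) := (fun x => compn 0 x) '' S2
  have hSp : Sp.Finite := (Set.finite_Icc 1 L).image2 _ hS2
  have hSpc : ∀ x ∈ Sp, x ∈ Cocycle R ∧ ∃ p, 1 ≤ p ∧ Supp p x := by
    rintro _ ⟨p, hp, x, hx, rfl⟩
    exact ⟨compn_mem_Cocycle (hS2c x hx) p, p, hp.1, compn_supp p x⟩
  let Wset : Set (Full R.weyl (MvPolynomial (Fin r) ℚ)) := ⋃ k ∈ Set.Iic N, words Sp k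
  have hWfin : Wset.Finite := (Set.finite_Iic N).biUnion (fun k _ => words_finite hSp k)
  set M := cob R ⊔ Submodule.span (invAlg R) Wset with hM
  have hone : (1 : Full R.weyl (MvPolynomial (Fin r) ℚ)) ∈ M := by
    apply Submodule.mem_sup_right
    apply Submodule.subset_span
    exact Set.mem_biUnion (Set.mem_Iic.2 (Nat.zero_le N)) (Set.mem_singleton _)
  -- left multiplication
  have hmul : ∀ x ∈ Sp ∪ S0, ∀ z ∈ M, x * z ∈ M := by
    intro x hx z hz
    have hxc : x ∈ Cocycle R := by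
      rcases hx with hx | ⟨y, hy, rfl⟩
      · exact (hSpc x hx).1
      · exact compn_mem_Cocycle (hS2c y hy) 0
    obtain ⟨b, hb, t, ht, rfl⟩ := Submodule.mem_sup.1 hz
    rw [mul_add]
    apply M.add_mem
    · exact Submodule.mem_sup_left (mul_cob hxc hb)
    · clear hz
      induction ht using Submodule.span_induction with
      | mem t ht =>
        obtain ⟨k, hk, ht'⟩ := Set.mem_iUnion₂.1 ht
        rcases hx with hx | ⟨y, hy, rfl⟩
        · rcases lt_or_eq_of_le (Set.mem_Iic.1 hk) with h | h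
          · apply Submodule.mem_sup_right
            apply Submodule.subset_span
            exact Set.mem_biUnion (Set.mem_Iic.2 (by omega : k + 1 ≤ N)) ⟨x, hx, t, ht', rfl⟩
          · obtain ⟨h1, p, hp, h2⟩ := words_prop R hSpc (k + 1) (x * t) ⟨x, hx, t, ht', rfl⟩
            exact Submodule.mem_sup_left (vanish R hA hN (by omega) h1 h2)
        · have h1 := supp_zero_eq (compn_supp 0 y) hxc.2 1
          simp only at h1 ⊢
          rw [h1, smul_mul_assoc, one_mul]
          have hinv : IsInvt R ((compn 0 y) [1]) := by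
            intro w
            have h2 := hxc.1.1 w [1]
            rw [translate, List.map_cons, List.map_nil, cocycle0_const _ hxc.2 _ 1] at h2
            exact h2.symm
          exact M.smul_mem (⟨_, hinv⟩ : invAlg R) (Submodule.mem_sup_right
            (Submodule.subset_span (Set.mem_biUnion hk ht')))
      | zero => rw [mul_zero]; exact M.zero_mem
      | add a b _ _ ha hb => rw [mul_add]; exact M.add_mem ha hb
      | smul c a _ ha =>
        have : x * (c • a) = c • (x * a) := by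
          change x * ((c : MvPolynomial (Fin r) ℚ) • a) = (c : MvPolynomial (Fin r) ℚ) • (x * a)
          rw [mul_smul_comm]
        rw [this]
        exact M.smul_mem c ha
  have hS2sub : S2 ⊆ Algebra.adjoin ℚ (Sp ∪ S0) := by
    intro x hx
    rw [sum_compn (hL x hx)]
    apply Subalgebra.sum_mem
    intro p hp
    rw [Finset.mem_range] at hp
    apply Algebra.subset_adjoin
    rcases Nat.eq_zero_or_pos p with h | h
    · subst h; right; exact ⟨x, hx, rfl⟩
    · left; exact ⟨p, ⟨h, by omega⟩, x, hx, rfl⟩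
  have hadj : ∀ a ∈ Algebra.adjoin ℚ (Sp ∪ S0), a ∈ M := by
    intro a ha
    rw [← Subalgebra.mem_toSubmodule, Algebra.adjoin_eq_span] at ha
    induction ha using Submodule.span_induction with
    | mem t ht =>
      induction ht using Submonoid.closure_induction_left with
      | one => exact hone
      | mul_left x hx y _ hy => exact hmul x hx y hy
    | zero => exact M.zero_mem
    | add a b _ _ ha hb => exact M.add_mem ha hb
    | smul c a _ ha =>
      have : c • a = (algebraMap ℚ (invAlg R) c) • a := by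
        rw [algebraMap_smul]
      rw [this]
      exact M.smul_mem _ ha
  refine ⟨hWfin.toFinset, ?_, ?_⟩
  · intro w hw
    rw [Set.Finite.mem_toFinset] at hw
    obtain ⟨k, _, hw⟩ := Set.mem_iUnion₂.1 hw
    exact (words_prop R hSpc k w hw).1
  · intro z hz
    rw [Set.Finite.coe_toFinset]
    obtain ⟨a, ha, g, hg, h⟩ := hgen2 z hz
    have h1 : a ∈ M := hadj a (Algebra.adjoin_le hS2sub ha)
    have h2 : z = a - Full.d g := by rw [← h]; abel
    rw [h2]
    exact M.sub_mem h1 (Submodule.mem_sup_left ⟨g, hg, rfl⟩)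

end KM
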