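import Pool.Agent.Lib_helper45.KM.HilbertSerre

/-! Hilbert–Serre with finite-dimensional quotient parts. -/

open Polynomial KMWanted

namespace KM

theorem hilbert_serre' {P E : Type*} [CommRing P] [Algebra ℚ P] [AddCommGroup E] [Module ℚ E]
    [Module P E] [IsScalarTower ℚ P E]
    (pr : ℕ → E →ₗ[ℚ] E)
    (hpr : ∀ m x, pr m (pr m x) = pr m x) (hpr' : ∀ m m' x, m ≠ m' → pr m (pr m' x) = 0)
    (q : ℕ) (t : Fin q → P) (e : Fin q → ℕ) (he : ∀ j, 0 < e j)
    (ht : ∀ j m x, pr (m + e j) (t j • x) = t j • pr m x)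
    (ht' : ∀ j m x, m < e j → pr m (t j • x) = 0)
    (Z B : Submodule ℚ E) (hBZ : B ≤ Z)
    (hZpr : ∀ m, ∀ z ∈ Z, pr m z ∈ Z) (hBpr : ∀ m, ∀ z ∈ B, pr m z ∈ B)
    (hZt : ∀ j, ∀ z ∈ Z, t j • z ∈ Z) (hBt : ∀ j, ∀ z ∈ B, t j • z ∈ B)
    (hZfin : ∀ z ∈ Z, ∃ M, z = ∑ m ∈ Finset.range M, pr m z)
    (hfd : ∀ m, FiniteDimensional ℚ (↥(part pr Z m) ⧸ (part pr B m).submoduleOf (part pr Z m)))
    (S : Finset E) (hS : ∀ s ∈ S, s ∈ Z)
    (hgen : ∀ z ∈ Z, ∃ b ∈ B, ∃ a : E → P, (∀ s, a s ∈ Algebra.adjoin ℚ (Set.range t)) ∧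
      z = b + ∑ s ∈ S, a s • s) :
    ∃ p : ℚ[X], (PowerSeries.mk fun m =>
        (Module.finrank ℚ (↥(part pr Z m) ⧸ (part pr B m).submoduleOf (part pr Z m)) : ℚ)) *
      ((∏ j, (1 - X ^ e j) : ℚ[X]) : PowerSeries ℚ) = (p : PowerSeries ℚ) := by
  classical
  let A := Algebra.adjoin ℚ (Set.range t)
  let t' : Fin q → A := fun j => ⟨t j, Algebra.subset_adjoin ⟨j, rfl⟩⟩
  let BA : Submodule A E :=
    { carrier := B
      add_mem' := fun ha hb => B.add_mem ha hb
      zero_mem' := B.zero_mem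
      smul_mem' := fun c x hx => adjoin_smul_mem t B hBt c.2 x hx }
  have hBA : BA.restrictScalars ℚ = B := rfl
  let ρ := Submodule.Quotient.restrictScalarsEquiv ℚ BA
  let pr' : ℕ → (E ⧸ BA) →ₗ[ℚ] (E ⧸ BA) := fun m =>
    ρ.toLinearMap ∘ₗ ((BA.restrictScalars ℚ).mapQ (BA.restrictScalars ℚ) (pr m)
      (fun x hx => hBpr m x hx)) ∘ₗ ρ.symm.toLinearMap
  have hpr'mk : ∀ m x, pr' m (BA.mkQ x) = BA.mkQ (pr m x) := fun m x => rfl
  let π : E →ₗ[ℚ] (E ⧸ BA) := BA.mkQ.restrictScalars ℚ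
  have hπ : ∀ x, π x = BA.mkQ x := fun x => rfl
  have hπs : Function.Surjective π := BA.mkQ_surjective
  have hπ0 : ∀ x, π x = 0 ↔ x ∈ B := fun x => by
    rw [hπ, ← LinearMap.mem_ker, Submodule.ker_mkQ]; rfl
  -- the parts
  have key : ∀ m, Nonempty ((↥(part pr Z m) ⧸ (part pr B m).submoduleOf (part pr Z m)) ≃ₗ[ℚ]
      ↥(part pr' (Z.map π) m)) := by
    intro m
    have hmap : ∀ x ∈ part pr Z m, π x ∈ part pr' (Z.map π) m := by
      intro x hx
      obtain ⟨h1, h2⟩ := mem_part.1 hx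
      refine mem_part.2 ⟨⟨x, h1, rfl⟩, ?_⟩
      rw [hπ, hpr'mk, h2]
    let φ : part pr Z m →ₗ[ℚ] part pr' (Z.map π) m := π.restrict hmap
    have hφs : Function.Surjective φ := by
      rintro ⟨y, hy⟩
      obtain ⟨h1, h2⟩ := mem_part.1 hy
      obtain ⟨z, hz, rfl⟩ := h1
      refine ⟨⟨pr m z, mem_part.2 ⟨hZpr m z hz, hpr m z⟩⟩, ?_⟩
      apply Subtype.ext
      change π (pr m z) = π z
      rw [hπ, ← hpr'mk]
      exact h2
    have hφk : LinearMap.ker φ = (part pr B m).submoduleOf (part pr Z m) := by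
      ext ⟨x, hx⟩
      rw [LinearMap.mem_ker, Submodule.submoduleOf, Submodule.mem_comap, Submodule.subtype_apply]
      constructor
      · intro h
        have h' : π x = 0 := congrArg Subtype.val h
        exact mem_part.2 ⟨(hπ0 x).1 h', (mem_part.1 hx).2⟩
      · intro h
        apply Subtype.ext
        exact (hπ0 x).2 (mem_part.1 h).1
    exact ⟨(Submodule.quotEquivOfEq _ _ hφk.symm).trans (φ.quotKerEquivOfSurjective hφs)⟩
  have hbot : ∀ m, part pr' (⊥ : Submodule ℚ (E ⧸ BA)) m = ⊥ := by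
    intro m; unfold part; exact bot_inf_eq _
  have main := hilbert_serre (P := A) (E := E ⧸ BA) pr'
    (by
      intro m x
      obtain ⟨x, rfl⟩ := BA.mkQ_surjective x
      rw [hpr'mk, hpr'mk, hpr])
    (by
      intro m m' x h
      obtain ⟨x, rfl⟩ := BA.mkQ_surjective x
      rw [hpr'mk, hpr'mk, hpr' m m' x h, map_zero])
    q t' e he
    (by
      intro j m x
      obtain ⟨x, rfl⟩ := BA.mkQ_surjective x
      rw [hpr'mk, ← map_smul, ← map_smul, hpr'mk]
      congr 1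
      exact ht j m x)
    (by
      intro j m x h
      obtain ⟨x, rfl⟩ := BA.mkQ_surjective x
      rw [← map_smul, hpr'mk]
      have : pr m (t' j • x) = 0 := ht' j m x h
      rw [this, map_zero])
    (Z.map π) ⊥ bot_le
    (by
      rintro m _ ⟨z, hz, rfl⟩
      exact ⟨pr m z, hZpr m z hz, rfl⟩)
    (by
      rintro m z hz
      rw [Submodule.mem_bot] at hz ⊢
      rw [hz, map_zero])
    (by
      rintro j _ ⟨z, hz, rfl⟩
      exact ⟨t j • z, hZt j z hz, rfl⟩)
    (by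
      rintro j z hz
      rw [Submodule.mem_bot] at hz ⊢
      rw [hz, smul_zero])
    (by
      rintro _ ⟨z, hz, rfl⟩
      obtain ⟨M, hM⟩ := hZfin z hz
      refine ⟨M, ?_⟩
      conv_lhs => rw [hM, map_sum]
      rfl)
    (by
      intro m
      obtain ⟨ε⟩ := key m
      have := hfd m
      exact Module.Finite.equiv ε)
    (S.image π)
    (by
      intro s hs
      obtain ⟨x, hx, rfl⟩ := Finset.mem_image.1 hs
      exact ⟨x, hS x hx, rfl⟩)
    (by
      rintro _ ⟨z, hz, rfl⟩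
      obtain ⟨b, hb, a, ha, h⟩ := hgen z hz
      refine ⟨0, Submodule.zero_mem _, ?_⟩
      have hmem : π z ∈ Submodule.span A ((S.image π : Finset (E ⧸ BA)) : Set (E ⧸ BA)) := by
        rw [h, map_add, (hπ0 b).2 hb, zero_add, map_sum]
        apply Submodule.sum_mem
        intro s hs
        have : π (a s • s) = (⟨a s, ha s⟩ : A) • π s := by
          rw [hπ, hπ, ← map_smul]; rfl
        rw [this]
        exact Submodule.smul_mem _ _ (Submodule.subset_span (by
          rw [Finset.coe_image]; exact ⟨s, hs, rfl⟩))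
      obtain ⟨a', _, ha'⟩ := Submodule.mem_span_finset.1 hmem
      refine ⟨a', fun s => ?_, by rw [zero_add, ha']⟩
      -- every element of `A` is in the adjoin of the `t' j`
      have : ∀ (x : P) (hx : x ∈ A), (⟨x, hx⟩ : A) ∈ Algebra.adjoin ℚ (Set.range t') := by
        intro x hx
        induction hx using Algebra.adjoin_induction with
        | mem x hx =>
          obtain ⟨j, rfl⟩ := hx
          exact Algebra.subset_adjoin ⟨j, rfl⟩
        | algebraMap r => exact Subalgebra.algebraMap_mem _ r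
        | add x y _ _ hx hy => exact Subalgebra.add_mem _ hx hy
        | mul x y _ _ hx hy => exact Subalgebra.mul_mem _ hx hy
      exact this _ (a' s).2)
  obtain ⟨p, hp⟩ := main
  refine ⟨p, ?_⟩
  rw [← hp]
  congr 2
  funext m
  obtain ⟨ε⟩ := key m
  rw [hbot, finrank_bot, ε.finrank_eq]
  simp

end KM
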