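import Pool.Agent.Lib_helper45.KM.ThmA
import Pool.Agent.Lib_helper45.KM.Act

/-! Theorem A for an arbitrary realization. -/

open MvPolynomial

namespace KM

variable {n r : ℕ} {A : Matrix (Fin n) (Fin n) ℤ}

lemma exists_basis (R : Realization A r) : ∃ (c : ℕ) (B : Module.Basis (Fin n ⊕ Fin c) ℚ (Fin r → ℚ)),
    (∀ i, B (Sum.inl i) = R.coroot i) ∧ n + c = r := by
  obtain ⟨Q, hQ⟩ := Submodule.exists_isCompl (Submodule.span ℚ (Set.range R.coroot))
  let b1 := Module.Basis.span R.indep
  let b2 := Module.finBasis ℚ Q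
  let B := (b1.prod b2).map (Submodule.prodEquivOfIsCompl _ _ hQ)
  refine ⟨Module.finrank ℚ Q, B, fun i => ?_, ?_⟩
  · simp only [B, Module.Basis.map_apply, Module.Basis.prod_apply, Sum.elim_inl,
      Function.comp_apply, LinearMap.inl_apply, Submodule.coe_prodEquivOfIsCompl', b1]
    rw [Module.Basis.span_apply]; simp
  · have := Module.finrank_eq_card_basis B
    simp at this
    exact this.symm

theorem thmA_realization (hn : 0 < n) (hA : IsGCM A) (hind : Indecomposable A)
    (hdef : IndefiniteType A) (R : Realization A r) :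
    ∃ (q : ℕ) (t : Fin q → MvPolynomial (Fin r) ℚ) (e : Fin q → ℕ),
      (∀ j, 0 < e j) ∧ (∀ j, (t j).IsHomogeneous (e j)) ∧
      (∀ j, IsInvt R (t j)) ∧
      (∀ f, IsInvt R f → f ∈ Algebra.adjoin ℚ (Set.range t)) ∧
      ∑ j, e j + n = r + 2 := by
  classical
  obtain ⟨c, B, hB, hc⟩ := exists_basis R
  have : Nonempty (Fin n) := ⟨⟨0, hn⟩⟩
  -- the roots in the new coordinates
  let α : Fin n → (Fin n ⊕ Fin c) → ℚ := fun i x => R.root i (B x)
  have hα : ∀ i j, α j (Sum.inl i) = A i j := by
    intro i j
    simp only [α, hB, R.pairing]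
  have conn : ∀ P : Fin n → Prop, (∃ i, P i) → (∀ i j, P i → A i j ≠ 0 → P j) → ∀ i, P i := by
    intro P hP hstep
    by_contra hcon
    push Not at hcon
    obtain ⟨k, hk⟩ := hcon
    obtain ⟨i₀, hi₀⟩ := hP
    obtain ⟨i, hi, j, hj, hij⟩ := hind (Finset.univ.filter P) ⟨i₀, by simp [hi₀]⟩
      ⟨k, by simp [hk]⟩
    simp only [Finset.mem_filter, Finset.mem_univ, true_and, Finset.mem_compl] at hi hj
    exact hj (hstep i j hi hij)
  obtain ⟨u, hu, hAu⟩ := hdef
  obtain ⟨b, hb1, hb2, hb3⟩ := thmA (ν := Fin c) (α := α) (A := A) hα hA.diag hA.zero conn u hu hAu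
  -- substitutions
  let T : MvPolynomial (Fin r) ℚ →ₐ[ℚ] MvPolynomial (Fin n ⊕ Fin c) ℚ :=
    aeval (fun k => lin (fun x => B x k))
  let T' : MvPolynomial (Fin n ⊕ Fin c) ℚ →ₐ[ℚ] MvPolynomial (Fin r) ℚ :=
    aeval (fun x => lin (fun k => B.coord x (Pi.single k 1)))
  have hT : ∀ v f, eval v (T f) = eval (B.equivFun.symm v) f := by
    intro v f
    have : (eval v).comp (T : MvPolynomial (Fin r) ℚ →+* _) = eval (B.equivFun.symm v) := by
      apply ringHom_ext
      · intro r; simp [T]
      · intro k
        simp only [T, RingHom.comp_apply, RingHom.coe_coe, aeval_X, eval_lin, eval_X,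
          Module.Basis.equivFun_symm_apply, Finset.sum_apply, Pi.smul_apply, smul_eq_mul,
          dotProduct]
        apply Finset.sum_congr rfl
        intro x _; ring
    exact DFunLike.congr_fun this f
  have hT' : ∀ v f, eval v (T' f) = eval (B.equivFun v) f := by
    intro v f
    have : (eval v).comp (T' : MvPolynomial (Fin n ⊕ Fin c) ℚ →+* _) = eval (B.equivFun v) := by
      apply ringHom_ext
      · intro r; simp [T']
      · intro x
        simp only [T', RingHom.comp_apply, RingHom.coe_coe, aeval_X, eval_lin, eval_X,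
          Module.Basis.equivFun_apply, dotProduct]
        have h := LinearMap.pi_apply_eq_sum_univ (B.coord x) v
        rw [Module.Basis.coord_apply] at h
        rw [h]
        apply Finset.sum_congr rfl
        intro j _
        have h3 : (Pi.single j 1 : Fin r → ℚ) = fun i => if j = i then 1 else 0 := by
          ext i; simp [Pi.single_apply, eq_comm]
        rw [smul_eq_mul, mul_comm, h3]
    exact DFunLike.congr_fun this f
  have hTT : ∀ f, T' (T f) = f := by
    intro f
    apply MvPolynomial.funext
    intro v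
    rw [hT', hT, LinearEquiv.symm_apply_apply]
  have hee : ∀ i, B.equivFun.symm (ee (Fin n) (Fin c) i) = R.coroot i := by
    intro i
    rw [← hB, Module.Basis.equivFun_symm_apply]
    simp [ee, Pi.single_apply]
  have hrt : ∀ i v, α i ⬝ᵥ v = R.root i (B.equivFun.symm v) := by
    intro i v
    rw [Module.Basis.equivFun_symm_apply, map_sum]
    simp only [dotProduct, map_smul, smul_eq_mul, α]
    apply Finset.sum_congr rfl
    intro x _; ring
  have hrefl : ∀ i v, B.equivFun.symm (refl (α i) (ee (Fin n) (Fin c) i) v) =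
      R.s hA i (B.equivFun.symm v) := by
    intro i v
    rw [refl, map_sub, map_smul, hee, hrt, s_apply]
  have hrefl' : ∀ i w, B.equivFun (R.s hA i w) =
      refl (α i) (ee (Fin n) (Fin c) i) (B.equivFun w) := by
    intro i w
    rw [← B.equivFun.symm.injective.eq_iff, hrefl, LinearEquiv.symm_apply_apply,
      LinearEquiv.symm_apply_apply]
  -- invariants
  have inv1 : ∀ f, IsInvt R f → ∀ i, Inv (T f) (α i) (ee (Fin n) (Fin c) i) := by
    intro f hf i
    refine ⟨by rw [dot_ee, hα, hA.diag]; norm_num, fun v => ?_⟩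
    rw [hT, hT, hrefl]
    have h1 := hf ⟨R.s hA i, s_mem R hA i⟩
    have h2 : ∀ w, eval (R.s hA i w) f = eval w f := by
      intro w
      conv_lhs => rw [← h1]
      rw [eval_act]
      congr 1
      exact congrArg _ (LinearEquiv.symm_apply_apply (R.s hA i) w)
    exact h2 _
  have inv2 : ∀ g, (∀ i, ∀ v, eval (refl (α i) (ee (Fin n) (Fin c) i) v) g = eval v g) →
      IsInvt R (T' g) := by
    intro g hg
    have h1 : ∀ i w, eval (R.s hA i w) (T' g) = eval w (T' g) := by
      intro i w
      rw [hT', hT', hrefl', hg]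
    have h2 : R.weyl ≤
        ({ carrier := {w | act w (T' g) = T' g}
           mul_mem' := by
             intro a b ha hb
             change act (a * b) (T' g) = T' g
             rw [act_mul]
             rw [show act b (T' g) = T' g from hb, show act a (T' g) = T' g from ha]
           one_mem' := act_one _
           inv_mem' := by
             intro a ha
             change act a⁻¹ (T' g) = T' g
             conv_lhs => rw [← show act a (T' g) = T' g from ha]
             rw [act_inv_act] } : Subgroup ((Fin r → ℚ) ≃ₗ[ℚ] (Fin r → ℚ))) := by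
      rw [weyl_eq R hA, Subgroup.closure_le]
      rintro _ ⟨i, rfl⟩
      change act (R.s hA i) (T' g) = T' g
      apply MvPolynomial.funext
      intro v
      rw [eval_act, ← h1 i ((R.s hA i)⁻¹ v)]
      congr 1
      exact congrArg _ (LinearEquiv.apply_symm_apply (R.s hA i) v)
    intro w
    exact h2 w.2
  refine ⟨c + 1, Fin.cons (T' b) (fun k => T' (X (Sum.inr k))), Fin.cons 2 (fun _ => 1), ?_, ?_,
    ?_, ?_, ?_⟩
  · intro j
    refine Fin.cases ?_ (fun k => ?_) j <;> simp
  · intro j
    refine Fin.cases ?_ (fun k => ?_) j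
    · simp only [Fin.cons_zero]
      have := IsHomogeneous.aeval (R := ℚ) (S := ℚ) (n := 1) hb1
        (fun x => lin (fun k => B.coord x (Pi.single k 1))) (fun x => lin_homog _)
      simpa [T'] using this
    · simp only [Fin.cons_succ]
      have := lin_homog (fun j => B.coord (Sum.inr k) (Pi.single j 1))
      simpa [T'] using this
  · intro j
    refine Fin.cases ?_ (fun k => ?_) j
    · simp only [Fin.cons_zero]
      exact inv2 _ (fun i v => (hb2 i).2 v)
    · simp only [Fin.cons_succ]
      apply inv2
      intro i v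
      simp [refl, ee]
  · intro f hf
    obtain ⟨p, hp⟩ := hb3 (T f) (inv1 f hf)
    rw [← hTT f, hp]
    set S : Set (MvPolynomial (Fin r) ℚ) := Set.range (Fin.cons (α := fun _ => MvPolynomial (Fin r) ℚ) (T' b) (fun k => T' (X (Sum.inr k)))) with hS
    have hb0 : T' b ∈ Algebra.adjoin ℚ S := Algebra.subset_adjoin ⟨0, by simp⟩
    have hy : ∀ k, T' (X (Sum.inr k)) ∈ Algebra.adjoin ℚ S :=
      fun k => Algebra.subset_adjoin ⟨k.succ, by simp⟩
    have hren : ∀ a : MvPolynomial (Fin c) ℚ, T' (rename Sum.inr a) ∈ Algebra.adjoin ℚ S := by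
      intro a
      induction a using MvPolynomial.induction_on with
      | C a =>
        rw [rename_C]
        have : T' (C a) = algebraMap ℚ _ a := by
          rw [← MvPolynomial.algebraMap_eq, AlgHom.commutes]
        rw [this]
        exact Subalgebra.algebraMap_mem _ _
      | add p q hp hq => rw [map_add, map_add]; exact Subalgebra.add_mem _ hp hq
      | mul_X p k hp => rw [map_mul, map_mul, rename_X]; exact Subalgebra.mul_mem _ hp (hy k)
    clear hp
    induction p using Polynomial.induction_on' with
    | add p q hp hq => rw [Polynomial.eval₂_add, map_add]; exact Subalgebra.add_mem _ hp hq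
    | monomial k a =>
      rw [Polynomial.eval₂_monomial, map_mul, map_pow]
      exact Subalgebra.mul_mem _ (hren a) (Subalgebra.pow_mem _ hb0 _)
  · rw [Fin.sum_univ_succ]
    simp only [Fin.cons_zero, Fin.cons_succ, Finset.sum_const, Finset.card_univ, Fintype.card_fin,
      smul_eq_mul, mul_one]
    omega

end KM
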