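import Pool.Agent.Lib_helper45.KM.FG
import Pool.Agent.Lib_helper45.KM.HS
import Pool.Agent.Lib_helper45.KM.Transport

/-! The main theorem. -/

open MvPolynomial KMWanted2

namespace KM

variable {n r : ℕ} {A : Matrix (Fin n) (Fin n) ℤ}

lemma d_mem_Coch {R : Realization A r} {f : Full R.weyl (MvPolynomial (Fin r) ℚ)}
    (hf : f ∈ Coch R) : Full.d f ∈ Coch R := by
  obtain ⟨hf, N, hN⟩ := hf
  refine ⟨fun w l => ?_, N + 1, fun l => ⟨fun hl => ?_, ?_⟩⟩
  · rw [translate, Full.d_apply, Full.d_apply, dd_map]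
    unfold dd
    rw [map_sum]
    apply Finset.sum_congr rfl
    intro j _
    rw [map_mul, map_pow, map_neg, map_one]
    have hf' : ∀ l, f (List.map (fun x => w * x) l) = act w.1 (f l) := hf w
    simp only
    rw [hf']
  · rw [Full.d_apply]
    unfold dd
    apply Finset.sum_eq_zero
    intro j hj
    rw [Finset.mem_range] at hj
    rw [(hN _).1, mul_zero]
    rw [List.length_eraseIdx_of_lt hj]; omega
  · rw [Full.d_apply]
    unfold dd
    apply totalDegree_finsetSum_le
    intro j _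
    have : ((-1 : MvPolynomial (Fin r) ℚ) ^ j * f (l.eraseIdx j)).totalDegree ≤ N := by
      rcases neg_one_pow_eq_or (MvPolynomial (Fin r) ℚ) j with h | h
      · rw [h, one_mul]; exact (hN _).2
      · rw [h, neg_one_mul, totalDegree_neg]; exact (hN _).2
    omega

/-- cocycles of degree `p` -/
noncomputable def ZZ (R : Realization A r) (p : ℕ) :
    Submodule ℚ (Full R.weyl (MvPolynomial (Fin r) ℚ)) where
  carrier := {f | f ∈ Cocycle R ∧ Supp p f}
  add_mem' := by
    rintro a b ⟨ha, ha'⟩ ⟨hb, hb'⟩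
    exact ⟨(Cocycle R).add_mem ha hb, fun l hl => by rw [Full.add_apply, ha' l hl, hb' l hl, add_zero]⟩
  zero_mem' := ⟨(Cocycle R).zero_mem, fun l _ => rfl⟩
  smul_mem' := by
    rintro c a ⟨ha, ha'⟩
    exact ⟨(Cocycle R).smul_mem ha c, fun l hl => by rw [Full.smul_apply, ha' l hl, smul_zero]⟩

/-- coboundaries of degree `p` -/
noncomputable def BB (R : Realization A r) (p : ℕ) :
    Submodule ℚ (Full R.weyl (MvPolynomial (Fin r) ℚ)) where
  carrier := {f | f ∈ cob R ∧ Supp p f}
  add_mem' := by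
    rintro a b ⟨ha, ha'⟩ ⟨hb, hb'⟩
    exact ⟨(cob R).add_mem ha hb, fun l hl => by rw [Full.add_apply, ha' l hl, hb' l hl, add_zero]⟩
  zero_mem' := ⟨(cob R).zero_mem, fun l _ => rfl⟩
  smul_mem' := by
    rintro c a ⟨ha, ha'⟩
    refine ⟨?_, fun l hl => by rw [Full.smul_apply, ha' l hl, smul_zero]⟩
    have : c • a = (algebraMap ℚ (invAlg R) c) • a := by rw [algebraMap_smul]
    rw [this]
    exact (cob R).smul_mem _ ha

lemma part_ZZ (R : Realization A r) (hA : IsGCM A) (p m : ℕ) :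
    KMWanted.part (pr R.weyl r) (ZZ R p) m = Zc (dq _ _) (UU R hA Set.univ m) p := by
  ext f
  rw [KMWanted.mem_part]
  constructor
  · rintro ⟨⟨h1, h2⟩, h3⟩
    exact ⟨mem_UU_of h1.1 h2 h3, h1.2⟩
  · rintro ⟨h1, h2⟩
    exact ⟨⟨⟨UU_le_Coch h1, h2⟩, h1.1⟩, pr_of_UU h1⟩

lemma part_BB (R : Realization A r) (hA : IsGCM A) (p m : ℕ) :
    KMWanted.part (pr R.weyl r) (BB R p) m = Bc (dq _ _) (UU R hA Set.univ m) p := by
  ext f
  rw [KMWanted.mem_part]
  cases p with
  | zero =>
    rw [Bc, Submodule.mem_bot]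
    constructor
    · rintro ⟨⟨⟨g, hg, rfl⟩, h2⟩, h3⟩
      rw [← compn_of_supp h2, compn_zero_d]
    · rintro rfl
      exact ⟨(BB R 0).zero_mem, map_zero _⟩
  | succ q =>
    rw [Bc]
    constructor
    · rintro ⟨⟨⟨g, hg, rfl⟩, h2⟩, h3⟩
      refine ⟨pr _ r m (compn q g), ?_, ?_⟩
      · apply mem_UU_of (pr_mem_Coch (compn_mem_Coch hg q) m) _ (pr_pr _ _)
        intro l hl
        rw [pr_apply, compn_supp q g l hl, map_zero]
      · rw [dq_apply, ← pr_d, d_compn, compn_of_supp h2, h3]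
    · rintro ⟨g, hg, rfl⟩
      rw [dq_apply]
      refine ⟨⟨⟨g, UU_le_Coch hg, rfl⟩, ?_⟩, ?_⟩
      · have := (UU_d R hA Set.univ m q ⟨g, hg, rfl⟩).1
        exact this
      · rw [pr_d, pr_of_UU hg]

/-- Hilbert–Serre for `H^p`. -/
lemma hs_p (R : Realization A r) (hA : IsGCM A) {N : ℕ}
    (hN : ∀ m, Good (dq _ _) (UU R hA Set.univ m) N)
    (hft : Algebra.FiniteType ℚ (HBG R)) {q : ℕ} (t : Fin q → MvPolynomial (Fin r) ℚ)
    (e : Fin q → ℕ) (he : ∀ j, 0 < e j) (ht : ∀ j, (t j).IsHomogeneous (e j))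
    (ht' : ∀ j, IsInvt R (t j))
    (hinv : ∀ f, IsInvt R f → f ∈ Algebra.adjoin ℚ (Set.range t)) (p : ℕ) :
    ∃ P : Polynomial ℚ, (PowerSeries.mk fun m =>
        (Module.finrank ℚ (Hc (dq _ _) (UU R hA Set.univ m) p) : ℚ)) *
      ((∏ j, (1 - Polynomial.X ^ e j) : Polynomial ℚ) : PowerSeries ℚ) = (P : PowerSeries ℚ) := by
  classical
  obtain ⟨W, hW, hgen⟩ := module_fg R hA hN hft
  have key := hilbert_serre' (pr R.weyl r) (fun m x => pr_pr m x)
    (fun m m' x h => pr_pr_ne m m' x h) q t e he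
    (fun j m x => pr_smul m (e j) (t j) (ht j) x)
    (fun j m x h => pr_smul_zero m (e j) (t j) (ht j) x h) (ZZ R p) (BB R p)
    (by
      rintro _ ⟨⟨g, hg, rfl⟩, h⟩
      exact ⟨⟨d_mem_Coch hg, Full.d_d g⟩, h⟩)
    (by
      rintro m z ⟨h1, h2⟩
      exact ⟨pr_mem_Cocycle h1 m, fun l hl => by rw [pr_apply, h2 l hl, map_zero]⟩)
    (by
      rintro m _ ⟨⟨g, hg, rfl⟩, h2⟩
      exact ⟨⟨pr _ r m g, pr_mem_Coch hg m, pr_d m g⟩,
        fun l hl => by rw [pr_apply, h2 l hl, map_zero]⟩)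
    (by
      rintro j z ⟨h1, h2⟩
      exact ⟨⟨smul_mem_Coch h1.1 (ht' j), by rw [map_smul, h1.2, smul_zero]⟩,
        fun l hl => by rw [Full.smul_apply, h2 l hl, smul_zero]⟩)
    (by
      rintro j z ⟨h1, h2⟩
      exact ⟨(cob R).smul_mem (⟨t j, ht' j⟩ : invAlg R) h1,
        fun l hl => by rw [Full.smul_apply, h2 l hl, smul_zero]⟩)
    (by
      rintro z ⟨⟨⟨_, M, hM⟩, _⟩, _⟩
      exact ⟨M + 1, sum_pr (fun l => (hM l).2)⟩)
    (by
      intro m
      rw [part_ZZ R hA, part_BB R hA]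
      exact (hN m).1 p)
    (W.image (compn p))
    (by
      intro s hs
      obtain ⟨w, hw, rfl⟩ := Finset.mem_image.1 hs
      exact ⟨compn_mem_Cocycle (hW w hw) p, compn_supp p w⟩)
    (by
      intro z hz
      obtain ⟨b, hb, y, hy, h⟩ := Submodule.mem_sup.1 (hgen z hz.1)
      have h1 : z = compn p b + compn p y := by
        rw [← map_add, h, compn_of_supp hz.2]
      refine ⟨compn p b, ?_, ?_⟩
      · obtain ⟨g, hg, rfl⟩ := hb
        refine ⟨?_, compn_supp _ _⟩
        cases p with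
        | zero => rw [compn_zero_d]; exact (cob R).zero_mem
        | succ q => exact ⟨compn q g, compn_mem_Coch hg q, (d_compn q g).symm⟩
      · let φ : Full R.weyl (MvPolynomial (Fin r) ℚ) →ₗ[invAlg R]
            Full R.weyl (MvPolynomial (Fin r) ℚ) :=
          { toFun := compn p
            map_add' := map_add _
            map_smul' := fun c x => by
              change compn p ((c : MvPolynomial (Fin r) ℚ) • x) = (c : MvPolynomial (Fin r) ℚ) • _
              rw [map_smul] }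
        have h2 : φ y ∈ (Submodule.span (invAlg R)
            (W : Set (Full R.weyl (MvPolynomial (Fin r) ℚ)))).map φ := ⟨y, hy, rfl⟩
        rw [Submodule.map_span] at h2
        have h3 : φ '' (W : Set (Full R.weyl (MvPolynomial (Fin r) ℚ))) =
            ((W.image (compn p) : Finset _) : Set _) := by
          rw [Finset.coe_image]; rfl
        rw [h3, Submodule.mem_span_finset] at h2
        obtain ⟨a, _, ha⟩ := h2
        refine ⟨fun s => (a s : MvPolynomial (Fin r) ℚ), fun s => hinv _ (a s).2, ?_⟩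
        rw [h1]
        congr 1
        exact ha.symm)
  obtain ⟨P, hP⟩ := key
  refine ⟨P, ?_⟩
  rw [← hP]
  congr 2
  funext m
  rw [part_ZZ R hA, part_BB R hA]

/-- Every matrix has a realization of rank `n` (the coroots being the standard basis). -/
theorem realization_exists (A : Matrix (Fin n) (Fin n) ℤ) : Nonempty (Realization A n) := by
  refine ⟨⟨fun i => Pi.single i 1, fun j => ∑ i, (A i j : ℚ) • LinearMap.proj i, ?_, ?_⟩⟩
  · have := (Pi.basisFun ℚ (Fin n)).linearIndependent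
    convert this using 1
    funext i
    simp
  · intro i j
    simp [LinearMap.sum_apply, Pi.single_apply]

/-- The cohomology ring is not finitely generated. -/
theorem main_theorem (n : ℕ) (hn : 3 ≤ n) (A : Matrix (Fin n) (Fin n) ℤ) (hA : IsGCM A)
    (hind : Indecomposable A) (hdef : IndefiniteType A) (r : ℕ) (R : Realization A r) :
    ¬ Algebra.FiniteType ℚ (HBG R) := by
  intro hft
  obtain ⟨q, t, e, he, ht, ht', hinv, hsum⟩ := thmA_realization (by omega) hA hind hdef R
  obtain ⟨_, N, hN, ⟨u, v, hv, hdeg, hE⟩, hc⟩ := par_Pr R hA Finset.univ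
  rw [Finset.coe_univ] at hN hE hc
  have hp := fun p => hs_p R hA hN hft t e he ht ht' hinv p
  choose P hP using hp
  set Pi0 : Polynomial ℚ := ∏ j, (1 - Polynomial.X ^ e j) with hPi
  -- the Euler characteristic series times `Pi0`
  set F : PowerSeries ℚ := PowerSeries.mk fun m => (chi (dq _ _) (UU R hA Set.univ m) N : ℚ)
    with hF
  have h1 : F * (Pi0 : PowerSeries ℚ) =
      ((∑ p ∈ Finset.range (N + 1), (-1) ^ p * P p : Polynomial ℚ) : PowerSeries ℚ) := by
    have h2 : F = ∑ p ∈ Finset.range (N + 1), (-1 : PowerSeries ℚ) ^ p * (PowerSeries.mk fun m =>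
        (Module.finrank ℚ (Hc (dq _ _) (UU R hA Set.univ m) p) : ℚ)) := by
      ext m
      rw [hF, PowerSeries.coeff_mk, map_sum]
      unfold chi
      push_cast
      apply Finset.sum_congr rfl
      intro p _
      have h3 : (-1 : PowerSeries ℚ) ^ p = PowerSeries.C ((-1) ^ p) := by simp
      rw [h3, PowerSeries.coeff_C_mul, PowerSeries.coeff_mk]
    rw [h2, Finset.sum_mul]
    have h4 : ((∑ p ∈ Finset.range (N + 1), (-1) ^ p * P p : Polynomial ℚ) : PowerSeries ℚ) =
        ∑ p ∈ Finset.range (N + 1), (-1 : PowerSeries ℚ) ^ p * (P p : PowerSeries ℚ) := by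
      rw [← Polynomial.coeToPowerSeries.ringHom_apply, map_sum]
      apply Finset.sum_congr rfl
      intro p _
      simp
    rw [h4]
    apply Finset.sum_congr rfl
    intro p _
    rw [mul_assoc, hP]
  set Q : Polynomial ℚ := ∑ p ∈ Finset.range (N + 1), (-1) ^ p * P p with hQ
  have h5 : u * Pi0 = Q * v := by
    have : ((u * Pi0 : Polynomial ℚ) : PowerSeries ℚ) = ((Q * v : Polynomial ℚ) : PowerSeries ℚ) := by
      rw [Polynomial.coe_mul, Polynomial.coe_mul, ← hE, ← h1]; ring
    exact_mod_cast this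
  have hF0 : F ≠ 0 := by
    intro h
    have h6 : PowerSeries.coeff 0 F = 1 := by
      rw [hF, PowerSeries.coeff_mk, hc]; simp
    rw [h] at h6
    simp at h6
  have hv0 : v ≠ 0 := by rintro rfl; simp at hv
  have hu0 : u ≠ 0 := by
    rintro rfl
    have : F * (v : PowerSeries ℚ) = 0 := by rw [hE]; simp
    rcases mul_eq_zero.1 this with h | h
    · exact hF0 h
    · apply hv0
      have h' : (v : PowerSeries ℚ) = ((0 : Polynomial ℚ) : PowerSeries ℚ) := by simpa using h
      exact Polynomial.coe_injective _ h'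
  have hfac : ∀ j, (1 - Polynomial.X ^ e j : Polynomial ℚ) ≠ 0 ∧
      (1 - Polynomial.X ^ e j : Polynomial ℚ).natDegree = e j := by
    intro j
    have h7 : (1 - Polynomial.X ^ e j : Polynomial ℚ) = -(Polynomial.X ^ e j - Polynomial.C 1) := by
      simp
    constructor
    · rw [h7, neg_ne_zero]; exact Polynomial.X_pow_sub_C_ne_zero (he j) 1
    · rw [h7, Polynomial.natDegree_neg, Polynomial.natDegree_X_pow_sub_C]
  have hPi0 : Pi0 ≠ 0 := Finset.prod_ne_zero_iff.2 (fun j _ => (hfac j).1)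
  have hPid : Pi0.natDegree = ∑ j, e j := by
    rw [hPi, Polynomial.natDegree_prod _ _ (fun j _ => (hfac j).1)]
    exact Finset.sum_congr rfl (fun j _ => (hfac j).2)
  have hQ0 : Q ≠ 0 := by
    rintro h
    rw [h, zero_mul] at h5
    exact mul_ne_zero hu0 hPi0 h5
  have h8 := congrArg Polynomial.natDegree h5
  rw [Polynomial.natDegree_mul hu0 hPi0, Polynomial.natDegree_mul hQ0 hv0, hPid] at h8
  rcases hdeg with h | h
  · exact hu0 h
  · omega

end KM
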