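import Mathlib

/-! Hilbert–Serre theorem for a finitely generated graded subquotient (lemma D for MP_fc0265_gt). -/

open Polynomial

namespace KMWanted

/-- The degree `m` part of a submodule, for a grading given by projections `pr m`. -/
def part {E : Type*} [AddCommGroup E] [Module ℚ E] (pr : ℕ → E →ₗ[ℚ] E) (Z : Submodule ℚ E)
    (m : ℕ) : Submodule ℚ E :=
  Z ⊓ LinearMap.ker (pr m - LinearMap.id)

theorem mem_part {E : Type*} [AddCommGroup E] [Module ℚ E] {pr : ℕ → E →ₗ[ℚ] E}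
    {Z : Submodule ℚ E} {m : ℕ} {x : E} : x ∈ part pr Z m ↔ x ∈ Z ∧ pr m x = x := by
  unfold part
  simp [LinearMap.mem_ker, sub_eq_zero]

/-- Splitting off the last generator. -/
theorem adjoin_split {P : Type*} [CommRing P] [Algebra ℚ P] {q : ℕ} (t : Fin (q + 1) → P)
    {a : P} (ha : a ∈ Algebra.adjoin ℚ (Set.range t)) :
    ∃ a' ∈ Algebra.adjoin ℚ (Set.range (fun j : Fin q => t j.castSucc)),
      ∃ c ∈ Algebra.adjoin ℚ (Set.range t), a = a' + t (Fin.last q) * c := by
  have hle : Algebra.adjoin ℚ (Set.range (fun j : Fin q => t j.castSucc)) ≤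
      Algebra.adjoin ℚ (Set.range t) := by
    apply Algebra.adjoin_mono
    rintro _ ⟨j, rfl⟩
    exact ⟨j.castSucc, rfl⟩
  have htl : t (Fin.last q) ∈ Algebra.adjoin ℚ (Set.range t) :=
    Algebra.subset_adjoin ⟨_, rfl⟩
  induction ha using Algebra.adjoin_induction with
  | mem x hx =>
    obtain ⟨j, rfl⟩ := hx
    refine Fin.lastCases ?_ (fun j => ?_) j
    · exact ⟨0, zero_mem _, 1, one_mem _, by simp⟩
    · exact ⟨t j.castSucc, Algebra.subset_adjoin ⟨j, rfl⟩, 0, zero_mem _, by simp⟩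
  | algebraMap r => exact ⟨algebraMap ℚ P r, Subalgebra.algebraMap_mem _ r, 0, zero_mem _, by simp⟩
  | add x y _ _ hx hy =>
    obtain ⟨a, ha, c, hc, rfl⟩ := hx
    obtain ⟨b, hb, d, hd, rfl⟩ := hy
    exact ⟨a + b, add_mem ha hb, c + d, add_mem hc hd, by ring⟩
  | mul x y _ _ hx hy =>
    obtain ⟨a, ha, c, hc, rfl⟩ := hx
    obtain ⟨b, hb, d, hd, rfl⟩ := hy
    refine ⟨a * b, mul_mem ha hb, a * d + c * b + t (Fin.last q) * c * d, ?_, by ring⟩
    exact add_mem (add_mem (mul_mem (hle ha) hd) (mul_mem hc (hle hb)))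
      (mul_mem (mul_mem htl hc) hd)

/-- A submodule stable under the generators is stable under the generated algebra. -/
theorem adjoin_smul_mem {P E : Type*} [CommRing P] [Algebra ℚ P] [AddCommGroup E] [Module ℚ E]
    [Module P E] [IsScalarTower ℚ P E] {q : ℕ} (t : Fin q → P) (Z : Submodule ℚ E)
    (hZt : ∀ j, ∀ z ∈ Z, t j • z ∈ Z) {a : P} (ha : a ∈ Algebra.adjoin ℚ (Set.range t)) :
    ∀ z ∈ Z, a • z ∈ Z := by
  induction ha using Algebra.adjoin_induction with
  | mem x hx => obtain ⟨j, rfl⟩ := hx; exact hZt j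
  | algebraMap r => intro z hz; rw [algebraMap_smul]; exact Z.smul_mem r hz
  | add x y _ _ hx hy => intro z hz; rw [add_smul]; exact add_mem (hx z hz) (hy z hz)
  | mul x y _ _ hx hy => intro z hz; rw [mul_smul]; exact hx _ (hy z hz)

/-- Noetherianity: a stable intermediate submodule is again finitely generated over `B`. -/
theorem sub_fg {P E : Type*} [CommRing P] [Algebra ℚ P] [AddCommGroup E] [Module ℚ E]
    [Module P E] [IsScalarTower ℚ P E] {q : ℕ} (t : Fin q → P) (Z Z' B : Submodule ℚ E)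
    (hBZ' : B ≤ Z') (hZ'Z : Z' ≤ Z)
    (hZt : ∀ j, ∀ z ∈ Z, t j • z ∈ Z) (hZt' : ∀ j, ∀ z ∈ Z', t j • z ∈ Z')
    (hBt : ∀ j, ∀ z ∈ B, t j • z ∈ B)
    (S : Finset E) (hS : ∀ s ∈ S, s ∈ Z)
    (hgen : ∀ z ∈ Z, ∃ b ∈ B, ∃ a : E → P, (∀ s, a s ∈ Algebra.adjoin ℚ (Set.range t)) ∧
      z = b + ∑ s ∈ S, a s • s) :
    ∃ S' : Finset E, (∀ s ∈ S', s ∈ Z') ∧
      ∀ z ∈ Z', ∃ b ∈ B, ∃ a : E → P, (∀ s, a s ∈ Algebra.adjoin ℚ (Set.range t)) ∧
      z = b + ∑ s ∈ S', a s • s := by
  classical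
  set A := Algebra.adjoin ℚ (Set.range t) with hA
  have hAfg : A.FG := by
    rw [Subalgebra.fg_def]
    exact ⟨Set.range t, Set.finite_range t, rfl⟩
  have : Algebra.FiniteType ℚ A := A.fg_iff_finiteType.1 hAfg
  have : IsNoetherianRing A := Algebra.FiniteType.isNoetherianRing ℚ A
  let mk : ∀ W : Submodule ℚ E, (∀ j, ∀ z ∈ W, t j • z ∈ W) → Submodule A E := fun W hW =>
    { carrier := W
      add_mem' := fun ha hb => W.add_mem ha hb
      zero_mem' := W.zero_mem
      smul_mem' := fun c x hx => adjoin_smul_mem t W hW c.2 x hx }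
  let ZA := mk Z hZt
  let Z'A := mk Z' hZt'
  let BA := mk B hBt
  have h1 : (ZA.map BA.mkQ).FG := by
    refine ⟨S.image BA.mkQ, le_antisymm ?_ ?_⟩
    · rw [Submodule.span_le]
      intro y hy
      simp only [Finset.coe_image, Set.mem_image, Finset.mem_coe] at hy
      obtain ⟨s, hs, rfl⟩ := hy
      exact Submodule.mem_map_of_mem (hS s hs)
    · rintro _ ⟨z, hz, rfl⟩
      obtain ⟨b, hb, a, ha, rfl⟩ := hgen z hz
      have hb0 : BA.mkQ b = 0 := by
        rw [← LinearMap.mem_ker, Submodule.ker_mkQ]; exact hb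
      rw [map_add, hb0, zero_add, map_sum]
      refine Submodule.sum_mem _ fun s hs => ?_
      have : BA.mkQ (a s • s) = (⟨a s, ha s⟩ : A) • BA.mkQ s := by
        rw [← map_smul]; rfl
      rw [this]
      exact Submodule.smul_mem _ _ (Submodule.subset_span (by simpa using ⟨s, hs, rfl⟩))
  have : IsNoetherian A (ZA.map BA.mkQ) := isNoetherian_of_fg_of_noetherian _ h1
  have h2 : (Z'A.map BA.mkQ).FG := by
    have hle : Z'A.map BA.mkQ ≤ ZA.map BA.mkQ := Submodule.map_mono hZ'Z
    have := isNoetherian_of_le hle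
    exact (isNoetherian_def.1 (isNoetherian_of_le hle) ⊤ |> fun h => by
      simpa using (Submodule.fg_top _).1 h)
  obtain ⟨T, hT⟩ := h2
  have hTmem : ∀ y ∈ T, ∃ z ∈ Z', BA.mkQ z = y := by
    intro y hy
    have : y ∈ Z'A.map BA.mkQ := by rw [← hT]; exact Submodule.subset_span hy
    exact this
  choose! f hf1 hf2 using hTmem
  refine ⟨T.image f, ?_, ?_⟩
  · intro s hs
    obtain ⟨y, hy, rfl⟩ := Finset.mem_image.1 hs
    exact hf1 y hy
  · intro z hz
    have hz' : BA.mkQ z ∈ Submodule.span A (T : Set (E ⧸ BA)) := by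
      rw [hT]; exact Submodule.mem_map_of_mem hz
    have hz'' : BA.mkQ z ∈ (Submodule.span A ((T.image f : Finset E) : Set E)).map BA.mkQ := by
      have himg : (BA.mkQ : E → E ⧸ BA) '' ((T.image f : Finset E) : Set E) = (T : Set (E ⧸ BA)) := by
        ext y
        simp only [Finset.coe_image, Set.mem_image, Finset.mem_coe]
        constructor
        · rintro ⟨_, ⟨y', hy', rfl⟩, rfl⟩
          rw [hf2 y' hy']; exact hy'
        · intro hy
          exact ⟨f y, ⟨y, hy, rfl⟩, hf2 y hy⟩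
      rw [Submodule.map_span, himg]
      exact hz'
    obtain ⟨w, hw, hwz⟩ := hz''
    obtain ⟨a, -, ha⟩ := (Submodule.mem_span_finset).1 hw
    refine ⟨z - w, ?_, fun s => (a s : P), fun s => (a s).2, ?_⟩
    · have : z - w ∈ BA := by
        rw [← Submodule.ker_mkQ BA, LinearMap.mem_ker, map_sub, hwz, sub_self]
      exact this
    · have : (∑ s ∈ T.image f, ((a s : A) : P) • s) = w := by
        rw [← ha]; rfl
      rw [this]; abel

theorem finrank_step {P E : Type*} [CommRing P] [Algebra ℚ P] [AddCommGroup E] [Module ℚ E]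
    [Module P E] [IsScalarTower ℚ P E]
    (pr : ℕ → E →ₗ[ℚ] E) (τ : P) (e : ℕ)
    (ht : ∀ m x, pr (m + e) (τ • x) = τ • pr m x)
    (Z B Z' B' : Submodule ℚ E) (hBZ : B ≤ Z)
    (hZpr : ∀ m, ∀ z ∈ Z, pr m z ∈ Z) (hBpr : ∀ m, ∀ z ∈ B, pr m z ∈ B)
    (hpr : ∀ m x, pr m (pr m x) = pr m x)
    (hZt : ∀ z ∈ Z, τ • z ∈ Z)
    (hfd : ∀ m, FiniteDimensional ℚ (part pr Z m))
    (hZ' : ∀ z, z ∈ Z' ↔ z ∈ Z ∧ τ • z ∈ B)
    (hB' : ∀ x, x ∈ B' ↔ ∃ b ∈ B, ∃ z ∈ Z, x = b + τ • z) (m : ℕ) :
    Module.finrank ℚ (part pr Z m) + Module.finrank ℚ (part pr B (m + e)) =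
      Module.finrank ℚ (part pr Z' m) + Module.finrank ℚ (part pr B' (m + e)) := by
  classical
  have hB'Z : B' ≤ Z := by
    intro x hx
    obtain ⟨b, hb, z, hz, rfl⟩ := (hB' x).1 hx
    exact Z.add_mem (hBZ hb) (hZt z hz)
  have hBB' : B ≤ B' := fun b hb => (hB' b).2 ⟨b, hb, 0, Z.zero_mem, by simp⟩
  have hmono : ∀ {U V : Submodule ℚ E} (k : ℕ), U ≤ V → part pr U k ≤ part pr V k :=
    fun k h x hx => mem_part.2 ⟨h (mem_part.1 hx).1, (mem_part.1 hx).2⟩
  have := hfd m
  have : FiniteDimensional ℚ (part pr B' (m + e)) :=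
    have := hfd (m + e)
    Submodule.finiteDimensional_of_le (hmono (m + e) hB'Z)
  -- the two maps to `E ⧸ B`
  let φ : part pr Z m →ₗ[ℚ] (E ⧸ B) :=
    (B.mkQ ∘ₗ (Module.toModuleEnd ℚ (S := P) E τ)) ∘ₗ (part pr Z m).subtype
  let ψ : part pr B' (m + e) →ₗ[ℚ] (E ⧸ B) := B.mkQ ∘ₗ (part pr B' (m + e)).subtype
  have hφ : ∀ x : part pr Z m, φ x = B.mkQ (τ • (x : E)) := fun x => rfl
  have hψ : ∀ x : part pr B' (m + e), ψ x = B.mkQ (x : E) := fun x => rfl
  have hker1 : (LinearMap.ker φ).map (part pr Z m).subtype = part pr Z' m := by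
    ext x
    simp only [Submodule.mem_map, LinearMap.mem_ker, Submodule.subtype_apply, Subtype.exists,
      exists_and_right, exists_eq_right]
    constructor
    · rintro ⟨hx, h⟩
      rw [hφ, ← LinearMap.mem_ker, Submodule.ker_mkQ] at h
      exact mem_part.2 ⟨(hZ' x).2 ⟨(mem_part.1 hx).1, h⟩, (mem_part.1 hx).2⟩
    · intro hx
      obtain ⟨h1, h2⟩ := mem_part.1 hx
      obtain ⟨h3, h4⟩ := (hZ' x).1 h1
      refine ⟨mem_part.2 ⟨h3, h2⟩, ?_⟩
      rw [hφ, ← LinearMap.mem_ker, Submodule.ker_mkQ]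
      exact h4
  have hker2 : (LinearMap.ker ψ).map (part pr B' (m + e)).subtype = part pr B (m + e) := by
    ext x
    simp only [Submodule.mem_map, LinearMap.mem_ker, Submodule.subtype_apply, Subtype.exists,
      exists_and_right, exists_eq_right]
    constructor
    · rintro ⟨hx, h⟩
      rw [hψ, ← LinearMap.mem_ker, Submodule.ker_mkQ] at h
      exact mem_part.2 ⟨h, (mem_part.1 hx).2⟩
    · intro hx
      refine ⟨hmono (m + e) hBB' hx, ?_⟩
      rw [hψ, ← LinearMap.mem_ker, Submodule.ker_mkQ]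
      exact (mem_part.1 hx).1
  have hrange : LinearMap.range φ = LinearMap.range ψ := by
    apply le_antisymm
    · rintro _ ⟨x, rfl⟩
      obtain ⟨h1, h2⟩ := mem_part.1 x.2
      refine ⟨⟨τ • (x : E), mem_part.2 ⟨(hB' _).2 ⟨0, B.zero_mem, x, h1, by simp⟩, ?_⟩⟩, ?_⟩
      · rw [ht, h2]
      · rw [hψ, hφ]
    · rintro _ ⟨x, rfl⟩
      obtain ⟨h1, h2⟩ := mem_part.1 x.2
      obtain ⟨b, hb, z, hz, hxz⟩ := (hB' _).1 h1
      refine ⟨⟨pr m z, mem_part.2 ⟨hZpr m z hz, hpr m z⟩⟩, ?_⟩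
      rw [hψ, hφ]
      have hx : (x : E) = pr (m + e) b + τ • pr m z := by
        rw [← ht, ← map_add, ← hxz, h2]
      rw [hx, map_add]
      have : B.mkQ (pr (m + e) b) = 0 := by
        rw [← LinearMap.mem_ker, Submodule.ker_mkQ]; exact hBpr _ b hb
      rw [this, zero_add]
  have e1 := LinearMap.finrank_range_add_finrank_ker φ
  have e2 := LinearMap.finrank_range_add_finrank_ker ψ
  have k1 : Module.finrank ℚ (LinearMap.ker φ) = Module.finrank ℚ (part pr Z' m) := by
    rw [← hker1]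
    exact (LinearEquiv.finrank_eq (Submodule.equivMapOfInjective _
      (Submodule.injective_subtype _) _))
  have k2 : Module.finrank ℚ (LinearMap.ker ψ) = Module.finrank ℚ (part pr B (m + e)) := by
    rw [← hker2]
    exact (LinearEquiv.finrank_eq (Submodule.equivMapOfInjective _
      (Submodule.injective_subtype _) _))
  rw [k1] at e1
  rw [k2, ← hrange] at e2
  omega

/-- (D) Hilbert–Serre for a subquotient `Z / B` of a graded module `E` over a commutative ring `P`,
finitely generated over the subalgebra generated by homogeneous elements `t j` of degree `e j`.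
Induct on `q`: pass to `(Z', B)` and `(Z, B + t_q Z)` with `Z' = {z ∈ Z | t_q z ∈ B}`. -/
theorem hilbert_serre {P E : Type*} [CommRing P] [Algebra ℚ P] [AddCommGroup E] [Module ℚ E]
    [Module P E] [IsScalarTower ℚ P E]
    (pr : ℕ → E →ₗ[ℚ] E)
    (hpr : ∀ m x, pr m (pr m x) = pr m x) (hpr' : ∀ m m' x, m ≠ m' → pr m (pr m' x) = 0)
    (q : ℕ) (t : Fin q → P) (e : Fin q → ℕ) (he : ∀ j, 0 < e j)
    (ht : ∀ j m x, pr (m + e j) (t j • x) = t j • pr m x)
    (ht' : ∀ j m x, m < e j → pr m (t j • x) = 0)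
    (Z B : Submodule ℚ E) (hBZ : B ≤ Z)
    (hZpr : ∀ m, ∀ z ∈ Z, pr m z ∈ Z) (hBpr : ∀ m, ∀ z ∈ B, pr m z ∈ B)
    (hZt : ∀ j, ∀ z ∈ Z, t j • z ∈ Z) (hBt : ∀ j, ∀ z ∈ B, t j • z ∈ B)
    (hZfin : ∀ z ∈ Z, ∃ M, z = ∑ m ∈ Finset.range M, pr m z)
    (hfd : ∀ m, FiniteDimensional ℚ (part pr Z m))
    (S : Finset E) (hS : ∀ s ∈ S, s ∈ Z)
    (hgen : ∀ z ∈ Z, ∃ b ∈ B, ∃ a : E → P, (∀ s, a s ∈ Algebra.adjoin ℚ (Set.range t)) ∧
      z = b + ∑ s ∈ S, a s • s) :
    ∃ p : ℚ[X], (PowerSeries.mk fun m =>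
        (Module.finrank ℚ (part pr Z m) : ℚ) - Module.finrank ℚ (part pr B m)) *
      ((∏ j, (1 - X ^ e j) : ℚ[X]) : PowerSeries ℚ) = (p : PowerSeries ℚ) := by
  classical
  induction q generalizing Z B S with
  | zero =>
    -- degree bound
    have hM : ∃ N, ∀ s ∈ S, ∀ m, N ≤ m → pr m s = 0 := by
      choose! M hMz using hZfin
      refine ⟨S.sup M, fun s hs m hm => ?_⟩
      have h1 := hMz s (hS s hs)
      rw [h1, map_sum]
      refine Finset.sum_eq_zero fun k hk => hpr' m k s ?_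
      have : M s ≤ S.sup M := Finset.le_sup hs
      have := Finset.mem_range.1 hk
      omega
    obtain ⟨N, hN⟩ := hM
    have hzero : ∀ m, N ≤ m → part pr Z m = part pr B m := by
      intro m hm
      apply le_antisymm
      · intro z hz
        obtain ⟨h1, h2⟩ := mem_part.1 hz
        obtain ⟨b, hb, a, ha, hz'⟩ := hgen z h1
        refine mem_part.2 ⟨?_, h2⟩
        have h3 : pr m z = pr m b := by
          rw [hz', map_add, map_sum]
          have : ∑ s ∈ S, pr m (a s • s) = 0 := by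
            refine Finset.sum_eq_zero fun s hs => ?_
            have has := ha s
            have hr : Set.range t = ∅ := Set.range_eq_empty t
            rw [hr, Algebra.adjoin_empty, Algebra.mem_bot] at has
            obtain ⟨c, hc⟩ := has
            rw [← hc, algebraMap_smul, map_smul, hN s hs m hm, smul_zero]
          rw [this, add_zero]
        rw [← h2, h3]
        exact hBpr m b hb
      · exact fun x hx => mem_part.2 ⟨hBZ (mem_part.1 hx).1, (mem_part.1 hx).2⟩
    refine ⟨∑ m ∈ Finset.range N, Polynomial.monomial m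
      ((Module.finrank ℚ (part pr Z m) : ℚ) - Module.finrank ℚ (part pr B m)), ?_⟩
    ext n
    simp only [Finset.univ_eq_empty, Finset.prod_empty, Polynomial.coe_one, mul_one,
      PowerSeries.coeff_mk, Polynomial.coeff_coe, Polynomial.finsetSum_coeff,
      Polynomial.coeff_monomial]
    by_cases hn : n < N
    · rw [Finset.sum_eq_single n]
      · simp
      · intro b _ hb; simp [hb]
      · intro h; exact absurd (Finset.mem_range.2 hn) h
    · rw [Finset.sum_eq_zero, hzero n (not_lt.1 hn), sub_self]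
      intro k hk
      have := Finset.mem_range.1 hk
      rw [if_neg (by omega)]
  | succ q ih =>
    set τ := t (Fin.last q) with hτ
    set d := e (Fin.last q) with hd
    -- the two auxiliary submodules
    let τL : E →ₗ[ℚ] E := Module.toModuleEnd ℚ (S := P) E τ
    have hτL : ∀ x, τL x = τ • x := fun x => rfl
    let Z' : Submodule ℚ E := Z ⊓ B.comap τL
    let B' : Submodule ℚ E := B ⊔ Z.map τL
    have hZ' : ∀ z, z ∈ Z' ↔ z ∈ Z ∧ τ • z ∈ B := fun z => Iff.rfl
    have hB' : ∀ x, x ∈ B' ↔ ∃ b ∈ B, ∃ z ∈ Z, x = b + τ • z := by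
      intro x
      constructor
      · intro hx
        obtain ⟨b, hb, y, ⟨z, hz, rfl⟩, rfl⟩ := Submodule.mem_sup.1 hx
        exact ⟨b, hb, z, hz, rfl⟩
      · rintro ⟨b, hb, z, hz, rfl⟩
        exact Submodule.add_mem_sup hb (Submodule.mem_map_of_mem hz)
    have hcomm : ∀ (a b : P) (x : E), a • b • x = b • a • x := fun a b x => smul_comm a b x
    have hBZ' : B ≤ Z' := fun b hb => (hZ' b).2 ⟨hBZ hb, hBt _ b hb⟩
    have hBB' : B ≤ B' := le_sup_left
    have hB'Z : B' ≤ Z := by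
      intro x hx
      obtain ⟨b, hb, z, hz, rfl⟩ := (hB' x).1 hx
      exact Z.add_mem (hBZ hb) (hZt _ z hz)
    have hZ'Z : Z' ≤ Z := inf_le_left
    have hmono : ∀ {U V : Submodule ℚ E} (k : ℕ), U ≤ V → part pr U k ≤ part pr V k :=
      fun k h x hx => mem_part.2 ⟨h (mem_part.1 hx).1, (mem_part.1 hx).2⟩
    -- apply induction to `(Z', B)`
    obtain ⟨S1, hS1, hgen1⟩ := sub_fg t Z Z' B hBZ' hZ'Z hZt
      (fun j z hz => by
        obtain ⟨h1, h2⟩ := (hZ' z).1 hz
        exact (hZ' _).2 ⟨hZt j z h1, by rw [hcomm]; exact hBt j _ h2⟩) hBt S hS hgen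
    obtain ⟨p2, hp2⟩ := ih (fun j => t j.castSucc) (fun j => e j.castSucc) (fun j => he _)
      (fun j m x => ht _ m x) (fun j m x h => ht' _ m x h) Z' B hBZ'
      (fun m z hz => by
        obtain ⟨h1, h2⟩ := (hZ' z).1 hz
        exact (hZ' _).2 ⟨hZpr m z h1, by rw [← ht]; exact hBpr _ _ h2⟩)
      hBpr
      (fun j z hz => by
        obtain ⟨h1, h2⟩ := (hZ' z).1 hz
        exact (hZ' _).2 ⟨hZt _ z h1, by rw [hcomm]; exact hBt _ _ h2⟩)
      (fun j z hz => hBt _ z hz)
      (fun z hz => hZfin z (hZ'Z hz))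
      (fun m => by
        have := hfd m
        exact Submodule.finiteDimensional_of_le (hmono m hZ'Z))
      S1 hS1
      (fun z hz => by
        obtain ⟨b, hb, a, ha, hz'⟩ := hgen1 z hz
        choose a' ha' c hc hac using fun s => adjoin_split t (ha s)
        refine ⟨b + ∑ s ∈ S1, c s • τ • s, ?_, a', ha', ?_⟩
        · refine B.add_mem hb (Submodule.sum_mem _ fun s hs => ?_)
          exact adjoin_smul_mem t B hBt (hc s) _ ((hZ' s).1 (hS1 s hs)).2
        · rw [hz', add_assoc, ← Finset.sum_add_distrib]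
          congr 1
          refine Finset.sum_congr rfl fun s hs => ?_
          rw [hac s, add_smul, mul_smul, hcomm (c s) τ s, add_comm])
    -- apply induction to `(Z, B')`
    obtain ⟨p1, hp1⟩ := ih (fun j => t j.castSucc) (fun j => e j.castSucc) (fun j => he _)
      (fun j m x => ht _ m x) (fun j m x h => ht' _ m x h) Z B' hB'Z
      hZpr
      (fun m x hx => by
        obtain ⟨b, hb, z, hz, rfl⟩ := (hB' x).1 hx
        rw [map_add]
        refine B'.add_mem (hBB' (hBpr m b hb)) ?_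
        by_cases hm : m < d
        · rw [ht' _ m z hm]; exact B'.zero_mem
        · obtain ⟨k, rfl⟩ := Nat.exists_eq_add_of_le' (not_lt.1 hm)
          rw [ht]
          exact (hB' _).2 ⟨0, B.zero_mem, _, hZpr k z hz, by simp [hτ]⟩)
      (fun j z hz => hZt _ z hz)
      (fun j x hx => by
        obtain ⟨b, hb, z, hz, rfl⟩ := (hB' x).1 hx
        exact (hB' _).2 ⟨_, hBt _ b hb, _, hZt _ z hz, by rw [smul_add, hcomm]⟩)
      hZfin hfd S hS
      (fun z hz => by
        obtain ⟨b, hb, a, ha, hz'⟩ := hgen z hz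
        choose a' ha' c hc hac using fun s => adjoin_split t (ha s)
        refine ⟨b + τ • ∑ s ∈ S, c s • s, (hB' _).2 ⟨b, hb, _, ?_, rfl⟩, a', ha', ?_⟩
        · refine Submodule.sum_mem _ fun s hs => ?_
          exact adjoin_smul_mem t Z hZt (hc s) _ (hS s hs)
        · rw [hz', add_assoc, Finset.smul_sum, ← Finset.sum_add_distrib]
          congr 1
          refine Finset.sum_congr rfl fun s hs => ?_
          rw [hac s, add_smul, mul_smul, add_comm])
    -- the recursion of Hilbert series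
    have hstep := finrank_step pr τ d (fun m x => ht _ m x) Z B Z' B' hBZ hZpr hBpr hpr
      (fun z hz => hZt _ z hz) hfd hZ' hB'
    have hlow : ∀ m, m < d → part pr B' m = part pr B m := by
      intro m hm
      apply le_antisymm
      · intro x hx
        obtain ⟨h1, h2⟩ := mem_part.1 hx
        obtain ⟨b, hb, z, hz, hxz⟩ := (hB' x).1 h1
        refine mem_part.2 ⟨?_, h2⟩
        have : pr m x = pr m b := by
          rw [hxz, map_add, ht' _ m z hm, add_zero]
        rw [← h2, this]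
        exact hBpr m b hb
      · exact hmono m hBB'
    set H : PowerSeries ℚ := PowerSeries.mk fun m =>
        (Module.finrank ℚ (part pr Z m) : ℚ) - Module.finrank ℚ (part pr B m) with hH
    set H1 : PowerSeries ℚ := PowerSeries.mk fun m =>
        (Module.finrank ℚ (part pr Z m) : ℚ) - Module.finrank ℚ (part pr B' m) with hH1
    set H2 : PowerSeries ℚ := PowerSeries.mk fun m =>
        (Module.finrank ℚ (part pr Z' m) : ℚ) - Module.finrank ℚ (part pr B m) with hH2
    have hrec : H * (1 - (PowerSeries.X : PowerSeries ℚ) ^ d) =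
        H1 - H2 * (PowerSeries.X : PowerSeries ℚ) ^ d := by
      ext n
      rw [mul_sub, mul_one, map_sub, map_sub, PowerSeries.coeff_mul_X_pow',
        PowerSeries.coeff_mul_X_pow']
      by_cases hn : d ≤ n
      · obtain ⟨k, rfl⟩ := Nat.exists_eq_add_of_le' hn
        rw [if_pos hn, if_pos hn, Nat.add_sub_cancel]
        simp only [hH, hH1, hH2, PowerSeries.coeff_mk]
        have := hstep k
        have h' : (Module.finrank ℚ (part pr Z k) : ℚ) + Module.finrank ℚ (part pr B (k + d)) =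
          Module.finrank ℚ (part pr Z' k) + Module.finrank ℚ (part pr B' (k + d)) := by
          exact_mod_cast this
        linarith
      · rw [if_neg hn, if_neg hn]
        simp only [hH, hH1, PowerSeries.coeff_mk]
        rw [hlow n (not_le.1 hn)]
    refine ⟨p1 - X ^ d * p2, ?_⟩
    rw [Fin.prod_univ_castSucc]
    have hc2 : ((p1 - X ^ d * p2 : ℚ[X]) : PowerSeries ℚ) =
        (p1 : PowerSeries ℚ) - (PowerSeries.X : PowerSeries ℚ) ^ d * (p2 : PowerSeries ℚ) := by
      rw [Polynomial.coe_sub, Polynomial.coe_mul, Polynomial.coe_pow, Polynomial.coe_X]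
    rw [Polynomial.coe_mul, hc2, ← hp1, ← hp2]
    have hc1 : ((1 - X ^ e (Fin.last q) : ℚ[X]) : PowerSeries ℚ) =
        1 - (PowerSeries.X : PowerSeries ℚ) ^ d := by
      rw [Polynomial.coe_sub, Polynomial.coe_one, Polynomial.coe_pow, Polynomial.coe_X]
    rw [hc1]
    linear_combination (((∏ j : Fin q, (1 - X ^ e j.castSucc) : ℚ[X]) : PowerSeries ℚ)) * hrec

end KMWanted
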