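import Pool.Agent.Lib_helper45.KM.Lin

/-! Invariants of hyperbolic pairs of reflections. -/

set_option linter.unusedSectionVars false
set_option linter.unusedSimpArgs false

open MvPolynomial

namespace KM

variable {σ : Type*} [Fintype σ]

/-- The Chebyshev-like sequence. -/
def U (τ : ℚ) : ℕ → ℚ
  | 0 => 0
  | 1 => 1
  | (k+2) => τ * U τ (k+1) - U τ k

lemma U_lt (τ : ℚ) (hτ : 2 ≤ |τ|) (d : ℕ) : |U τ d| < |U τ (d+1)| := by
  induction d with
  | zero => simp [U]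
  | succ d ih =>
    have h1 : |τ * U τ (d+1)| - |U τ d| ≤ |τ * U τ (d+1) - U τ d| := abs_sub_abs_le_abs_sub _ _
    rw [abs_mul] at h1
    have h2 : 2 * |U τ (d+1)| ≤ |τ| * |U τ (d+1)| := by gcongr
    change |U τ (d+1)| < |τ * U τ (d+1) - U τ d|
    linarith

lemma U_ne (τ : ℚ) (hτ : 2 ≤ |τ|) (d : ℕ) : U τ (d+1) ≠ 0 := by
  have := U_lt τ hτ d
  intro h
  rw [h, abs_zero] at this
  exact absurd this (not_lt.2 (abs_nonneg _))

/-- A hyperbolic pair. -/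
structure Hyp (α a β b : σ → ℚ) (m m' : ℤ) : Prop where
  haa : α ⬝ᵥ a = 2
  hbb : β ⬝ᵥ b = 2
  hab : α ⬝ᵥ b = m
  hba : β ⬝ᵥ a = m'
  hN : m * m' < 0 ∨ 4 < m * m'

lemma anis (m m' : ℤ) (hN : m * m' < 0 ∨ 4 < m * m') (x y : ℚ)
    (h : (m : ℚ) * x^2 - m * m' * x * y + m' * y^2 = 0) : x = 0 ∧ y = 0 := by
  have hm : (m : ℚ) ≠ 0 := by
    intro h0
    have : m = 0 := by exact_mod_cast h0
    subst this; simp at hN
  by_cases hy : y = 0
  · subst hy
    simp [hm] at h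
    exact ⟨h, rfl⟩
  exfalso
  set z : ℚ := m * x / y with hz
  have hz1 : z^2 - (m * m' : ℤ) * z + (m * m' : ℤ) = 0 := by
    have : z^2 - (m * m' : ℤ) * z + (m * m' : ℤ) =
        (m / y^2) * ((m : ℚ) * x^2 - m * m' * x * y + m' * y^2) := by
      rw [hz]; push_cast; field_simp
    rw [this, h, mul_zero]
  have hint : IsLocalization.IsInteger ℤ z := by
    apply isInteger_of_is_root_of_monic
      (p := Polynomial.X^2 - Polynomial.C (m*m') * Polynomial.X + Polynomial.C (m*m'))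
    · have : (Polynomial.X^2 - Polynomial.C (m*m') * Polynomial.X + Polynomial.C (m*m') :
          Polynomial ℤ) = Polynomial.X^(1+1) + (Polynomial.C (-(m*m')) * Polynomial.X +
            Polynomial.C (m*m')) := by
        rw [Polynomial.C_neg]; ring
      rw [this]
      apply Polynomial.monic_X_pow_add
      exact lt_of_le_of_lt Polynomial.degree_linear_le (by norm_num)
    · simp only [map_add, map_sub, map_mul, map_pow, Polynomial.aeval_X, Polynomial.aeval_C,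
        eq_intCast, Int.cast_mul]
      push_cast at hz1
      simpa using hz1
  obtain ⟨k, hk⟩ := hint
  have hk' : z = (k : ℚ) := by rw [← hk]; simp
  rw [hk'] at hz1
  have hz2 : k^2 - (m*m') * k + m*m' = 0 := by exact_mod_cast hz1
  have hd : (k - 1) ∣ 1 := by
    refine ⟨m*m' - (k+1), ?_⟩
    linear_combination hz2
  have h1 := Int.isUnit_iff.1 (isUnit_of_dvd_one hd)
  clear hd hk' hk hz1 hz h
  rcases h1 with h1 | h1
  · have h3 : k = 2 := by omega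
    rw [h3] at hz2
    rcases hN with h | h <;> linarith
  · have h3 : k = 0 := by omega
    rw [h3] at hz2
    rcases hN with h | h <;> linarith

lemma Hyp.abs_ge {α a β b : σ → ℚ} {m m' : ℤ} (H : Hyp α a β b m m') :
    (2 : ℚ) ≤ |(m * m' : ℚ) - 2| := by
  rcases H.hN with h | h
  · have h1 : ((m * m' : ℤ) : ℚ) < 0 := by exact_mod_cast h
    push_cast at h1
    rw [abs_of_neg (by linarith)]; linarith
  · have h1 : (4 : ℚ) < ((m * m' : ℤ) : ℚ) := by exact_mod_cast h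
    push_cast at h1
    rw [abs_of_pos (by linarith)]; linarith

lemma Hyp.det_ne {α a β b : σ → ℚ} {m m' : ℤ} (H : Hyp α a β b m m') :
    (4 : ℚ) - m * m' ≠ 0 := by
  rcases H.hN with h | h
  · have h1 : ((m * m' : ℤ) : ℚ) < 0 := by exact_mod_cast h
    push_cast at h1
    intro h2; linarith
  · have h1 : (4 : ℚ) < ((m * m' : ℤ) : ℚ) := by exact_mod_cast h
    push_cast at h1
    intro h2; linarith

lemma Hyp.m_ne {α a β b : σ → ℚ} {m m' : ℤ} (H : Hyp α a β b m m') : (m : ℚ) ≠ 0 := by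
  intro h0
  have : m = 0 := by exact_mod_cast h0
  have := H.hN
  subst m; simp at this

lemma Hyp.m'_ne {α a β b : σ → ℚ} {m m' : ℤ} (H : Hyp α a β b m m') : (m' : ℚ) ≠ 0 := by
  intro h0
  have : m' = 0 := by exact_mod_cast h0
  have := H.hN
  subst m'; simp at this

/-- conjugated root -/
def cj (β b γ : σ → ℚ) : σ → ℚ := γ - (γ ⬝ᵥ b) • β

/-- The dihedral family of roots. -/
def gs (α a β b γ : σ → ℚ) : ℕ → (σ → ℚ)
  | 0 => γ
  | (k+1) => cj α a (cj β b (gs α a β b γ k))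

section
variable {α a β b : σ → ℚ} {m m' : ℤ} (H : Hyp α a β b m m')
include H

lemma gs_a (γ : σ → ℚ) (k : ℕ) : gs α a β b γ (k+1) ⬝ᵥ a =
    - (gs α a β b γ k ⬝ᵥ a) + m' * (gs α a β b γ k ⬝ᵥ b) := by
  simp only [gs, cj, sub_dotProduct, smul_dotProduct, H.haa, H.hbb, H.hab, H.hba, smul_eq_mul]
  ring

lemma gs_b (γ : σ → ℚ) (k : ℕ) : gs α a β b γ (k+1) ⬝ᵥ b =
    - m * (gs α a β b γ k ⬝ᵥ a) + (m * m' - 1) * (gs α a β b γ k ⬝ᵥ b) := by
  simp only [gs, cj, sub_dotProduct, smul_dotProduct, H.haa, H.hbb, H.hab, H.hba, smul_eq_mul]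
  ring

lemma gs_rec_a (γ : σ → ℚ) (k : ℕ) : gs α a β b γ (k+2) ⬝ᵥ a =
    (m * m' - 2) * (gs α a β b γ (k+1) ⬝ᵥ a) - gs α a β b γ k ⬝ᵥ a := by
  rw [gs_a H, gs_a H, gs_b H]; ring

lemma gs_rec_b (γ : σ → ℚ) (k : ℕ) : gs α a β b γ (k+2) ⬝ᵥ b =
    (m * m' - 2) * (gs α a β b γ (k+1) ⬝ᵥ b) - gs α a β b γ k ⬝ᵥ b := by
  rw [gs_b H, gs_a H, gs_b H]; ring

lemma gs_cross0 (γ : σ → ℚ) (k : ℕ) :
    (gs α a β b γ k ⬝ᵥ a) * (gs α a β b γ (k+1) ⬝ᵥ b) -
      (gs α a β b γ (k+1) ⬝ᵥ a) * (gs α a β b γ k ⬝ᵥ b) =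
    - (m * (γ ⬝ᵥ a)^2 - m * m' * (γ ⬝ᵥ a) * (γ ⬝ᵥ b) + m' * (γ ⬝ᵥ b)^2) := by
  induction k with
  | zero => rw [gs_a H, gs_b H]; simp only [gs]; ring
  | succ k ih =>
    rw [← ih, gs_rec_a H, gs_rec_b H]; ring

lemma gs_cross (γ : σ → ℚ) (k d : ℕ) :
    (gs α a β b γ k ⬝ᵥ a) * (gs α a β b γ (k+d) ⬝ᵥ b) -
      (gs α a β b γ (k+d) ⬝ᵥ a) * (gs α a β b γ k ⬝ᵥ b) =
    - U (m * m' - 2) d *
      (m * (γ ⬝ᵥ a)^2 - m * m' * (γ ⬝ᵥ a) * (γ ⬝ᵥ b) + m' * (γ ⬝ᵥ b)^2) := by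
  induction d using Nat.twoStepInduction with
  | zero => simp [U]
  | one => rw [gs_cross0 H]; simp [U]
  | more d ih1 ih2 =>
    have e1 : k + (d+2) = (k+d)+2 := by ring
    have e2 : k + (d+1) = (k+d)+1 := by ring
    rw [e1, gs_rec_a H, gs_rec_b H]
    rw [e2] at ih2
    simp only [U]
    linear_combination (m * m' - 2) * ih2 - ih1

lemma gs_cross_ne (γ : σ → ℚ) (hγ : γ ⬝ᵥ a ≠ 0 ∨ γ ⬝ᵥ b ≠ 0) (k l : ℕ) (hkl : k < l) :
    (gs α a β b γ k ⬝ᵥ a) * (gs α a β b γ l ⬝ᵥ b) -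
      (gs α a β b γ l ⬝ᵥ a) * (gs α a β b γ k ⬝ᵥ b) ≠ 0 := by
  obtain ⟨d, rfl⟩ := Nat.exists_eq_add_of_lt hkl
  rw [show k + d + 1 = k + (d+1) by ring, gs_cross H]
  apply mul_ne_zero
  · rw [neg_ne_zero]
    exact U_ne _ H.abs_ge d
  · intro h0
    have := anis m m' H.hN _ _ h0
    rcases hγ with h | h
    · exact h this.1
    · exact h this.2

lemma gs_ne (γ : σ → ℚ) (hγ : γ ⬝ᵥ a ≠ 0 ∨ γ ⬝ᵥ b ≠ 0) (k : ℕ) : gs α a β b γ k ≠ 0 := by
  intro h0
  have := gs_cross_ne H γ hγ k (k+1) (by omega)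
  rw [h0] at this
  simp at this

lemma gs_not_dvd (γ : σ → ℚ) (hγ : γ ⬝ᵥ a ≠ 0 ∨ γ ⬝ᵥ b ≠ 0) (k l : ℕ) (hkl : k < l) :
    ¬ lin (gs α a β b γ l) ∣ lin (gs α a β b γ k) := by
  intro hd
  have h1 := lin_dvd_lin hd a b
  apply gs_cross_ne H γ hγ k l hkl
  linear_combination -h1

/-- (K0) -/
lemma K0 {h : MvPolynomial σ ℚ} (ha : Inv h α a) (hb : Inv h β b) {γ : σ → ℚ}
    (hγ : γ ⬝ᵥ a ≠ 0 ∨ γ ⬝ᵥ b ≠ 0) (hd : lin γ ∣ h) : h = 0 := by
  apply eq_zero_of_dvd h (gs α a β b γ) (gs_ne H γ hγ) (gs_not_dvd H γ hγ)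
  intro k
  induction k with
  | zero => exact hd
  | succ k ih =>
    have h1 : lin (cj β b (gs α a β b γ k)) ∣ h := by
      have := map_dvd (R β b) ih
      rwa [hb.R_eq, R_lin] at this
    have := map_dvd (R α a) h1
    rwa [ha.R_eq, R_lin] at this

lemma L1aux {h : MvPolynomial σ ℚ} (ha : Inv h α a) (hb : Inv h β b) (k : ℕ) :
    ∃ x y : ℚ, gs α a β b α k = x • α + y • β ∧
      Inv h (gs α a β b α k) (x • a + (m' / m * y) • b) := by
  induction k with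
  | zero => exact ⟨1, 0, by simp [gs], by simpa [gs] using ha⟩
  | succ k ih =>
    obtain ⟨x, y, h1, h2⟩ := ih
    have h3 := ha.conj (hb.conj h2)
    have hm := H.m_ne
    refine ⟨(m * m' - 1) * x + m' * y, - m * x - y, ?_, ?_⟩
    · simp only [gs, cj, h1, sub_dotProduct, add_dotProduct, smul_dotProduct, H.haa, H.hbb, H.hab,
        H.hba, smul_eq_mul]
      ext i
      simp only [Pi.add_apply, Pi.sub_apply, Pi.smul_apply, smul_eq_mul]
      ring
    · have e : (((m : ℚ) * m' - 1) * x + m' * y) • a + ((m' : ℚ) / m * (- m * x - y)) • b =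
        (x • a + (m' / m * y) • b - (β ⬝ᵥ (x • a + (m' / m * y) • b)) • b) -
          (α ⬝ᵥ (x • a + (m' / m * y) • b - (β ⬝ᵥ (x • a + (m' / m * y) • b)) • b)) • a := by
        simp only [dotProduct_sub, dotProduct_add, dotProduct_smul, H.haa, H.hbb, H.hab,
          H.hba, smul_eq_mul]
        ext i
        simp only [Pi.add_apply, Pi.sub_apply, Pi.smul_apply, smul_eq_mul]
        field_simp
        ring
      rw [e]
      exact h3

lemma L1 {h : MvPolynomial σ ℚ} (ha : Inv h α a) (hb : Inv h β b) :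
    C (m : ℚ) * lin β * D a h = C (m' : ℚ) * lin α * D b h := by
  have hα : α ⬝ᵥ a ≠ 0 ∨ α ⬝ᵥ b ≠ 0 := by left; rw [H.haa]; norm_num
  rw [← sub_eq_zero]
  apply eq_zero_of_dvd _ (fun k => gs α a β b α (k+1)) (fun k => gs_ne H α hα (k+1))
    (fun k l hkl => gs_not_dvd H α hα (k+1) (l+1) (by omega))
  intro k
  obtain ⟨x, y, h1, h2⟩ := L1aux H ha hb (k+1)
  have hy : y ≠ 0 := by
    rintro rfl
    have := gs_cross_ne H α hα 0 (k+1) (by omega)
    rw [h1] at this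
    simp only [gs, smul_dotProduct, zero_smul, add_zero, smul_eq_mul] at this
    apply this; ring
  have h3 := h2.lin_dvd
  have hm := H.m_ne
  have h4 : C (m : ℚ) * lin β * D a h - C (m' : ℚ) * lin α * D b h =
      C (1/y) * (C (m : ℚ) * lin (gs α a β b α (k+1)) * D a h -
        C (m : ℚ) * lin α * D (x • a + (m' / m * y) • b) h) := by
    rw [h1, lin_add, lin_smul, lin_smul, D_add_apply, D_smul_apply, D_smul_apply]
    have e1 : (C (m' / m * y) : MvPolynomial σ ℚ) = C (m' : ℚ) * C (1/m : ℚ) * C y := by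
      rw [← C_mul, ← C_mul]; congr 1; ring
    have e2 : (C (1/m : ℚ) : MvPolynomial σ ℚ) * C (m : ℚ) = 1 := by
      rw [← C_mul, ← C_1]; congr 1; field_simp
    have e3 : (C (1/y : ℚ) : MvPolynomial σ ℚ) * C y = 1 := by
      rw [← C_mul, ← C_1]; congr 1; field_simp
    rw [e1]
    linear_combination (-C (m : ℚ) * lin β * D a h + C (m' : ℚ) * lin α * D b h) * e3 +
      (C (1/y) * lin α * C (m' : ℚ) * C y * D b h) * e2
  rw [h4]
  apply Dvd.dvd.mul_left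
  apply dvd_sub
  · exact Dvd.dvd.mul_right (Dvd.dvd.mul_left (dvd_refl _) _) _
  · exact Dvd.dvd.mul_left h3 _

end

end KM
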