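import Pool.Agent.Lib_helper45.KM.Hyp

/-! Invariants of hyperbolic pairs of reflections, part 2. -/

set_option linter.unusedSectionVars false
set_option linter.unusedSimpArgs false

open MvPolynomial

namespace KM

variable {σ : Type*} [Fintype σ]

lemma C_ne {c : ℚ} (hc : c ≠ 0) : (C c : MvPolynomial σ ℚ) ≠ 0 := by simpa using hc

lemma ne_zero_of_dot {φ v : σ → ℚ} (h : φ ⬝ᵥ v ≠ 0) : φ ≠ 0 := by
  rintro rfl; simp at h

lemma prop_of_dvd {γ ω : σ → ℚ} {u : σ → ℚ} (hu : γ ⬝ᵥ u ≠ 0) (h : lin γ ∣ lin ω) :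
    ∃ κ : ℚ, ω = κ • γ := by
  refine ⟨(ω ⬝ᵥ u) / (γ ⬝ᵥ u), ?_⟩
  rw [← sub_eq_zero]
  apply dotProduct_eq_zero
  intro v
  have := lin_dvd_lin h u v
  rw [sub_dotProduct, smul_dotProduct, smul_eq_mul]
  field_simp
  linear_combination this

section
variable {α a β b : σ → ℚ} {m m' : ℤ} (H : Hyp α a β b m m')
include H

lemma L2 {h : MvPolynomial σ ℚ} (ha : Inv h α a) (hb : Inv h β b) :
    ∃ h1, D a h = C (m' : ℚ) * lin α * h1 ∧ D b h = C (m : ℚ) * lin β * h1 ∧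
      Inv h1 α a ∧ Inv h1 β b ∧ (h1 ≠ 0 → h1.totalDegree < h.totalDegree) := by
  obtain ⟨h', hh'⟩ := ha.lin_dvd
  obtain ⟨h'', hh''⟩ := hb.lin_dvd
  have hm := H.m_ne
  have hm' := H.m'_ne
  have hα : lin α ≠ 0 := lin_ne_zero (ne_zero_of_dot (v := a) (by rw [H.haa]; norm_num))
  have hβ : lin β ≠ 0 := lin_ne_zero (ne_zero_of_dot (v := b) (by rw [H.hbb]; norm_num))
  have e1 : (C (m' : ℚ) : MvPolynomial σ ℚ) * C (1/m' : ℚ) = 1 := by
    rw [← C_mul, ← C_1]; congr 1; field_simp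
  have h1 := L1 H ha hb
  rw [hh', hh''] at h1
  have h2 : C (m : ℚ) * h' = C (m' : ℚ) * h'' := by
    apply mul_left_cancel₀ (mul_ne_zero hα hβ)
    linear_combination h1
  have ea : D a h = C (m' : ℚ) * lin α * (C (1/m' : ℚ) * h') := by
    rw [hh']
    linear_combination -lin α * h' * e1
  have eb : D b h = C (m : ℚ) * lin β * (C (1/m' : ℚ) * h') := by
    rw [hh'']
    linear_combination -lin β * C (1/m' : ℚ) * h2 - lin β * h'' * e1
  refine ⟨C (1/m' : ℚ) * h', ea, eb, ?_, ?_, ?_⟩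
  · apply Inv.of_R_eq H.haa
    have := ha.R_D a
    rw [refl_self H.haa, D_neg_apply, ea, map_mul, map_mul, R_C, R_lin, H.haa] at this
    have e2 : lin (α - (2 : ℚ) • α) = -lin α := by
      rw [← lin_neg]; congr 1; ext i; simp; ring
    rw [e2] at this
    apply mul_left_cancel₀ (mul_ne_zero (C_ne hm') hα)
    linear_combination -this
  · apply Inv.of_R_eq H.hbb
    have := hb.R_D b
    rw [refl_self H.hbb, D_neg_apply, eb, map_mul, map_mul, R_C, R_lin, H.hbb] at this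
    have e2 : lin (β - (2 : ℚ) • β) = -lin β := by
      rw [← lin_neg]; congr 1; ext i; simp; ring
    rw [e2] at this
    apply mul_left_cancel₀ (mul_ne_zero (C_ne hm) hβ)
    linear_combination -this
  · intro h0
    exact totalDegree_lt_of_D_eq hm' (ne_zero_of_dot (v := a) (by rw [H.haa]; norm_num)) h0 ea

lemma q_ne {x y : ℚ} (hxy : x ≠ 0 ∨ y ≠ 0) :
    ((x * m') • α + (y * m) • β) ⬝ᵥ (x • a + y • b) ≠ 0 := by
  simp only [dotProduct_add, add_dotProduct, smul_dotProduct, dotProduct_smul, H.haa, H.hbb,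
    H.hab, H.hba, smul_eq_mul]
  intro h0
  have := anis m m' H.hN y (-x) (by linear_combination h0 / 2)
  rcases hxy with h | h
  · exact h (neg_eq_zero.1 this.2)
  · exact h this.1

/-- (L3) -/
lemma L3 {h : MvPolynomial σ ℚ} (ha : Inv h α a) (hb : Inv h β b) {x y : ℚ}
    (hxy : x ≠ 0 ∨ y ≠ 0) :
    Inv h ((2 / (((x * m') • α + (y * m) • β) ⬝ᵥ (x • a + y • b))) •
      ((x * m') • α + (y * m) • β)) (x • a + y • b) := by
  have hq := q_ne H hxy
  set ψ := (x * m') • α + (y * m) • β with hψ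
  set e := x • a + y • b with he
  set q := ψ ⬝ᵥ e with hq'
  have h2 : ((2 / q) • ψ) ⬝ᵥ e = 2 := by
    rw [smul_dotProduct, ← hq', smul_eq_mul]; field_simp
  induction hN : h.totalDegree using Nat.strong_induction_on generalizing h with
  | _ N ih =>
    obtain ⟨h1, e1, e2, e3, e4, e5⟩ := L2 H ha hb
    have h1inv : Inv h1 ((2 / q) • ψ) e := by
      by_cases h0 : h1 = 0
      · subst h0
        exact ⟨h2, fun v => by simp⟩
      · exact ih h1.totalDegree (by rw [← hN]; exact e5 h0) e3 e4 rfl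
    have hD : D e h = lin ψ * h1 := by
      rw [he, D_add_apply, D_smul_apply, D_smul_apply, e1, e2, hψ, lin_add, lin_smul, lin_smul,
        C_mul, C_mul]
      ring
    apply Inv.of_R_eq h2
    set k := R ((2 / q) • ψ) e h - h with hk
    have hk1 : D e k = 0 := by
      rw [hk, map_sub, D_R, refl_self h2, D_neg_apply, hD, map_neg, map_mul, h1inv.R_eq, R_lin,
        ← hq']
      have : ψ - q • (2 / q) • ψ = -ψ := by
        rw [smul_smul]
        have : q * (2 / q) = 2 := by field_simp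
        rw [this]; ext i; simp; ring
      rw [this, lin_neg]; ring
    have hk2 : R ((2 / q) • ψ) e k = k := by
      apply MvPolynomial.funext
      intro v
      rw [R_eval]
      have := eval_add_smul_of_D_eq_zero e k hk1 v (-(((2 / q) • ψ) ⬝ᵥ v))
      rw [← this]
      congr 2
      ext i; simp [refl]; ring
    have hk3 : R ((2 / q) • ψ) e k = -k := by
      have hRR : R ((2 / q) • ψ) e (R ((2 / q) • ψ) e h) = h := by
        apply MvPolynomial.funext
        intro v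
        rw [R_eval, R_eval, refl_refl h2]
      rw [hk, map_sub, hRR]; ring
    have hk4 : k = 0 := by
      have : k = -k := by rw [← hk3, hk2]
      have h5 : (2 : MvPolynomial σ ℚ) * k = 0 := by linear_combination this
      rcases mul_eq_zero.1 h5 with h6 | h6
      · exact absurd h6 (by norm_num)
      · exact h6
    exact sub_eq_zero.1 hk4

/-- (L5) -/
lemma L5 {f g : MvPolynomial σ ℚ} (ha : Inv f α a) (hb : Inv f β b) (ga : Inv g α a)
    (gb : Inv g β b) (hg : g ≠ 0) (hDa : D a f = C (m' : ℚ) * lin α * g)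
    (hDb : D b f = C (m : ℚ) * lin β * g) {γ c : σ → ℚ} (hc : Inv f γ c)
    (hγ : γ ⬝ᵥ a ≠ 0 ∨ γ ⬝ᵥ b ≠ 0) : ∃ κ : ℚ, D c f = C κ * lin γ * g := by
  have hdet := H.det_ne
  set x := (2 * (α ⬝ᵥ c) - m * (β ⬝ᵥ c)) / (4 - m * m') with hx
  set y := (2 * (β ⬝ᵥ c) - m' * (α ⬝ᵥ c)) / (4 - m * m') with hy
  set cp := c - (x • a + y • b) with hcp
  have hαc : α ⬝ᵥ cp = 0 := by
    simp only [hcp, dotProduct_sub, dotProduct_add, dotProduct_smul, H.haa, H.hab, smul_eq_mul]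
    rw [hx, hy]; field_simp; ring
  have hβc : β ⬝ᵥ cp = 0 := by
    simp only [hcp, dotProduct_sub, dotProduct_add, dotProduct_smul, H.hbb, H.hba, smul_eq_mul]
    rw [hx, hy]; field_simp; ring
  set F := D cp f with hF
  have Fa : Inv F α a := by
    apply Inv.of_R_eq H.haa
    rw [hF, ha.R_D, refl, hαc, zero_smul, sub_zero]
  have Fb : Inv F β b := by
    apply Inv.of_R_eq H.hbb
    rw [hF, hb.R_D, refl, hβc, zero_smul, sub_zero]
  set ψ := (x * m') • α + (y * m) • β with hψ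
  have hDc : D c f = F + lin ψ * g := by
    have : c = cp + (x • a + y • b) := by rw [hcp]; simp
    rw [this, D_add_apply, D_add_apply, D_smul_apply, D_smul_apply, hDa, hDb, hψ, lin_add,
      lin_smul, lin_smul, C_mul, C_mul]
    ring
  have hpq : γ ⬝ᵥ b ≠ 0 ∨ -(γ ⬝ᵥ a) ≠ 0 := by
    rcases hγ with h | h
    · right; exact neg_ne_zero.2 h
    · left; exact h
  have hq := q_ne H hpq
  have Fe := L3 H Fa Fb hpq
  have ge := L3 H ga gb hpq
  set ψe := ((γ ⬝ᵥ b) * m') • α + (-(γ ⬝ᵥ a) * m) • β with hψe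
  set e := (γ ⬝ᵥ b) • a + (-(γ ⬝ᵥ a)) • b with he
  set ε := (2 / (ψe ⬝ᵥ e)) • ψe with hε
  have hγe : γ ⬝ᵥ e = 0 := by
    rw [he]; simp only [dotProduct_add, dotProduct_smul, smul_eq_mul]; ring
  have hd1 : lin γ ∣ F + lin ψ * g := by rw [← hDc]; exact hc.lin_dvd
  have hd2 : lin γ ∣ F + lin (ψ - (ψ ⬝ᵥ e) • ε) * g := by
    have := map_dvd (R ε e) hd1
    rwa [map_add, map_mul, Fe.R_eq, ge.R_eq, R_lin, R_lin, hγe, zero_smul, sub_zero] at this
  set θ := ψ - ((ψ ⬝ᵥ e) / 2) • ε with hθ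
  have hd3 : lin γ ∣ F + lin θ * g := by
    have h5 : F + lin θ * g = C (1/2) * ((F + lin ψ * g) + (F + lin (ψ - (ψ ⬝ᵥ e) • ε) * g)) := by
      have h6 : lin θ = C (1/2) * (lin ψ + lin (ψ - (ψ ⬝ᵥ e) • ε)) := by
        rw [← lin_add, ← lin_smul, hθ]; congr 1; ext i; simp; ring
      have h7 : F = C (1/2) * (F + F) := by
        have : (C (1/2 : ℚ) : MvPolynomial σ ℚ) * C 2 = 1 := by
          rw [← C_mul, ← C_1]; congr 1; norm_num
        have h8 : (C 2 : MvPolynomial σ ℚ) = 2 := map_ofNat C 2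
        rw [h8] at this
        linear_combination -F * this
      rw [h6]
      linear_combination h7
    rw [h5]
    exact Dvd.dvd.mul_left (dvd_add hd1 hd2) _
  have hεe : ε ⬝ᵥ e = 2 := Fe.1
  have hθe : θ ⬝ᵥ e = 0 := by
    rw [hθ, sub_dotProduct, smul_dotProduct, hεe, smul_eq_mul]; ring
  obtain ⟨κ, k1, k2⟩ : ∃ κ : ℚ, θ ⬝ᵥ a = κ * (γ ⬝ᵥ a) ∧ θ ⬝ᵥ b = κ * (γ ⬝ᵥ b) := by
    have h5 : (γ ⬝ᵥ b) * (θ ⬝ᵥ a) = (γ ⬝ᵥ a) * (θ ⬝ᵥ b) := by
      have := hθe
      rw [he] at this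
      simp only [dotProduct_add, dotProduct_smul, smul_eq_mul] at this
      linear_combination this
    rcases hγ with h | h
    · refine ⟨(θ ⬝ᵥ a) / (γ ⬝ᵥ a), by field_simp, ?_⟩
      field_simp; linear_combination -h5
    · refine ⟨(θ ⬝ᵥ b) / (γ ⬝ᵥ b), ?_, by field_simp⟩
      field_simp; linear_combination h5
  set δ := θ - κ • γ with hδ
  have hδa : δ ⬝ᵥ a = 0 := by
    rw [hδ, sub_dotProduct, smul_dotProduct, k1, smul_eq_mul]; ring
  have hδb : δ ⬝ᵥ b = 0 := by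
    rw [hδ, sub_dotProduct, smul_dotProduct, k2, smul_eq_mul]; ring
  have hd4 : lin γ ∣ F + lin δ * g := by
    have : F + lin δ * g = (F + lin θ * g) - lin γ * (C κ * g) := by
      rw [hδ, lin_sub, lin_smul]; ring
    rw [this]
    exact dvd_sub hd3 (dvd_mul_right _ _)
  have hG : F + lin δ * g = 0 := by
    apply K0 H _ _ hγ hd4
    · apply Inv.of_R_eq H.haa
      rw [map_add, map_mul, Fa.R_eq, ga.R_eq, R_lin, hδa, zero_smul, sub_zero]
    · apply Inv.of_R_eq H.hbb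
      rw [map_add, map_mul, Fb.R_eq, gb.R_eq, R_lin, hδb, zero_smul, sub_zero]
  have hDc2 : D c f = lin (ψ - δ) * g := by
    rw [hDc, lin_sub]; linear_combination hG
  have hd5 : lin γ ∣ lin (ψ - δ) * g := by rw [← hDc2]; exact hc.lin_dvd
  have hγ0 : ∃ u, γ ⬝ᵥ u ≠ 0 := by
    rcases hγ with h | h
    · exact ⟨_, h⟩
    · exact ⟨_, h⟩
  obtain ⟨u, hu⟩ := hγ0
  rcases (lin_prime (ne_zero_of_dot hu)).dvd_or_dvd hd5 with h | h
  · obtain ⟨κ', hκ'⟩ := prop_of_dvd hu h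
    refine ⟨κ', ?_⟩
    rw [hDc2, hκ', lin_smul]
  · exact absurd (K0 H ga gb hγ h) hg

end

/-- (HZ) half-zero pairs. -/
lemma HZ {f : MvPolynomial σ ℚ} {α a β b : σ → ℚ} (ha : Inv f α a) (hb : Inv f β b)
    (h0 : α ⬝ᵥ b = 0) (h1 : β ⬝ᵥ a ≠ 0) : D b f = 0 := by
  have key : ∀ k : ℕ, Inv f (β - (k * (β ⬝ᵥ a)) • α) b := by
    intro k
    induction k with
    | zero => simpa using hb
    | succ k ih =>
      have h2 := (ha.conj (hb.conj ih)).neg
      convert h2 using 1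
      · simp only [sub_dotProduct, smul_dotProduct, ha.1, hb.1, h0, smul_eq_mul]
        ext i
        simp only [Pi.add_apply, Pi.sub_apply, Pi.smul_apply, Pi.neg_apply, smul_eq_mul]
        push_cast
        ring
      · simp only [dotProduct_sub, dotProduct_smul, ha.1, hb.1, h0, smul_eq_mul]
        ext i
        simp only [Pi.add_apply, Pi.sub_apply, Pi.smul_apply, Pi.neg_apply, smul_eq_mul]
        ring
  apply eq_zero_of_dvd (D b f) (fun k => β - ((k : ℚ) * (β ⬝ᵥ a)) • α)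
  · intro k
    apply ne_zero_of_dot (v := b)
    rw [(key k).1]; norm_num
  · intro k l hkl hd
    have h2 := lin_dvd_lin hd a b
    simp only [sub_dotProduct, smul_dotProduct, ha.1, hb.1, h0, smul_eq_mul] at h2
    have h3 : ((k : ℚ) - l) * (β ⬝ᵥ a) = 0 := by linear_combination h2 / 4
    rcases mul_eq_zero.1 h3 with h4 | h4
    · have : (k : ℚ) = l := by linarith
      have : k = l := by exact_mod_cast this
      omega
    · exact h1 h4
  · intro k
    exact (key k).lin_dvd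

/-- (L6) -/
lemma L6 {f g : MvPolynomial σ ℚ} {α a γ c δ d : σ → ℚ} {m' κ : ℚ} (hm' : m' ≠ 0)
    (ha : Inv f α a) (hg : g ≠ 0) (hDa : D a f = C m' * lin α * g)
    (hc : Inv f γ c) (hγa : γ ⬝ᵥ a = 0)
    (hD : D d f = C κ * lin δ * g) (hγd : γ ⬝ᵥ d ≠ 0) :
    ∃ κ' : ℚ, D c f = C κ' * lin γ * g := by
  have hα : lin α ≠ 0 := lin_ne_zero (ne_zero_of_dot (v := a) (by rw [ha.1]; norm_num))
  have hαc : α ⬝ᵥ c = 0 := by
    by_contra h
    have := HZ hc ha hγa h
    rw [hDa] at this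
    exact mul_ne_zero (mul_ne_zero (C_ne hm') hα) hg this
  have gγ : R γ c g = g := by
    have h1 := hc.R_D a
    rw [refl, hγa, zero_smul, sub_zero, hDa, map_mul, map_mul, R_C, R_lin, hαc, zero_smul,
      sub_zero] at h1
    apply mul_left_cancel₀ (mul_ne_zero (C_ne hm') hα)
    exact h1
  have h2 := hc.R_D d
  rw [refl, D_sub_apply, D_smul_apply, hD, map_mul, map_mul, R_C, R_lin, gγ, lin_sub,
    lin_smul] at h2
  refine ⟨κ * (δ ⬝ᵥ c) / (γ ⬝ᵥ d), ?_⟩
  have e1 : (C (κ * (δ ⬝ᵥ c) / (γ ⬝ᵥ d)) : MvPolynomial σ ℚ) =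
      C κ * C (δ ⬝ᵥ c) * C (1 / (γ ⬝ᵥ d)) := by
    rw [← C_mul, ← C_mul]; congr 1; ring
  have e2 : (C (1/(γ ⬝ᵥ d) : ℚ) : MvPolynomial σ ℚ) * C (γ ⬝ᵥ d : ℚ) = 1 := by
    rw [← C_mul, ← C_1]; congr 1; field_simp
  rw [e1]
  linear_combination C (1 / (γ ⬝ᵥ d)) * h2 - D c f * e2

end KM
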