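import Pool.Agent.Lib_helper45.KM.Inv

/-! In indefinite type there is a hyperbolic pair. -/

set_option linter.unusedSectionVars false
set_option linter.unusedSimpArgs false

open MvPolynomial

namespace KM

variable {σ : Type*} [Fintype σ] {ι : Type*} [Fintype ι]

variable {α e : ι → σ → ℚ} {A : ι → ι → ℤ}

/-- Averaging contradiction. -/
lemma no_finite_set (A : ι → ι → ℤ) (hA2 : ∀ i, A i i = 2) (Φ : Finset (ι → ℤ))
    (hcl : ∀ φ ∈ Φ, ∀ i, (fun j => φ j - φ i * A j i) ∈ Φ)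
    (hne : ∀ i, ∃ φ ∈ Φ, φ i ≠ 0)
    (u : ι → ℝ) (hu : ∀ i, 0 < u i) (hAu : ∀ i, ∑ j, (A i j : ℝ) * u j < 0) [Nonempty ι] :
    False := by
  classical
  set Cm : ι → ι → ℤ := fun j k => ∑ φ ∈ Φ, φ j * φ k with hCm
  have hsymm : ∀ j k, Cm j k = Cm k j := by
    intro j k; simp only [hCm]; exact Finset.sum_congr rfl (fun φ _ => mul_comm _ _)
  -- invariance
  have hinv : ∀ i k, 2 * Cm i k = A k i * Cm i i := by
    intro i k
    have h1 : ∑ φ ∈ Φ, (φ i - φ i * A i i) * (φ k - φ i * A k i) = Cm i k := by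
      simp only [hCm]
      apply Finset.sum_nbij' (fun φ => (fun j => φ j - φ i * A j i))
        (fun φ => (fun j => φ j - φ i * A j i))
      · intro φ hφ; exact hcl φ hφ i
      · intro φ hφ; exact hcl φ hφ i
      · intro φ _; ext j; simp only [hA2]; ring
      · intro φ _; ext j; simp only [hA2]; ring
      · intro φ _; rfl
    have h2 : ∑ φ ∈ Φ, (φ i - φ i * A i i) * (φ k - φ i * A k i) =
        - Cm i k + A k i * Cm i i := by
      simp only [hCm, hA2]
      rw [Finset.mul_sum, ← Finset.sum_neg_distrib, ← Finset.sum_add_distrib]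
      apply Finset.sum_congr rfl
      intro φ _; ring
    linarith
  have hpos : ∀ i, 0 < Cm i i := by
    intro i
    obtain ⟨φ, hφ, h0⟩ := hne i
    simp only [hCm]
    exact Finset.sum_pos' (f := fun φ : ι → ℤ => φ i * φ i) (fun φ _ => mul_self_nonneg _)
      ⟨φ, hφ, mul_self_pos.2 h0⟩
  set x : ι → ℝ := fun j => u j / Cm j j with hx
  have hposR : ∀ i, (0 : ℝ) < Cm i i := fun i => by exact_mod_cast hpos i
  have hxpos : ∀ j, 0 < x j := fun j => div_pos (hu j) (hposR j)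
  have hq : 0 ≤ ∑ φ ∈ Φ, (∑ j, (φ j : ℝ) * x j)^2 := Finset.sum_nonneg (fun _ _ => sq_nonneg _)
  have hq2 : ∑ φ ∈ Φ, (∑ j, (φ j : ℝ) * x j)^2 = ∑ k, x k * ∑ j, x j * (Cm j k : ℝ) := by
    have : ∀ φ : ι → ℤ, (∑ j, (φ j : ℝ) * x j)^2 =
        ∑ k, ∑ j, x k * (x j * ((φ j : ℝ) * φ k)) := by
      intro φ
      rw [sq, Finset.sum_mul_sum, Finset.sum_comm]
      apply Finset.sum_congr rfl; intro k _
      apply Finset.sum_congr rfl; intro j _
      ring
    simp only [this]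
    rw [Finset.sum_comm]
    apply Finset.sum_congr rfl; intro k _
    rw [Finset.sum_comm, Finset.mul_sum]
    apply Finset.sum_congr rfl; intro j _
    simp only [hCm]
    push_cast
    rw [Finset.mul_sum, Finset.mul_sum]
  have hlt : ∑ k, x k * ∑ j, x j * (Cm j k : ℝ) < 0 := by
    have h3 : ∀ k, ∑ j, x j * (Cm j k : ℝ) = (1/2) * ∑ j, (A k j : ℝ) * u j := by
      intro k
      rw [Finset.mul_sum]
      apply Finset.sum_congr rfl; intro j _
      have h4 : (2 : ℝ) * Cm j k = A k j * Cm j j := by exact_mod_cast hinv j k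
      have h5 := (hposR j).ne'
      simp only [hx]
      field_simp
      linear_combination u j * h4
    have h6 : ∀ k, x k * ∑ j, x j * (Cm j k : ℝ) < 0 := by
      intro k
      rw [h3]
      have := hAu k
      apply mul_neg_of_pos_of_neg (hxpos k)
      linarith
    exact Finset.sum_neg (fun k _ => h6 k) Finset.univ_nonempty
  linarith

/-- (L7) -/
lemma exists_hyp {f : MvPolynomial σ ℚ} (hA : ∀ i j, α j ⬝ᵥ e i = A i j)
    (hA2 : ∀ i, A i i = 2) (hf : ∀ i, Inv f (α i) (e i)) (hD : ∀ i, D (e i) f ≠ 0)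
    [Nonempty ι] (u : ι → ℝ) (hu : ∀ i, 0 < u i) (hAu : ∀ i, ∑ j, (A i j : ℝ) * u j < 0) :
    ∃ (j : ι) (β b : σ → ℚ) (m m' : ℤ), RR α e β b ∧ Hyp (α j) (e j) β b m m' := by
  classical
  by_contra hcon
  push Not at hcon
  have hbound : ∀ β b, RR α e β b → ∀ j, ∀ z : ℤ, β ⬝ᵥ e j = z → |z| ≤ 4 := by
    intro β b hR j z hz
    obtain ⟨w, hw⟩ := (hR.int hA).2 j
    by_cases hz0 : z = 0
    · subst hz0; simp
    have hw0 : w ≠ 0 := by
      rintro rfl
      refine hR.D_ne hf hD (HZ (hf j) (hR.inv hf) (by rw [hw]; simp) ?_)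
      rw [hz]; exact_mod_cast hz0
    have hno : ¬ (w * z < 0 ∨ 4 < w * z) := by
      intro hN
      exact hcon j β b w z hR ⟨(hf j).1, (hR.inv hf).1, hw, hz, hN⟩
    push Not at hno
    have h1 : |w * z| ≤ 4 := by rw [abs_of_nonneg hno.1]; exact hno.2
    rw [abs_mul] at h1
    have h2 : 1 ≤ |w| := Int.one_le_abs hw0
    nlinarith [abs_nonneg z]
  set S : Set (ι → ℤ) := {φ | ∃ β b, RR α e β b ∧ ∀ j, β ⬝ᵥ e j = (φ j : ℚ)} with hS
  have hfin : S.Finite := by
    apply (Set.finite_Icc (fun _ : ι => (-4 : ℤ)) (fun _ => 4)).subset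
    rintro φ ⟨β, b, hR, hφ⟩
    constructor
    · intro j; exact (abs_le.1 (hbound β b hR j _ (hφ j))).1
    · intro j; exact (abs_le.1 (hbound β b hR j _ (hφ j))).2
  apply no_finite_set A hA2 hfin.toFinset _ _ u hu hAu
  · intro φ hφ i
    rw [Set.Finite.mem_toFinset] at hφ ⊢
    obtain ⟨β, b, hR, hφ⟩ := hφ
    refine ⟨_, _, hR.step i, fun j => ?_⟩
    rw [sub_dotProduct, smul_dotProduct, hA, hφ, hφ, smul_eq_mul]; push_cast; ring
  · intro i
    refine ⟨fun j => A j i, ?_, by simp [hA2]⟩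
    rw [Set.Finite.mem_toFinset]
    exact ⟨α i, e i, RR.base i, fun j => hA j i⟩

end KM
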