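import Pool.Agent.Lib_helper45.KM.Hyp2

/-! Invariants of the Weyl group, indefinite type. -/

set_option linter.unusedSectionVars false
set_option linter.unusedSimpArgs false

open MvPolynomial

namespace KM

variable {σ : Type*} [Fintype σ] {ι : Type*} [Fintype ι]

/-- Real roots together with their coroots. -/
inductive RR (α e : ι → σ → ℚ) : (σ → ℚ) → (σ → ℚ) → Prop
  | base (i : ι) : RR α e (α i) (e i)
  | step (i : ι) (β b : σ → ℚ) : RR α e β b →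
      RR α e (β - (β ⬝ᵥ e i) • α i) (b - (α i ⬝ᵥ b) • e i)

variable {α e : ι → σ → ℚ} {A : ι → ι → ℤ}

lemma RR.inv {f : MvPolynomial σ ℚ} (hf : ∀ i, Inv f (α i) (e i)) {β b : σ → ℚ}
    (h : RR α e β b) : Inv f β b := by
  induction h with
  | base i => exact hf i
  | step i β b _ ih => exact (hf i).conj ih

lemma RR.int (hA : ∀ i j, α j ⬝ᵥ e i = A i j) {β b : σ → ℚ}
    (h : RR α e β b) : (∀ j, ∃ z : ℤ, β ⬝ᵥ e j = z) ∧ (∀ j, ∃ z : ℤ, α j ⬝ᵥ b = z) := by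
  induction h with
  | base i => exact ⟨fun j => ⟨_, hA _ _⟩, fun j => ⟨_, hA _ _⟩⟩
  | step i β b _ ih =>
    constructor
    · intro j
      obtain ⟨z1, h1⟩ := ih.1 j
      obtain ⟨z2, h2⟩ := ih.1 i
      refine ⟨z1 - z2 * A j i, ?_⟩
      rw [sub_dotProduct, smul_dotProduct, h1, h2, hA, smul_eq_mul]; push_cast; ring
    · intro j
      obtain ⟨z1, h1⟩ := ih.2 j
      obtain ⟨z2, h2⟩ := ih.2 i
      refine ⟨z1 - z2 * A i j, ?_⟩
      rw [dotProduct_sub, dotProduct_smul, h1, h2, hA, smul_eq_mul]; push_cast; ring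

lemma R_ne {f : MvPolynomial σ ℚ} {β b : σ → ℚ} (h2 : β ⬝ᵥ b = 2) (hf : f ≠ 0) :
    R β b f ≠ 0 := by
  intro h
  apply hf
  have : R β b (R β b f) = f := by
    apply MvPolynomial.funext
    intro v
    rw [R_eval, R_eval, refl_refl h2]
  rw [← this, h, map_zero]

lemma RR.D_ne {f : MvPolynomial σ ℚ} (hf : ∀ i, Inv f (α i) (e i)) (hD : ∀ i, D (e i) f ≠ 0)
    {β b : σ → ℚ} (h : RR α e β b) : D b f ≠ 0 := by
  induction h with
  | base i => exact hD i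
  | step i β b _ ih =>
    have := (hf i).R_D b
    rw [refl] at this
    rw [← this]
    exact R_ne (hf i).1 ih

/-- all or none -/
lemma D_zero_of {f : MvPolynomial σ ℚ} (hA : ∀ i j, α j ⬝ᵥ e i = A i j)
    (hf : ∀ i, Inv f (α i) (e i))
    (conn : ∀ P : ι → Prop, (∃ i, P i) → (∀ i j, P i → A i j ≠ 0 → P j) → ∀ i, P i)
    (h : ∃ i, D (e i) f = 0) : ∀ i, D (e i) f = 0 := by
  apply conn _ h
  intro i j hi hij
  have := (hf j).R_D (e i)
  rw [hi, map_zero, refl, D_sub_apply, D_smul_apply, hi, hA, zero_sub, eq_comm, neg_eq_zero] at this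
  rcases mul_eq_zero.1 this with h | h
  · exact absurd h (C_ne (by exact_mod_cast hij))
  · exact h

lemma main1 {f : MvPolynomial σ ℚ} (hA : ∀ i j, α j ⬝ᵥ e i = A i j)
    (hf : ∀ i, Inv f (α i) (e i)) (hD : ∀ i, D (e i) f ≠ 0)
    (conn : ∀ P : ι → Prop, (∃ i, P i) → (∀ i j, P i → A i j ≠ 0 → P j) → ∀ i, P i)
    {j : ι} {β b : σ → ℚ} {m m' : ℤ} (hR : RR α e β b) (H : Hyp (α j) (e j) β b m m') :
    ∃ g, g ≠ 0 ∧ g.totalDegree < f.totalDegree ∧ (∀ i, Inv g (α i) (e i)) ∧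
      ∃ κ : ι → ℚ, (∀ i, κ i ≠ 0) ∧ (∀ i, D (e i) f = C (κ i) * lin (α i) * g) := by
  obtain ⟨g, g1, g2, g3, g4, g5⟩ := L2 H (hf j) (hR.inv hf)
  have hg : g ≠ 0 := by
    rintro rfl
    rw [mul_zero] at g1
    exact hD j g1
  have hall : ∀ i, ∃ κ : ℚ, D (e i) f = C κ * lin (α i) * g := by
    apply conn
    · exact ⟨j, _, g1⟩
    · intro i k hi hik
      obtain ⟨κ, hκ⟩ := hi
      by_cases hγ : α k ⬝ᵥ e j ≠ 0 ∨ α k ⬝ᵥ b ≠ 0
      · exact L5 H (hf j) (hR.inv hf) g3 g4 hg g1 g2 (hf k) hγ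
      · push Not at hγ
        refine L6 H.m'_ne (hf j) hg g1 (hf k) hγ.1 hκ ?_
        rw [hA]; exact_mod_cast hik
  choose κ hκ using hall
  have hκ0 : ∀ i, κ i ≠ 0 := by
    intro i h0
    apply hD i
    rw [hκ i, h0]; simp
  refine ⟨g, hg, g5 hg, ?_, κ, hκ0, hκ⟩
  intro i
  apply Inv.of_R_eq (hf i).1
  have h1 := (hf i).R_D (e i)
  rw [refl_self (hf i).1, D_neg_apply, hκ i, map_mul, map_mul, R_C, R_lin, (hf i).1] at h1
  have e2 : lin (α i - (2 : ℚ) • α i) = -lin (α i) := by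
    rw [← lin_neg]; congr 1; ext i; simp; ring
  rw [e2] at h1
  have hα : lin (α i) ≠ 0 := lin_ne_zero (ne_zero_of_dot (v := e i) (by rw [(hf i).1]; norm_num))
  apply mul_left_cancel₀ (mul_ne_zero (C_ne (hκ0 i)) hα)
  linear_combination -h1

lemma symm_kappa {f g : MvPolynomial σ ℚ} (hg : g ≠ 0) (hf : ∀ i, Inv f (α i) (e i))
    (hgi : ∀ i, Inv g (α i) (e i)) {κ : ι → ℚ}
    (hκ : ∀ i, D (e i) f = C (κ i) * lin (α i) * g) (i j : ι) :
    κ i * (α i ⬝ᵥ e j) = κ j * (α j ⬝ᵥ e i) := by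
  have h1 := (hf j).R_D (e i)
  rw [refl, D_sub_apply, D_smul_apply, hκ i, hκ j, map_mul, map_mul, R_C, (hgi j).R_eq, R_lin,
    lin_sub, lin_smul] at h1
  have hα : lin (α j) ≠ 0 := lin_ne_zero (ne_zero_of_dot (v := e j) (by rw [(hf j).1]; norm_num))
  have h2 : (C (κ i * (α i ⬝ᵥ e j)) : MvPolynomial σ ℚ) = C (κ j * (α j ⬝ᵥ e i)) := by
    apply mul_right_cancel₀ (mul_ne_zero hα hg)
    rw [C_mul, C_mul]
    linear_combination -h1
  exact C_injective _ _ h2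

end KM
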