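import Pool.Agent.Lib_helper45.KM.MV

/-! Induction through a distributive lattice of subcomplexes. -/

open Polynomial KMWanted2

namespace KM

/-- Power series that are rational functions of degree `≤ -r`. -/
def EE (r : ℕ) (F : PowerSeries ℚ) : Prop :=
  ∃ u v : ℚ[X], v.coeff 0 ≠ 0 ∧ (u = 0 ∨ u.natDegree + r ≤ v.natDegree) ∧
    F * (v : PowerSeries ℚ) = (u : PowerSeries ℚ)

lemma EE.add {r : ℕ} {F G : PowerSeries ℚ} (hF : EE r F) (hG : EE r G) : EE r (F + G) := by
  obtain ⟨u, v, hv, hd, h⟩ := hF
  obtain ⟨u', v', hv', hd', h'⟩ := hG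
  have hv0 : v ≠ 0 := by rintro rfl; simp at hv
  have hv0' : v' ≠ 0 := by rintro rfl; simp at hv'
  refine ⟨u * v' + u' * v, v * v', ?_, ?_, ?_⟩
  · rw [mul_coeff_zero]; exact mul_ne_zero hv hv'
  · by_cases h0 : u * v' + u' * v = 0
    · left; exact h0
    · right
      rw [natDegree_mul hv0 hv0']
      have h1 : (u * v' + u' * v).natDegree ≤ max (u * v').natDegree (u' * v).natDegree :=
        natDegree_add_le _ _
      have h2 : u = 0 ∨ (u * v').natDegree + r ≤ v.natDegree + v'.natDegree := by
        rcases hd with h | h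
        · left; exact h
        · right
          have := natDegree_mul_le (p := u) (q := v')
          omega
      have h3 : u' = 0 ∨ (u' * v).natDegree + r ≤ v.natDegree + v'.natDegree := by
        rcases hd' with h | h
        · left; exact h
        · right
          have := natDegree_mul_le (p := u') (q := v)
          omega
      rcases h2 with h2 | h2
      · rcases h3 with h3 | h3
        · exact absurd (by rw [h2, h3]; simp) h0
        · rw [h2, zero_mul, zero_add]; exact h3
      · rcases h3 with h3 | h3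
        · rw [h3, zero_mul, add_zero]; exact h2
        · rcases le_max_iff.1 h1 with h4 | h4 <;> omega
  · push_cast
    linear_combination (v' : PowerSeries ℚ) * h + (v : PowerSeries ℚ) * h'

lemma EE.neg {r : ℕ} {F : PowerSeries ℚ} (hF : EE r F) : EE r (-F) := by
  obtain ⟨u, v, hv, hd, h⟩ := hF
  refine ⟨-u, v, hv, ?_, ?_⟩
  · rcases hd with h | h
    · left; rw [h, neg_zero]
    · right; rwa [natDegree_neg]
  · push_cast
    rw [neg_mul, h]

variable {E : Type*} [AddCommGroup E] [Module ℚ E] (d : E →ₗ[ℚ] E)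

lemma good_mono {U : ℕ → Submodule ℚ E} {N N' : ℕ} (h : Good d U N) (hN : N ≤ N') :
    Good d U N' := ⟨h.1, fun p hp => h.2 p (lt_of_le_of_lt hN hp)⟩

lemma chi_stable {U : ℕ → Submodule ℚ E} {N N' : ℕ} (h : Good d U N) (hN : N ≤ N') :
    chi d U N' = chi d U N := by
  unfold chi
  symm
  apply Finset.sum_subset
  · intro x hx; rw [Finset.mem_range] at *; omega
  · intro x _ hx
    rw [Finset.mem_range, not_lt] at hx
    rw [h.2 x (by omega)]; simp

/-- Families (indexed by `m`) of subcomplexes with uniformly bounded, finite-dimensional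
cohomology, whose Euler characteristic series is in the class `EE r`, with constant term `c`. -/
def Pr (r : ℕ) (U : ℕ → ℕ → Submodule ℚ E) (c : ℤ) : Prop :=
  (∀ m p, (U m p).map d ≤ U m (p + 1)) ∧ ∃ N, (∀ m, Good d (U m) N) ∧
    EE r (PowerSeries.mk fun m => (chi d (U m) N : ℚ)) ∧ chi d (U 0) N = c

lemma Pr.sup {r : ℕ} {A B : ℕ → ℕ → Submodule ℚ E} {a b c : ℤ} (hd : ∀ x, d (d x) = 0)
    (hA : Pr d r A a) (hB : Pr d r B b) (hAB : Pr d r (A ⊓ B) c) :
    Pr d r (A ⊔ B) (a + b - c) := by
  obtain ⟨dA, N, gA, eA, cA⟩ := hA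
  obtain ⟨dB, N', gB, eB, cB⟩ := hB
  obtain ⟨dAB, N'', gAB, eAB, cAB⟩ := hAB
  set M := max N (max N' N'')
  have h1 : N ≤ M := le_max_left _ _
  have h2 : N' ≤ M := (le_max_left _ _).trans (le_max_right _ _)
  have h3 : N'' ≤ M := (le_max_right _ _).trans (le_max_right _ _)
  have key : ∀ m, Good d ((A ⊔ B) m) M ∧ chi d ((A ⊔ B) m) M =
      chi d (A m) N + chi d (B m) N' - chi d ((A ⊓ B) m) N'' := by
    intro m
    have := mv_sup d hd (A m) (B m) (dA m) (dB m) M (good_mono d (gA m) h1) (good_mono d (gB m) h2)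
      (good_mono d (gAB m) h3)
    rw [chi_stable d (gA m) h1, chi_stable d (gB m) h2] at this
    have h4 := chi_stable d (gAB m) h3
    refine ⟨this.1, this.2.trans ?_⟩
    rw [← h4]; rfl
  refine ⟨fun m p => ?_, M, fun m => (key m).1, ?_, ?_⟩
  · rw [Pi.sup_apply, Pi.sup_apply, Pi.sup_apply, Submodule.map_sup]
    exact sup_le_sup (dA m p) (dB m p)
  · have : (PowerSeries.mk fun m => (chi d ((A ⊔ B) m) M : ℚ)) =
        (PowerSeries.mk fun m => (chi d (A m) N : ℚ)) +
        (PowerSeries.mk fun m => (chi d (B m) N' : ℚ)) +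
        -(PowerSeries.mk fun m => (chi d ((A ⊓ B) m) N'' : ℚ)) := by
      ext m
      simp only [PowerSeries.coeff_mk, map_add, map_neg]
      rw [(key m).2]; push_cast; ring
    rw [this]
    exact (eA.add eB).add eAB.neg
  · rw [(key 0).2, cA, cB, cAB]

lemma Pr.inf {r : ℕ} {A B : ℕ → ℕ → Submodule ℚ E} {a b c : ℤ} (hd : ∀ x, d (d x) = 0)
    (hA : Pr d r A a) (hB : Pr d r B b) (hAB : Pr d r (A ⊔ B) c) :
    Pr d r (A ⊓ B) (a + b - c) := by
  obtain ⟨dA, N, gA, eA, cA⟩ := hA
  obtain ⟨dB, N', gB, eB, cB⟩ := hB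
  obtain ⟨dAB, N'', gAB, eAB, cAB⟩ := hAB
  set M := max N (max N' N'')
  have h1 : N ≤ M := le_max_left _ _
  have h2 : N' ≤ M := (le_max_left _ _).trans (le_max_right _ _)
  have h3 : N'' ≤ M := (le_max_right _ _).trans (le_max_right _ _)
  have key : ∀ m, Good d ((A ⊓ B) m) (M + 1) ∧ chi d ((A ⊓ B) m) (M + 1) =
      chi d (A m) N + chi d (B m) N' - chi d ((A ⊔ B) m) N'' := by
    intro m
    have := mv_inf d hd (A m) (B m) (dA m) (dB m) M (good_mono d (gA m) h1) (good_mono d (gB m) h2)
      (good_mono d (gAB m) h3)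
    rw [chi_stable d (gA m) h1, chi_stable d (gB m) h2] at this
    have h4 := chi_stable d (gAB m) h3
    refine ⟨this.1, this.2.trans ?_⟩
    rw [← h4]; rfl
  refine ⟨fun m p => ?_, M + 1, fun m => (key m).1, ?_, ?_⟩
  · rw [Pi.inf_apply, Pi.inf_apply, Pi.inf_apply]
    exact (Submodule.map_inf_le _).trans (inf_le_inf (dA m p) (dB m p))
  · have : (PowerSeries.mk fun m => (chi d ((A ⊓ B) m) (M + 1) : ℚ)) =
        (PowerSeries.mk fun m => (chi d (A m) N : ℚ)) +
        (PowerSeries.mk fun m => (chi d (B m) N' : ℚ)) +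
        -(PowerSeries.mk fun m => (chi d ((A ⊔ B) m) N'' : ℚ)) := by
      ext m
      simp only [PowerSeries.coeff_mk, map_add, map_neg]
      rw [(key m).2]; push_cast; ring
    rw [this]
    exact (eA.add eB).add eAB.neg
  · rw [(key 0).2, cA, cB, cAB]

/-- The lattice induction. -/
lemma lattice_induction {Λ ι : Type*} [Lattice Λ] [OrderBot Λ] [DecidableEq ι]
    (P : Λ → ℤ → Prop)
    (hsup : ∀ a b x y z, P a x → P b y → P (a ⊓ b) z → P (a ⊔ b) (x + y - z))
    (hinf : ∀ a b x y z, P a x → P b y → P (a ⊔ b) z → P (a ⊓ b) (x + y - z))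
    (U : Finset ι → Λ) (hU : ∀ I K : Finset ι, U I ⊓ U K = U (I ∪ K))
    (hdl : ∀ I K : Finset ι, U I ⊓ K.sup (fun k => U {k}) = K.sup (fun k => U (insert k I)))
    (J : Finset ι) (hJ : J.Nonempty) (hP : ∀ I, I ⊂ J → P (U I) 1)
    (hsum : J.sup (fun k => U {k}) = U ∅) : P (U J) 1 := by
  have hanti : ∀ I K : Finset ι, I ⊆ K → U K ≤ U I := by
    intro I K h
    have := hU I K
    rw [Finset.union_eq_right.2 h] at this
    rw [← this]; exact inf_le_left
  -- meets
  have hmeet : ∀ (I K : Finset ι) (j : ι), U (insert j I) ⊓ K.sup (fun k => U (insert k I)) =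
      K.sup (fun k => U (insert k (insert j I))) := by
    intro I K j
    rw [← hdl, ← hdl, ← inf_assoc, inf_eq_left.2 (hanti _ _ (Finset.subset_insert j I))]
  -- claim 1
  have c1 : ∀ K : Finset ι, K.Nonempty → ∀ I, I ∪ K ⊂ J →
      P (K.sup (fun k => U (insert k I))) 1 := by
    intro K hK
    induction hK using Finset.Nonempty.cons_induction with
    | singleton k =>
      intro I hI
      rw [Finset.sup_singleton]
      apply hP
      rwa [Finset.union_comm, ← Finset.insert_eq] at hI
    | cons j K hj hK ih =>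
      intro I hI
      rw [Finset.sup_cons]
      have h1 : insert j I ⊂ J := by
        apply lt_of_le_of_lt _ hI
        intro x hx
        simp only [Finset.mem_insert, Finset.mem_union, Finset.mem_cons] at *
        tauto
      have h2 : I ∪ K ⊂ J := by
        apply lt_of_le_of_lt _ hI
        intro x hx
        simp only [Finset.mem_insert, Finset.mem_union, Finset.mem_cons] at *
        tauto
      have h3 : insert j I ∪ K ⊂ J := by
        apply lt_of_le_of_lt _ hI
        intro x hx
        simp only [Finset.mem_insert, Finset.mem_union, Finset.mem_cons] at *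
        tauto
      have h4 := hsup _ _ 1 1 1 (hP _ h1) (ih I h2) (by rw [hmeet]; exact ih _ h3)
      simpa using h4
  -- claim 2
  have c2 : ∀ I : Finset ι, I ⊂ J → P ((J \ I).sup (fun k => U (insert k I))) 1 := by
    intro I
    induction I using Finset.induction_on with
    | empty =>
      intro h
      rw [Finset.sdiff_empty]
      simp only [insert_empty_eq]
      rw [hsum]
      exact hP _ h
    | insert j I hj ih =>
      intro h
      have hjJ : j ∈ J := h.1 (Finset.mem_insert_self j I)
      have hI : I ⊂ J := lt_of_le_of_lt (Finset.subset_insert j I) h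
      have hK : (J \ insert j I).Nonempty := Finset.sdiff_nonempty.2 h.2
      have e1 : J \ I = Finset.cons j (J \ insert j I) (by simp) := by
        ext x
        simp only [Finset.mem_sdiff, Finset.mem_insert, Finset.mem_cons]
        constructor
        · rintro ⟨h1, h2⟩
          by_cases hx : x = j
          · left; exact hx
          · right; exact ⟨h1, by tauto⟩
        · rintro (rfl | ⟨h1, h2⟩)
          · exact ⟨hjJ, hj⟩
          · exact ⟨h1, by tauto⟩
      have h2 := ih hI
      rw [e1, Finset.sup_cons] at h2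
      have h3 : I ∪ (J \ insert j I) ⊂ J := by
        refine ⟨?_, ?_⟩
        · intro x hx
          rw [Finset.mem_union, Finset.mem_sdiff] at hx
          rcases hx with hx | hx
          · exact hI.1 hx
          · exact hx.1
        · intro hs
          have := hs hjJ
          simp [hj] at this
      have h4 := hinf _ _ 1 1 1 (hP _ h) (c1 _ hK I h3) h2
      rw [hmeet] at h4
      simpa using h4
  obtain ⟨j, hj⟩ := hJ
  have h5 := c2 (J.erase j) (Finset.erase_ssubset hj)
  have e2 : J \ J.erase j = {j} := by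
    ext x
    simp only [Finset.mem_sdiff, Finset.mem_erase, Finset.mem_singleton]
    constructor
    · rintro ⟨h1, h2⟩
      by_contra h3
      exact h2 ⟨h3, h1⟩
    · rintro rfl
      exact ⟨hj, by simp⟩
  rw [e2, Finset.sup_singleton, Finset.insert_erase hj] at h5
  exact h5

end KM
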