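import Mathlib

/-! Linear forms, directional derivatives and reflections on `MvPolynomial σ ℚ`. -/

set_option linter.unusedSectionVars false
set_option linter.unusedSimpArgs false

open MvPolynomial

namespace KM

variable {σ : Type*} [Fintype σ]

/-- The linear form `∑ φ_k X_k`. -/
noncomputable def lin (φ : σ → ℚ) : MvPolynomial σ ℚ := ∑ k, C (φ k) * X k

/-- The directional derivative in direction `u`. -/
noncomputable def D (u : σ → ℚ) : Derivation ℚ (MvPolynomial σ ℚ) (MvPolynomial σ ℚ) :=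
  mkDerivation ℚ (fun k => C (u k))

/-- The reflection `v ↦ v - β(v) b`. -/
def refl (β b v : σ → ℚ) : σ → ℚ := v - (β ⬝ᵥ v) • b

/-- `f` is invariant under the reflection with root `β` and coroot `b`. -/
def Inv (f : MvPolynomial σ ℚ) (β b : σ → ℚ) : Prop :=
  β ⬝ᵥ b = 2 ∧ ∀ v, eval (refl β b v) f = eval v f

/-- Substitution of the reflection. -/
noncomputable def R (β b : σ → ℚ) : MvPolynomial σ ℚ →ₐ[ℚ] MvPolynomial σ ℚ :=
  aeval (fun k => X k - C (b k) * lin β)

@[simp] lemma eval_lin (φ v : σ → ℚ) : eval v (lin φ) = φ ⬝ᵥ v := by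
  simp [lin, dotProduct]

lemma lin_add (φ ψ : σ → ℚ) : lin (φ + ψ) = lin φ + lin ψ := by
  simp [lin, add_mul, Finset.sum_add_distrib]

lemma lin_sub (φ ψ : σ → ℚ) : lin (φ - ψ) = lin φ - lin ψ := by
  simp [lin, sub_mul, Finset.sum_sub_distrib]

lemma lin_neg (φ : σ → ℚ) : lin (-φ) = -lin φ := by
  simp [lin]

lemma lin_smul (c : ℚ) (φ : σ → ℚ) : lin (c • φ) = C c * lin φ := by
  simp [lin, Finset.mul_sum, mul_assoc]

@[simp] lemma lin_zero : lin (0 : σ → ℚ) = 0 := by
  simp [lin]

lemma D_add (u v : σ → ℚ) : D (u + v) = D u + D v := by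
  apply derivation_ext; intro i; simp [D]

lemma D_neg (u : σ → ℚ) : D (-u) = -D u := by
  apply derivation_ext; intro i; simp [D]

lemma D_sub (u v : σ → ℚ) : D (u - v) = D u - D v := by
  apply derivation_ext; intro i; simp [D]

lemma D_smul (c : ℚ) (u : σ → ℚ) : D (c • u) = c • D u := by
  apply derivation_ext; intro i; simp [D, smul_eq_C_mul]

lemma D_add_apply (u v : σ → ℚ) (f : MvPolynomial σ ℚ) : D (u + v) f = D u f + D v f := by
  rw [D_add]; rfl

lemma D_neg_apply (u : σ → ℚ) (f : MvPolynomial σ ℚ) : D (-u) f = - D u f := by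
  rw [D_neg]; rfl

lemma D_sub_apply (u v : σ → ℚ) (f : MvPolynomial σ ℚ) : D (u - v) f = D u f - D v f := by
  rw [D_sub]; rfl

lemma D_smul_apply (c : ℚ) (u : σ → ℚ) (f : MvPolynomial σ ℚ) : D (c • u) f = C c * D u f := by
  rw [D_smul, Derivation.smul_apply, smul_eq_C_mul]

lemma D_mul (u : σ → ℚ) (f g : MvPolynomial σ ℚ) : D u (f * g) = f * D u g + g * D u f := by
  rw [Derivation.leibniz]; rfl

@[simp] lemma D_C (u : σ → ℚ) (c : ℚ) : D u (C c) = 0 := by
  simp [D]

@[simp] lemma D_X (u : σ → ℚ) (k : σ) : D u (X k) = C (u k) := by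
  simp [D]

lemma D_C_mul (u : σ → ℚ) (c : ℚ) (f : MvPolynomial σ ℚ) : D u (C c * f) = C c * D u f := by
  rw [D_mul, D_C]; ring

lemma D_lin (u φ : σ → ℚ) : D u (lin φ) = C (φ ⬝ᵥ u) := by
  simp [lin, D_C_mul, dotProduct]

lemma D_eq_sum [DecidableEq σ] (u : σ → ℚ) (f : MvPolynomial σ ℚ) :
    D u f = ∑ k, C (u k) * pderiv k f := by
  have : D u = ∑ k, (C (u k) : MvPolynomial σ ℚ) • pderiv k := by
    apply derivation_ext; intro i
    have h : ∀ s : Finset σ, (∑ k ∈ s, (C (u k) : MvPolynomial σ ℚ) • pderiv k) (X i) =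
        ∑ k ∈ s, C (u k) * pderiv k (X i) := by
      intro s
      induction s using Finset.induction_on with
      | empty => simp
      | insert a s ha ih => rw [Finset.sum_insert ha, Finset.sum_insert ha,
          Derivation.add_apply, ih]; rfl
    rw [h]
    simp [pderiv_X, Pi.single_apply]
  rw [this]
  have h : ∀ s : Finset σ, (∑ k ∈ s, (C (u k) : MvPolynomial σ ℚ) • pderiv k) f =
      ∑ k ∈ s, C (u k) * pderiv k f := by
    intro s
    induction s using Finset.induction_on with
    | empty => simp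
    | insert a s ha ih => rw [Finset.sum_insert ha, Finset.sum_insert ha,
        Derivation.add_apply, ih]; rfl
  exact h _

lemma R_eval (β b v : σ → ℚ) (f : MvPolynomial σ ℚ) :
    eval v (R β b f) = eval (refl β b v) f := by
  have : (eval v).comp (R β b : MvPolynomial σ ℚ →+* MvPolynomial σ ℚ) = eval (refl β b v) := by
    apply ringHom_ext
    · intro r; simp [R]
    · intro i; simp [R, refl, mul_comm]
  exact DFunLike.congr_fun this f

lemma Inv.R_eq {f : MvPolynomial σ ℚ} {β b : σ → ℚ} (h : Inv f β b) : R β b f = f := by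
  apply MvPolynomial.funext; intro v
  rw [R_eval, h.2]

lemma Inv.of_R_eq {f : MvPolynomial σ ℚ} {β b : σ → ℚ} (h2 : β ⬝ᵥ b = 2) (h : R β b f = f) :
    Inv f β b := by
  refine ⟨h2, fun v => ?_⟩
  rw [← R_eval, h]

lemma R_C (β b : σ → ℚ) (c : ℚ) : R β b (C c) = C c := by
  simp [R]

lemma R_lin (β b φ : σ → ℚ) : R β b (lin φ) = lin (φ - (φ ⬝ᵥ b) • β) := by
  apply MvPolynomial.funext; intro v
  rw [R_eval, eval_lin, eval_lin, refl, dotProduct_sub, sub_dotProduct, smul_dotProduct,
    dotProduct_smul]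
  simp only [smul_eq_mul]; ring

lemma D_R (β b u : σ → ℚ) (f : MvPolynomial σ ℚ) :
    D u (R β b f) = R β b (D (refl β b u) f) := by
  induction f using MvPolynomial.induction_on with
  | C a => simp [R_C]
  | add p q hp hq => simp [hp, hq]
  | mul_X p i hp =>
    rw [map_mul, D_mul, D_mul, hp, map_add, map_mul, map_mul]
    have : D u (R β b (X i)) = R β b (D (refl β b u) (X i)) := by
      rw [D_X, R_C]
      simp only [R, aeval_X, map_sub, D_X, D_C_mul, D_lin, refl, Pi.sub_apply, Pi.smul_apply,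
        smul_eq_mul, map_mul]
      ring
    rw [this]

lemma lin_dvd_sub_R (β b : σ → ℚ) (f : MvPolynomial σ ℚ) : lin β ∣ f - R β b f := by
  induction f using MvPolynomial.induction_on with
  | C a => simp [R_C]
  | add p q hp hq =>
    rw [map_add]
    have := dvd_add hp hq
    convert this using 1; ring
  | mul_X p i hp =>
    rw [map_mul]
    have h1 : R β b (X i) = X i - C (b i) * lin β := by simp [R]
    rw [h1]
    have : p * X i - R β b p * (X i - C (b i) * lin β) =
      (p - R β b p) * X i + lin β * (C (b i) * R β b p) := by ring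
    rw [this]
    exact dvd_add (Dvd.dvd.mul_right hp _) (dvd_mul_right _ _)

lemma refl_self {β b : σ → ℚ} (h : β ⬝ᵥ b = 2) : refl β b b = -b := by
  ext k; simp only [refl, h, Pi.sub_apply, Pi.smul_apply, Pi.neg_apply, smul_eq_mul]; ring

lemma refl_refl {β b : σ → ℚ} (h : β ⬝ᵥ b = 2) (v : σ → ℚ) : refl β b (refl β b v) = v := by
  have : β ⬝ᵥ refl β b v = - (β ⬝ᵥ v) := by
    simp only [refl, dotProduct_sub, dotProduct_smul, h, smul_eq_mul]; ring
  conv_lhs => rw [refl, this]
  simp only [refl]; ext k; simp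

lemma Inv.R_D {f : MvPolynomial σ ℚ} {β b : σ → ℚ} (h : Inv f β b) (u : σ → ℚ) :
    R β b (D u f) = D (refl β b u) f := by
  have := D_R β b (refl β b u) f
  rw [refl_refl h.1, h.R_eq] at this
  exact this.symm

lemma Inv.lin_dvd {f : MvPolynomial σ ℚ} {β b : σ → ℚ} (h : Inv f β b) :
    lin β ∣ D b f := by
  have h1 := lin_dvd_sub_R β b (D b f)
  rw [h.R_D, refl_self h.1, D_neg_apply, sub_neg_eq_add] at h1
  have h2 : D b f = (D b f + D b f) * C (1/2) := by
    rw [← two_mul, mul_comm (2 : MvPolynomial σ ℚ), mul_assoc]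
    have : (2 : MvPolynomial σ ℚ) * C (1/2 : ℚ) = 1 := by
      have h3 : (2 : MvPolynomial σ ℚ) = C 2 := (map_ofNat C 2).symm
      rw [h3, ← C_mul]; norm_num
    rw [this, mul_one]
  rw [h2]
  exact Dvd.dvd.mul_right h1 _

lemma Inv.conj {f : MvPolynomial σ ℚ} {β b γ c : σ → ℚ} (h : Inv f β b) (h' : Inv f γ c) :
    Inv f (γ - (γ ⬝ᵥ b) • β) (c - (β ⬝ᵥ c) • b) := by
  constructor
  · simp only [dotProduct_sub, sub_dotProduct, smul_dotProduct, dotProduct_smul, h.1, h'.1,
      smul_eq_mul]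
    ring
  · intro v
    have key : refl (γ - (γ ⬝ᵥ b) • β) (c - (β ⬝ᵥ c) • b) v =
        refl β b (refl γ c (refl β b v)) := by
      ext k
      simp only [refl, dotProduct_sub, sub_dotProduct, smul_dotProduct, dotProduct_smul, h.1,
        smul_eq_mul, Pi.sub_apply, Pi.smul_apply]
      ring
    rw [key, h.2, h'.2, h.2]

lemma Inv.neg {f : MvPolynomial σ ℚ} {γ c : σ → ℚ} (h : Inv f γ c) : Inv f (-γ) (-c) := by
  refine ⟨by simp [h.1], fun v => ?_⟩
  have : refl (-γ) (-c) v = refl γ c v := by simp [refl]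
  rw [this, h.2]

lemma lin_dvd_lin {φ ψ : σ → ℚ} (h : lin φ ∣ lin ψ) (u v : σ → ℚ) :
    (φ ⬝ᵥ u) * (ψ ⬝ᵥ v) = (φ ⬝ᵥ v) * (ψ ⬝ᵥ u) := by
  obtain ⟨g, hg⟩ := h
  have h0 : φ ⬝ᵥ ((φ ⬝ᵥ v) • u - (φ ⬝ᵥ u) • v) = 0 := by
    simp only [dotProduct_sub, dotProduct_smul, smul_eq_mul]; ring
  have h1 := congrArg (eval ((φ ⬝ᵥ v) • u - (φ ⬝ᵥ u) • v)) hg
  rw [map_mul, eval_lin, eval_lin, h0, zero_mul] at h1
  simp only [dotProduct_sub, dotProduct_smul, smul_eq_mul] at h1
  linarith

lemma lin_ne_zero {φ : σ → ℚ} (h : φ ≠ 0) : lin φ ≠ 0 := by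
  intro h0
  apply h
  have : ∀ v, φ ⬝ᵥ v = 0 := by
    intro v
    have := congrArg (eval v) h0
    simpa using this
  exact dotProduct_eq_zero _ this

lemma lin_homog (φ : σ → ℚ) : (lin φ).IsHomogeneous 1 := by
  unfold lin
  apply IsHomogeneous.sum
  intro i _
  have := (isHomogeneous_C σ (φ i)).mul (isHomogeneous_X ℚ i)
  simpa using this

lemma lin_totalDegree {φ : σ → ℚ} (h : φ ≠ 0) : (lin φ).totalDegree = 1 :=
  (lin_homog φ).totalDegree (lin_ne_zero h)

lemma lin_irreducible {φ : σ → ℚ} (h : φ ≠ 0) : Irreducible (lin φ) := by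
  apply irreducible_of_totalDegree_eq_one (lin_totalDegree h)
  intro x hx
  rw [isUnit_iff_ne_zero]
  rintro rfl
  apply lin_ne_zero h
  ext i
  have := hx i
  rw [zero_dvd_iff] at this
  simpa using this

lemma lin_prime {φ : σ → ℚ} (h : φ ≠ 0) : Prime (lin φ) :=
  (lin_irreducible h).prime

/-- The infinite divisibility lemma. -/
lemma eq_zero_of_dvd (f : MvPolynomial σ ℚ) (γ : ℕ → σ → ℚ) (h0 : ∀ k, γ k ≠ 0)
    (hγ : ∀ k l, k < l → ¬ lin (γ l) ∣ lin (γ k)) (hd : ∀ k, lin (γ k) ∣ f) : f = 0 := by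
  by_contra hf
  induction hN : f.totalDegree using Nat.strong_induction_on generalizing f γ with
  | _ N ih =>
    obtain ⟨g, hg⟩ := hd 0
    have hg0 : g ≠ 0 := by rintro rfl; simp at hg; exact hf hg
    have hdeg : f.totalDegree = 1 + g.totalDegree := by
      rw [hg, totalDegree_mul_of_isDomain (lin_ne_zero (h0 0)) hg0, lin_totalDegree (h0 0)]
    refine ih g.totalDegree (by omega) g (fun k => γ (k+1)) (fun k => h0 _)
      (fun k l hkl => hγ _ _ (by omega)) (fun k => ?_) hg0 rfl
    have h1 := hd (k+1)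
    rw [hg] at h1
    rcases (lin_prime (h0 (k+1))).dvd_or_dvd h1 with h2 | h2
    · exact absurd h2 (hγ 0 (k+1) (by omega))
    · exact h2

/-- Directional derivative zero implies translation invariant. -/
lemma eval_add_smul_of_D_eq_zero (e : σ → ℚ) (f : MvPolynomial σ ℚ) (h : D e f = 0) (v : σ → ℚ)
    (t : ℚ) : eval (v + t • e) f = eval v f := by
  let φ : MvPolynomial σ ℚ →ₐ[ℚ] Polynomial ℚ :=
    aeval (fun k => Polynomial.C (v k) + Polynomial.C (e k) * Polynomial.X)
  have hφ : ∀ g, Polynomial.derivative (φ g) = φ (D e g) := by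
    intro g
    induction g using MvPolynomial.induction_on with
    | C a => simp [φ]
    | add p q hp hq => simp [hp, hq]
    | mul_X p i hp =>
      rw [map_mul, Polynomial.derivative_mul, hp, D_mul, map_add, map_mul, map_mul]
      have : Polynomial.derivative (φ (X i)) = φ (D e (X i)) := by
        rw [D_X]
        simp only [φ, aeval_X, Polynomial.derivative_add, Polynomial.derivative_C,
          Polynomial.derivative_mul, Polynomial.derivative_X, zero_add, zero_mul, mul_one]
        rw [← MvPolynomial.algebraMap_eq, AlgHom.commutes]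
        rfl
      rw [this]; ring
  have hev : ∀ s g, Polynomial.eval s (φ g) = eval (v + s • e) g := by
    intro s g
    have : (Polynomial.evalRingHom s).comp (φ : MvPolynomial σ ℚ →+* Polynomial ℚ) =
        eval (v + s • e) := by
      apply ringHom_ext
      · intro r; simp [φ]
      · intro i
        have h5 : φ (X i) = Polynomial.C (v i) + Polynomial.C (e i) * Polynomial.X := by
          simp only [φ, aeval_X]
        simp only [RingHom.comp_apply, RingHom.coe_coe, h5, Polynomial.coe_evalRingHom,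
          Polynomial.eval_add, Polynomial.eval_C, Polynomial.eval_mul, Polynomial.eval_X, eval_X,
          Pi.add_apply, Pi.smul_apply, smul_eq_mul]
        ring
    exact DFunLike.congr_fun this g
  have h1 : Polynomial.derivative (φ f) = 0 := by rw [hφ, h, map_zero]
  have h2 := Polynomial.derivative_eq_zero.1 h1
  obtain ⟨c, hc⟩ := Polynomial.natDegree_eq_zero.1 h2
  have h3 := hev t f
  have h4 := hev 0 f
  rw [← hc] at h3 h4
  simp at h3 h4
  rw [← h3, h4]

lemma totalDegree_pderiv_le (k : σ) (f : MvPolynomial σ ℚ) :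
    (pderiv k f).totalDegree ≤ f.totalDegree := by
  classical
  rw [f.as_sum, map_sum]
  apply (totalDegree_finsetSum_le ..)
  intro s hs
  rw [pderiv_monomial, ← f.as_sum]
  refine (totalDegree_monomial_le _ _).trans ?_
  refine le_trans ?_ (le_totalDegree hs)
  exact Finsupp.sum_le_sum_index (by
    intro j; simp) (fun _ _ => by intro a b h; exact h) (fun _ _ => rfl)

lemma totalDegree_D_le (u : σ → ℚ) (f : MvPolynomial σ ℚ) :
    (D u f).totalDegree ≤ f.totalDegree := by
  classical
  rw [D_eq_sum]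
  apply totalDegree_finsetSum_le
  intro i _
  rw [← smul_eq_C_mul]
  exact (totalDegree_smul_le _ _).trans (totalDegree_pderiv_le _ _)

/-- If `D u f = lin φ * g` then `g` has smaller degree. -/
lemma totalDegree_lt_of_D_eq {u φ : σ → ℚ} {f g : MvPolynomial σ ℚ} {c : ℚ} (hc : c ≠ 0)
    (hφ : φ ≠ 0) (hg : g ≠ 0)
    (h : D u f = C c * lin φ * g) : g.totalDegree < f.totalDegree := by
  have h1 := totalDegree_D_le u f
  have hc' : (C c : MvPolynomial σ ℚ) * lin φ ≠ 0 :=
    mul_ne_zero (by simpa using hc) (lin_ne_zero hφ)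
  rw [h, totalDegree_mul_of_isDomain hc' hg, ← lin_smul, lin_totalDegree] at h1
  · omega
  · exact smul_ne_zero hc hφ

end KM
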