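import Pool.Agent.Lib_helper45.KM.MVDefs

/-! Mayer–Vietoris for subcomplexes. -/

open KMWanted2

namespace KM

variable {E : Type*} [AddCommGroup E] [Module ℚ E]

/-- relative length -/
noncomputable def rl (X Y : Submodule ℚ E) : ℕ∞ := Module.length ℚ (↥Y ⧸ X.submoduleOf Y)

lemma rl_eq_of_surj {T : Type*} [AddCommGroup T] [Module ℚ T] (f : T →ₗ[ℚ] E)
    (X Y : Submodule ℚ E) (hf : LinearMap.range f = Y) :
    rl X Y = Module.length ℚ (T ⧸ X.comap f) := by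
  subst hf
  let ψ : T →ₗ[ℚ] (↥(LinearMap.range f) ⧸ X.submoduleOf (LinearMap.range f)) :=
    (X.submoduleOf (LinearMap.range f)).mkQ ∘ₗ f.rangeRestrict
  have hs : Function.Surjective ψ :=
    (Submodule.mkQ_surjective _).comp f.surjective_rangeRestrict
  have hk : LinearMap.ker ψ = X.comap f := by
    ext x
    rw [LinearMap.ker_comp, Submodule.ker_mkQ]
    rfl
  unfold rl
  rw [← (ψ.quotKerEquivOfSurjective hs).length_eq]
  exact (Submodule.quotEquivOfEq _ _ hk).length_eq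

lemma rl_self (X : Submodule ℚ E) : rl X X = 0 := by
  unfold rl
  rw [Module.length_eq_zero_iff, Submodule.Quotient.subsingleton_iff, Submodule.submoduleOf_self]

lemma rl_add {X Y Z : Submodule ℚ E} (hXY : X ≤ Y) (hYZ : Y ≤ Z) :
    rl X Z = rl X Y + rl Y Z := by
  have hle : X.submoduleOf Z ≤ Y.submoduleOf Z := Submodule.comap_mono hXY
  let g : (↥Z ⧸ X.submoduleOf Z) →ₗ[ℚ] (↥Z ⧸ Y.submoduleOf Z) :=
    (X.submoduleOf Z).mapQ (Y.submoduleOf Z) LinearMap.id hle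
  have hg : Function.Surjective g := by
    intro y
    obtain ⟨z, rfl⟩ := (Y.submoduleOf Z).mkQ_surjective y
    exact ⟨(X.submoduleOf Z).mkQ z, rfl⟩
  let i : Y →ₗ[ℚ] Z := Submodule.inclusion hYZ
  let f : (↥Y ⧸ X.submoduleOf Y) →ₗ[ℚ] (↥Z ⧸ X.submoduleOf Z) :=
    (X.submoduleOf Y).mapQ (X.submoduleOf Z) i (fun x hx => hx)
  have hf : Function.Injective f := by
    rw [← LinearMap.ker_eq_bot, LinearMap.ker_eq_bot']
    intro y hy
    obtain ⟨y, rfl⟩ := (X.submoduleOf Y).mkQ_surjective y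
    have h1 : (X.submoduleOf Z).mkQ (i y) = 0 := hy
    rw [← LinearMap.mem_ker, Submodule.ker_mkQ] at h1
    rw [← LinearMap.mem_ker, Submodule.ker_mkQ]
    exact h1
  have hex : Function.Exact f g := by
    intro z
    obtain ⟨z, rfl⟩ := (X.submoduleOf Z).mkQ_surjective z
    constructor
    · intro hz
      have h1 : (Y.submoduleOf Z).mkQ z = 0 := hz
      rw [← LinearMap.mem_ker, Submodule.ker_mkQ] at h1
      exact ⟨(X.submoduleOf Y).mkQ ⟨z, h1⟩, rfl⟩
    · rintro ⟨y, hy⟩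
      obtain ⟨y, rfl⟩ := (X.submoduleOf Y).mkQ_surjective y
      rw [← hy]
      change (Y.submoduleOf Z).mkQ (i y) = 0
      rw [← LinearMap.mem_ker, Submodule.ker_mkQ]
      exact y.2
  exact Module.length_eq_add_of_exact f g hf hg hex

lemma rl_inf_sup (X Y : Submodule ℚ E) : rl (X ⊓ Y) X = rl Y (X ⊔ Y) :=
  (LinearMap.quotientInfEquivSupQuotient X Y).length_eq

lemma rl_map (d : E →ₗ[ℚ] E) {X Y : Submodule ℚ E} (hXY : X ≤ Y) :
    rl (X.map d) (Y.map d) = rl (X ⊔ (Y ⊓ LinearMap.ker d)) Y := by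
  rw [rl_eq_of_surj (d ∘ₗ Y.subtype) (X.map d) (Y.map d) (by
    rw [LinearMap.range_comp, Submodule.range_subtype])]
  unfold rl
  apply LinearEquiv.length_eq
  apply Submodule.quotEquivOfEq
  ext ⟨y, hy⟩
  rw [Submodule.mem_comap, Submodule.submoduleOf, Submodule.mem_comap, Submodule.mem_sup]
  simp only [LinearMap.comp_apply, Submodule.subtype_apply]
  constructor
  · rintro ⟨x, hx, h⟩
    refine ⟨x, hx, y - x, ⟨Y.sub_mem hy (hXY hx), ?_⟩, by abel⟩
    have h5 : y - x ∈ LinearMap.ker d := by rw [LinearMap.mem_ker, map_sub, h, sub_self]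
    exact h5
  · rintro ⟨x, hx, k, ⟨_, hk⟩, rfl⟩
    refine ⟨x, hx, ?_⟩
    rw [map_add, LinearMap.mem_ker.1 hk, add_zero]

lemma rl_mod1 (X : Submodule ℚ E) {Y Y' : Submodule ℚ E} (h : Y ≤ Y') :
    rl (X ⊓ Y) (X ⊓ Y') + rl (X ⊔ Y) (X ⊔ Y') = rl Y Y' := by
  have h1 : rl Y ((X ⊓ Y') ⊔ Y) = rl (X ⊓ Y) (X ⊓ Y') := by
    rw [← rl_inf_sup]
    congr 1
    rw [inf_assoc, inf_eq_right.2 h]
  have h2 : rl ((X ⊓ Y') ⊔ Y) Y' = rl (X ⊔ Y) (X ⊔ Y') := by
    have h3 : (X ⊓ Y') ⊔ Y = Y' ⊓ (X ⊔ Y) := by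
      apply le_antisymm
      · apply sup_le
        · exact le_inf inf_le_right (inf_le_left.trans le_sup_left)
        · exact le_inf h le_sup_right
      · rintro y ⟨hy, hy'⟩
        obtain ⟨a, ha, b, hb, rfl⟩ := Submodule.mem_sup.1 hy'
        refine Submodule.add_mem_sup ⟨ha, ?_⟩ hb
        have := Y'.sub_mem hy (h hb)
        simpa using this
    rw [h3, rl_inf_sup]
    congr 1
    rw [sup_comm, sup_assoc, sup_eq_right.2 h]
  rw [← h1, ← h2]
  exact (rl_add le_sup_right (sup_le inf_le_right h)).symm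

lemma rl_mod2 {X X' Y Y' : Submodule ℚ E} (hX : X ≤ X') (hY : Y ≤ Y') :
    rl (X ⊓ Y) (X' ⊓ Y') + rl (X ⊔ Y) (X' ⊔ Y') = rl X X' + rl Y Y' := by
  have h1 := rl_mod1 X hY
  have h2 := rl_mod1 Y' hX
  rw [inf_comm Y' X, inf_comm Y' X', sup_comm Y' X, sup_comm Y' X'] at h2
  rw [rl_add (inf_le_inf_left X hY) (inf_le_inf_right Y' hX),
    rl_add (sup_le_sup_left hY X) (sup_le_sup_right hX Y'), ← h1, ← h2]
  ring

lemma rl_med (A B K : Submodule ℚ E) :
    rl ((A ⊓ K) ⊔ (B ⊓ K)) ((A ⊔ B) ⊓ K) = rl ((A ⊓ B) ⊔ (A ⊓ K)) (A ⊓ (B ⊔ K)) := by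
  let T : Submodule ℚ (E × E) :=
    { carrier := {x | x.1 ∈ A ∧ x.2 ∈ K ∧ x.1 - x.2 ∈ B}
      add_mem' := by
        rintro x y ⟨h1, h2, h3⟩ ⟨h4, h5, h6⟩
        refine ⟨A.add_mem h1 h4, K.add_mem h2 h5, ?_⟩
        have := B.add_mem h3 h6
        rw [Prod.fst_add, Prod.snd_add]
        convert this using 1; abel
      zero_mem' := ⟨A.zero_mem, K.zero_mem, by simp⟩
      smul_mem' := by
        rintro c x ⟨h1, h2, h3⟩
        refine ⟨A.smul_mem c h1, K.smul_mem c h2, ?_⟩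
        have := B.smul_mem c h3
        rw [Prod.smul_fst, Prod.smul_snd, ← smul_sub]
        exact this }
  let f1 : T →ₗ[ℚ] E := LinearMap.fst ℚ E E ∘ₗ T.subtype
  let f2 : T →ₗ[ℚ] E := LinearMap.snd ℚ E E ∘ₗ T.subtype
  have r1 : LinearMap.range f1 = A ⊓ (B ⊔ K) := by
    ext x
    constructor
    · rintro ⟨⟨⟨a, k⟩, h1, h2, h3⟩, rfl⟩
      refine ⟨h1, ?_⟩
      have := Submodule.add_mem_sup h3 h2
      simpa [f1] using this
    · rintro ⟨h1, h2⟩
      obtain ⟨b, hb, k, hk, rfl⟩ := Submodule.mem_sup.1 h2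
      exact ⟨⟨(b + k, k), h1, hk, by simpa using hb⟩, rfl⟩
  have r2 : LinearMap.range f2 = (A ⊔ B) ⊓ K := by
    ext x
    constructor
    · rintro ⟨⟨⟨a, k⟩, h1, h2, h3⟩, rfl⟩
      refine ⟨?_, h2⟩
      have := Submodule.add_mem_sup h1 (B.neg_mem h3)
      simpa [f2] using this
    · rintro ⟨h1, h2⟩
      obtain ⟨a, ha, b, hb, rfl⟩ := Submodule.mem_sup.1 h1
      exact ⟨⟨(a, a + b), ha, h2, by simpa using hb⟩, rfl⟩
  rw [rl_eq_of_surj f1 _ _ r1, rl_eq_of_surj f2 _ _ r2]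
  apply LinearEquiv.length_eq
  apply Submodule.quotEquivOfEq
  ext ⟨⟨a, k⟩, h1, h2, h3⟩
  simp only at h1 h2 h3
  rw [Submodule.mem_comap, Submodule.mem_comap, Submodule.mem_sup, Submodule.mem_sup]
  change (∃ y ∈ A ⊓ K, ∃ z ∈ B ⊓ K, y + z = k) ↔ (∃ y ∈ A ⊓ B, ∃ z ∈ A ⊓ K, y + z = a)
  constructor
  · rintro ⟨y, ⟨hy1, hy2⟩, z, ⟨hz1, hz2⟩, rfl⟩
    refine ⟨a - y, ⟨A.sub_mem h1 hy1, ?_⟩, y, ⟨hy1, hy2⟩, by abel⟩
    have := B.add_mem h3 hz1
    have e : a - y = a - (y + z) + z := by abel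
    rw [SetLike.mem_coe, e]; exact this
  · rintro ⟨y, ⟨hy1, hy2⟩, z, ⟨hz1, hz2⟩, rfl⟩
    refine ⟨z, ⟨hz1, hz2⟩, k - z, ⟨?_, K.sub_mem h2 hz2⟩, by abel⟩
    have := B.sub_mem hy2 h3
    have e : k - z = y - (y + z - k) := by abel
    rw [SetLike.mem_coe, e]; exact this

section
variable (d : E →ₗ[ℚ] E)

/-- length of cohomology -/
noncomputable def hL (U : ℕ → Submodule ℚ E) (p : ℕ) : ℕ∞ := rl (Bc d U p) (Zc d U p)

variable (A B : ℕ → Submodule ℚ E)

/-- first auxiliary length -/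
noncomputable def aL (p : ℕ) : ℕ∞ := rl (Bc d (A ⊓ B) p) (Bc d A p ⊓ Bc d B p)

/-- second auxiliary length -/
noncomputable def bL (p : ℕ) : ℕ∞ := rl (Bc d A p ⊓ Bc d B p) (Zc d (A ⊓ B) p)

/-- third auxiliary length -/
noncomputable def cL (p : ℕ) : ℕ∞ := rl (Bc d A p ⊔ Bc d B p) (Zc d A p ⊔ Zc d B p)

variable {d A B} (hd : ∀ x, d (d x) = 0) (hA : ∀ p, (A p).map d ≤ A (p+1))
  (hB : ∀ p, (B p).map d ≤ B (p+1))

include hd hA in
lemma Bc_le_Zc (p : ℕ) : Bc d A p ≤ Zc d A p := by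
  cases p with
  | zero => rw [Bc]; exact bot_le
  | succ p =>
    rw [Bc, Zc]
    apply le_inf (hA p)
    rintro _ ⟨x, _, rfl⟩
    exact hd x

lemma Zc_inf (p : ℕ) : Zc d (A ⊓ B) p = Zc d A p ⊓ Zc d B p := by
  unfold Zc
  rw [Pi.inf_apply]
  apply le_antisymm
  · exact le_inf (inf_le_inf_right _ inf_le_left) (inf_le_inf_right _ inf_le_right)
  · exact le_inf (le_inf (inf_le_left.trans inf_le_left) (inf_le_right.trans inf_le_left))
      (inf_le_left.trans inf_le_right)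

lemma Bc_inf_le (p : ℕ) : Bc d (A ⊓ B) p ≤ Bc d A p ⊓ Bc d B p := by
  cases p with
  | zero => rw [Bc]; exact bot_le
  | succ p => rw [Bc, Bc, Bc, Pi.inf_apply]; exact Submodule.map_inf_le _

lemma Bc_sup (p : ℕ) : Bc d (A ⊔ B) p = Bc d A p ⊔ Bc d B p := by
  cases p with
  | zero => rw [Bc, Bc, Bc, bot_sup_eq]
  | succ p => rw [Bc, Bc, Bc, Pi.sup_apply, Submodule.map_sup]

include hd hA hB in
lemma e1 (p : ℕ) : hL d (A ⊓ B) p = aL d A B p + bL d A B p := by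
  apply rl_add (Bc_inf_le p)
  rw [Zc_inf]
  exact inf_le_inf (Bc_le_Zc hd hA p) (Bc_le_Zc hd hB p)

include hd hA hB in
lemma e2 (p : ℕ) : hL d A p + hL d B p = bL d A B p + cL d A B p := by
  unfold bL cL hL
  rw [Zc_inf]
  exact (rl_mod2 (Bc_le_Zc hd hA p) (Bc_le_Zc hd hB p)).symm

lemma map_inf_map (X Y : Submodule ℚ E) :
    X.map d ⊓ Y.map d = (X ⊓ (Y ⊔ LinearMap.ker d)).map d := by
  ext z
  constructor
  · rintro ⟨⟨x, hx, rfl⟩, ⟨y, hy, h⟩⟩
    refine ⟨x, ⟨hx, ?_⟩, rfl⟩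
    have : x = y + (x - y) := by abel
    rw [this]
    refine Submodule.add_mem_sup hy ?_
    rw [LinearMap.mem_ker, map_sub, h, sub_self]
  · rintro ⟨x, ⟨hx, hx'⟩, rfl⟩
    obtain ⟨y, hy, k, hk, rfl⟩ := Submodule.mem_sup.1 hx'
    exact ⟨⟨_, hx, rfl⟩, ⟨y, hy, by rw [map_add, LinearMap.mem_ker.1 hk, add_zero]⟩⟩

lemma aL_succ (p : ℕ) : aL d A B (p + 1) = rl (Zc d A p ⊔ Zc d B p) (Zc d (A ⊔ B) p) := by
  unfold aL Zc
  rw [Bc, Bc, Bc, Pi.inf_apply, Pi.sup_apply, map_inf_map, rl_map, rl_med]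
  · congr 1
    congr 1
    rw [inf_assoc, inf_eq_right.2 (show LinearMap.ker d ≤ B p ⊔ LinearMap.ker d from le_sup_right)]
  · exact le_inf inf_le_left (inf_le_right.trans le_sup_left)

include hd hA hB in
lemma e3 (p : ℕ) : hL d (A ⊔ B) p = cL d A B p + aL d A B (p + 1) := by
  rw [aL_succ]
  unfold hL cL
  rw [Bc_sup]
  apply rl_add
  · exact sup_le_sup (Bc_le_Zc hd hA p) (Bc_le_Zc hd hB p)
  · unfold Zc
    rw [Pi.sup_apply]
    exact sup_le (inf_le_inf_right _ le_sup_left) (inf_le_inf_right _ le_sup_right)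

lemma aL_zero : aL d A B 0 = 0 := by
  unfold aL
  rw [Bc, Bc, Bc, bot_inf_eq, rl_self]

lemma fd_iff (U : ℕ → Submodule ℚ E) (p : ℕ) :
    FiniteDimensional ℚ (Hc d U p) ↔ hL d U p ≠ ⊤ := by
  constructor
  · intro h
    exact Module.length_ne_top
  · intro h
    have h1 : IsFiniteLength ℚ (Hc d U p) := Module.length_ne_top_iff.1 h
    have h2 := (isFiniteLength_iff_isNoetherian_isArtinian.1 h1).1
    infer_instance

lemma hL_eq (U : ℕ → Submodule ℚ E) (p : ℕ) [FiniteDimensional ℚ (Hc d U p)] :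
    hL d U p = Module.finrank ℚ (Hc d U p) := Module.length_eq_finrank _ _

lemma good_iff (U : ℕ → Submodule ℚ E) (N : ℕ) : Good d U N ↔
    ∃ h : ℕ → ℕ, (∀ p, hL d U p = h p) ∧ (∀ p, N < p → h p = 0) ∧
      chi d U N = ∑ p ∈ Finset.range (N+1), (-1)^p * (h p : ℤ) := by
  constructor
  · rintro ⟨h1, h2⟩
    exact ⟨fun p => Module.finrank ℚ (Hc d U p), fun p => by have := h1 p; exact hL_eq U p, h2, rfl⟩
  · rintro ⟨h, h1, h2, _⟩
    have hf : ∀ p, FiniteDimensional ℚ (Hc d U p) := fun p => by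
      rw [fd_iff, h1]; exact ENat.natCast_ne_top _
    refine ⟨hf, fun p hp => ?_⟩
    have := hf p
    have h3 := hL_eq (d := d) U p
    rw [h1, h2 p hp] at h3
    exact_mod_cast h3.symm

lemma chi_eq (U : ℕ → Submodule ℚ E) (N : ℕ) (h : ℕ → ℕ) (h1 : ∀ p, hL d U p = h p) :
    chi d U N = ∑ p ∈ Finset.range (N+1), (-1)^p * (h p : ℤ) := by
  unfold chi
  apply Finset.sum_congr rfl
  intro p _
  have : FiniteDimensional ℚ (Hc d U p) := by
    rw [fd_iff, h1]; exact ENat.natCast_ne_top _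
  have h3 := hL_eq (d := d) U p
  rw [h1] at h3
  have h4 : h p = Module.finrank ℚ (Hc d U p) := by exact_mod_cast h3
  rw [h4]

end

lemma tele (a : ℕ → ℤ) (N : ℕ) :
    ∑ p ∈ Finset.range (N+1), (-1)^p * (a p + a (p+1)) = a 0 + (-1)^N * a (N+1) := by
  induction N with
  | zero => simp
  | succ N ih => rw [Finset.sum_range_succ, ih]; ring

theorem mv_sup (d : E →ₗ[ℚ] E) (hd : ∀ x, d (d x) = 0) (A B : ℕ → Submodule ℚ E)
    (hA : ∀ p, (A p).map d ≤ A (p+1)) (hB : ∀ p, (B p).map d ≤ B (p+1)) (N : ℕ)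
    (gA : Good d A N) (gB : Good d B N) (gAB : Good d (A ⊓ B) N) :
    Good d (A ⊔ B) N ∧ chi d (A ⊔ B) N = chi d A N + chi d B N - chi d (A ⊓ B) N := by
  obtain ⟨x, x1, x2, x3⟩ := (good_iff A N).1 gA
  obtain ⟨y, y1, y2, y3⟩ := (good_iff B N).1 gB
  obtain ⟨z, z1, z2, z3⟩ := (good_iff (A ⊓ B) N).1 gAB
  have E1 := e1 hd hA hB
  have E2 := e2 hd hA hB
  have E3 := e3 hd hA hB
  have E0 := aL_zero (d := d) (A := A) (B := B)
  have ha : ∀ p, ∃ a : ℕ, aL d A B p = a := fun p => by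
    have h := E1 p
    rw [z1] at h
    exact ENat.ne_top_iff_exists.1 (fun h' => by rw [h', top_add] at h; exact ENat.natCast_ne_top _ h)
      |>.imp fun _ h => h.symm
  have hb : ∀ p, ∃ a : ℕ, bL d A B p = a := fun p => by
    have h := E1 p
    rw [z1] at h
    exact ENat.ne_top_iff_exists.1 (fun h' => by rw [h', add_top] at h; exact ENat.natCast_ne_top _ h)
      |>.imp fun _ h => h.symm
  have hc : ∀ p, ∃ a : ℕ, cL d A B p = a := fun p => by
    have h := E2 p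
    rw [x1, y1] at h
    exact ENat.ne_top_iff_exists.1 (fun h' => by
      rw [h', add_top] at h; exact ENat.natCast_ne_top (x p + y p) (by exact_mod_cast h))
      |>.imp fun _ h => h.symm
  choose a ha using ha
  choose b hb using hb
  choose c hc using hc
  have F1 : ∀ p, z p = a p + b p := fun p => by
    have := E1 p; rw [z1, ha, hb] at this; exact_mod_cast this
  have F2 : ∀ p, x p + y p = b p + c p := fun p => by
    have := E2 p; rw [x1, y1, hb, hc] at this; exact_mod_cast this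
  have F3 : ∀ p, hL d (A ⊔ B) p = ((c p + a (p+1) : ℕ) : ℕ∞) := fun p => by
    rw [E3, hc, ha]; push_cast; rfl
  have F0 : a 0 = 0 := by rw [ha] at E0; exact_mod_cast E0
  refine ⟨(good_iff _ N).2 ⟨_, F3, fun p hp => ?_, chi_eq _ _ _ F3⟩, ?_⟩
  · have := F2 p
    rw [x2 p hp, y2 p hp] at this
    have h2 := F1 (p+1)
    rw [z2 (p+1) (by omega)] at h2
    omega
  · rw [chi_eq _ _ _ F3, x3, y3, z3, ← Finset.sum_add_distrib, ← Finset.sum_sub_distrib,
      ← sub_eq_zero, ← Finset.sum_sub_distrib]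
    have h2 := F1 (N+1)
    rw [z2 (N+1) (by omega)] at h2
    have h3 := tele (fun p => (a p : ℤ)) N
    have h4 : (a (N+1) : ℤ) = 0 := by
      have : a (N+1) = 0 := by omega
      rw [this]; rfl
    simp only [F0, h4, Nat.cast_zero, mul_zero, add_zero] at h3
    rw [← h3]
    apply Finset.sum_congr rfl
    intro p _
    have g1 : (z p : ℤ) = a p + b p := by exact_mod_cast F1 p
    have g2 : (x p : ℤ) + y p = b p + c p := by exact_mod_cast F2 p
    rw [g1]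
    push_cast
    linear_combination (-1 : ℤ)^p * (-1) * g2

theorem mv_inf (d : E →ₗ[ℚ] E) (hd : ∀ x, d (d x) = 0) (A B : ℕ → Submodule ℚ E)
    (hA : ∀ p, (A p).map d ≤ A (p+1)) (hB : ∀ p, (B p).map d ≤ B (p+1)) (N : ℕ)
    (gA : Good d A N) (gB : Good d B N) (gAB : Good d (A ⊔ B) N) :
    Good d (A ⊓ B) (N+1) ∧
      chi d (A ⊓ B) (N+1) = chi d A N + chi d B N - chi d (A ⊔ B) N := by
  obtain ⟨x, x1, x2, x3⟩ := (good_iff A N).1 gA
  obtain ⟨y, y1, y2, y3⟩ := (good_iff B N).1 gB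
  obtain ⟨z, z1, z2, z3⟩ := (good_iff (A ⊔ B) N).1 gAB
  have E1 := e1 hd hA hB
  have E2 := e2 hd hA hB
  have E3 := e3 hd hA hB
  have E0 := aL_zero (d := d) (A := A) (B := B)
  have ha : ∀ p, ∃ a : ℕ, aL d A B p = a := fun p => by
    cases p with
    | zero => exact ⟨0, by rw [E0]; rfl⟩
    | succ p =>
      have h := E3 p
      rw [z1] at h
      exact ENat.ne_top_iff_exists.1 (fun h' => by rw [h', add_top] at h; exact ENat.natCast_ne_top _ h)
        |>.imp fun _ h => h.symm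
  have hb : ∀ p, ∃ a : ℕ, bL d A B p = a := fun p => by
    have h := E2 p
    rw [x1, y1] at h
    exact ENat.ne_top_iff_exists.1 (fun h' => by
      rw [h', top_add] at h; exact ENat.natCast_ne_top (x p + y p) (by exact_mod_cast h))
      |>.imp fun _ h => h.symm
  have hc : ∀ p, ∃ a : ℕ, cL d A B p = a := fun p => by
    have h := E2 p
    rw [x1, y1] at h
    exact ENat.ne_top_iff_exists.1 (fun h' => by
      rw [h', add_top] at h; exact ENat.natCast_ne_top (x p + y p) (by exact_mod_cast h))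
      |>.imp fun _ h => h.symm
  choose a ha using ha
  choose b hb using hb
  choose c hc using hc
  have F1 : ∀ p, hL d (A ⊓ B) p = ((a p + b p : ℕ) : ℕ∞) := fun p => by
    rw [E1, ha, hb]; push_cast; rfl
  have F2 : ∀ p, x p + y p = b p + c p := fun p => by
    have := E2 p; rw [x1, y1, hb, hc] at this; exact_mod_cast this
  have F3 : ∀ p, z p = c p + a (p+1) := fun p => by
    have := E3 p; rw [z1, hc, ha] at this; exact_mod_cast this
  have F0 : a 0 = 0 := by rw [ha] at E0; exact_mod_cast E0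
  refine ⟨(good_iff _ (N+1)).2 ⟨_, F1, fun p hp => ?_, chi_eq _ _ _ F1⟩, ?_⟩
  · obtain ⟨q, rfl⟩ : ∃ q, p = q + 1 := ⟨p - 1, by omega⟩
    have := F2 (q+1)
    rw [x2 (q+1) (by omega), y2 (q+1) (by omega)] at this
    have h2 := F3 q
    rw [z2 q (by omega)] at h2
    omega
  · rw [chi_eq _ _ _ F1, x3, y3, z3, Finset.sum_range_succ]
    have hb0 : b (N+1) = 0 := by
      have := F2 (N+1)
      rw [x2 (N+1) (by omega), y2 (N+1) (by omega)] at this
      omega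
    have h3 := tele (fun p => (a p : ℤ)) N
    simp only [F0, Nat.cast_zero, zero_add] at h3
    rw [hb0, add_zero]
    have h5 : (-1 : ℤ)^(N+1) * (a (N+1) : ℤ) = -∑ p ∈ Finset.range (N+1), (-1 : ℤ)^p *
        ((a p : ℤ) + a (p+1)) := by
      rw [h3]; ring
    rw [h5, ← Finset.sum_neg_distrib, ← Finset.sum_add_distrib, ← Finset.sum_add_distrib,
      ← Finset.sum_sub_distrib]
    apply Finset.sum_congr rfl
    intro p _
    have g1 : (z p : ℤ) = c p + a (p+1) := by exact_mod_cast F3 p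
    have g2 : (x p : ℤ) + y p = b p + c p := by exact_mod_cast F2 p
    rw [g1]
    push_cast
    linear_combination (-1 : ℤ)^p * (-1) * g2

end KM
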