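import Pool.Agent.Lib_helper45.KM.Sph
import Pool.Agent.Lib_helper45.KM.LatInd

/-! The Euler characteristic series of `H^*(W; P)`. -/

open MvPolynomial KMWanted2

namespace KM

variable {n r : ℕ} {A : Matrix (Fin n) (Fin n) ℤ}

/-- Equivariance can be checked on the simple reflections. -/
lemma equiv_of_gen (R : Realization A r) (hA : IsGCM A) (I : Set (Fin n))
    (f : Full R.weyl (MvPolynomial (Fin r) ℚ))
    (h : ∀ i ∈ I, ∀ l : List R.weyl, f (l.map ((⟨R.s hA i, s_mem R hA i⟩ : R.weyl) * ·)) =
      act (R.s hA i) (f l)) :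
    ∀ u : R.weyl, (u : (Fin r → ℚ) ≃ₗ[ℚ] (Fin r → ℚ)) ∈ par R hA I →
      ∀ l : List R.weyl, f (l.map (u * ·)) = act u (f l) := by
  let H : Subgroup R.weyl :=
    { carrier := {u | ∀ l : List R.weyl, f (l.map (u * ·)) = act u (f l)}
      mul_mem' := by
        intro a b ha hb l
        have : l.map (fun x => a * b * x) = (l.map (b * ·)).map (a * ·) := by
          rw [List.map_map]; congr 1
        rw [this, ha, hb, Subgroup.coe_mul, act_mul]
      one_mem' := by intro l; simp
      inv_mem' := by
        intro a ha l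
        have h1 := ha (l.map (a⁻¹ * ·))
        rw [List.map_map] at h1
        have h2 : ((fun x => a * x) ∘ fun x => a⁻¹ * x) = id := by
          funext x; simp
        rw [h2, List.map_id] at h1
        rw [h1, Subgroup.coe_inv, act_inv_act] }
  have hle : par R hA I ≤ H.map R.weyl.subtype := by
    rw [par, WI, Subgroup.closure_le]
    rintro _ ⟨i, hi, rfl⟩
    exact ⟨⟨R.s hA i, s_mem R hA i⟩, h i hi, rfl⟩
  intro u hu l
  obtain ⟨u', hu', h'⟩ := hle hu
  have : u' = u := Subtype.ext h'
  subst this
  exact hu' l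

lemma UU_inf (R : Realization A r) (hA : IsGCM A) (I K : Set (Fin n)) (m p : ℕ) :
    UU R hA I m p ⊓ UU R hA K m p = UU R hA (I ∪ K) m p := by
  ext f
  constructor
  · rintro ⟨⟨h1, h2, h3⟩, ⟨_, _, h3'⟩⟩
    refine ⟨h1, h2, equiv_of_gen R hA _ f ?_⟩
    rintro i (hi | hi) l
    · exact h3 ⟨R.s hA i, s_mem R hA i⟩ (Subgroup.subset_closure ⟨i, hi, rfl⟩) l
    · exact h3' ⟨R.s hA i, s_mem R hA i⟩ (Subgroup.subset_closure ⟨i, hi, rfl⟩) l
  · rintro ⟨h1, h2, h3⟩
    refine ⟨⟨h1, h2, equiv_of_gen R hA _ f ?_⟩, ⟨h1, h2, equiv_of_gen R hA _ f ?_⟩⟩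
    · intro i hi l
      exact h3 ⟨R.s hA i, s_mem R hA i⟩ (Subgroup.subset_closure ⟨i, Or.inl hi, rfl⟩) l
    · intro i hi l
      exact h3 ⟨R.s hA i, s_mem R hA i⟩ (Subgroup.subset_closure ⟨i, Or.inr hi, rfl⟩) l

/-- The value space for inhomogeneous coordinates. -/
abbrev Vals (R : Realization A r) (m p : ℕ) : Type :=
  {l : List R.weyl // l.length = p} → ↥(homogeneousSubmodule (Fin r) ℚ m)

open Classical in
/-- From left invariant functions to equivariant cochains. -/
noncomputable def psi (R : Realization A r) (m p : ℕ) :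
    (R.weyl → Vals R m p) →ₗ[ℚ] Full R.weyl (MvPolynomial (Fin r) ℚ) where
  toFun F := ⟨fun l => match l with
    | [] => 0
    | (x :: l) => if h : l.length = p then
        act (x : (Fin r → ℚ) ≃ₗ[ℚ] (Fin r → ℚ))
          (F x ⟨l.map (x⁻¹ * ·), by rw [List.length_map, h]⟩ : MvPolynomial (Fin r) ℚ)
        else 0, rfl⟩
  map_add' F G := by
    ext1 l
    cases l with
    | nil => simp
    | cons x l =>
      by_cases h : l.length = p
      · simp [h]
      · simp [h]
  map_smul' c F := by
    ext1 l
    cases l with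
    | nil => simp
    | cons x l =>
      by_cases h : l.length = p
      · simp [h]
      · simp [h]

lemma psi_cons (R : Realization A r) (m p : ℕ) (F : R.weyl → Vals R m p) (x : R.weyl)
    (l : List R.weyl) (h : l.length = p) :
    psi R m p F (x :: l) = act (x : (Fin r → ℚ) ≃ₗ[ℚ] (Fin r → ℚ))
      (F x ⟨l.map (x⁻¹ * ·), by rw [List.length_map, h]⟩ : MvPolynomial (Fin r) ℚ) := by
  simp [psi, h]

lemma psi_zero (R : Realization A r) (m p : ℕ) (F : R.weyl → Vals R m p)
    (l : List R.weyl) (h : l.length ≠ p + 1) : psi R m p F l = 0 := by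
  cases l with
  | nil => simp
  | cons x l =>
    have : l.length ≠ p := by simpa using h
    simp [psi, this]

lemma psi_cons' (R : Realization A r) (m p : ℕ) (F : R.weyl → Vals R m p) (x : R.weyl)
    (l : List R.weyl) (h : l.length = p) :
    psi R m p F (x :: l.map (x * ·)) = act (x : (Fin r → ℚ) ≃ₗ[ℚ] (Fin r → ℚ))
      (F x ⟨l, h⟩ : MvPolynomial (Fin r) ℚ) := by
  rw [psi_cons R m p F x _ (by rw [List.length_map, h])]
  congr 3
  apply Subtype.ext
  simp only [List.map_map]
  have : ((fun y => x⁻¹ * y) ∘ fun y => x * y) = id := by funext y; simp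
  rw [this, List.map_id]

lemma psi_injective (R : Realization A r) (m p : ℕ) : Function.Injective (psi R m p) := by
  rw [← LinearMap.ker_eq_bot, LinearMap.ker_eq_bot']
  intro F hF
  funext x
  funext ⟨l, hl⟩
  apply Subtype.ext
  have h1 := psi_cons' R m p F x l hl
  rw [hF] at h1
  have h2 := act_inv_act (x : (Fin r → ℚ) ≃ₗ[ℚ] (Fin r → ℚ)) (F x ⟨l, hl⟩ : MvPolynomial (Fin r) ℚ)
  rw [← h1, Full.zero_apply, map_zero] at h2
  exact h2.symm

lemma UU_eq_map (R : Realization A r) (hA : IsGCM A) (I : Set (Fin n)) (m p : ℕ) :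
    UU R hA I m p = (LInv (R.s hA) R.weyl (Vals R m p) I).map (psi R m p) := by
  ext f
  constructor
  · rintro ⟨h1, h2, h3⟩
    refine ⟨fun x l => ⟨act (x : (Fin r → ℚ) ≃ₗ[ℚ] (Fin r → ℚ))⁻¹ (f (x :: l.1.map (x * ·))),
      act_homog _ (h2 _)⟩, ?_, ?_⟩
    · intro u hu x y hxy
      have hu' : u ∈ R.weyl := par_le R hA I hu
      have e : y = (⟨u, hu'⟩ : R.weyl) * x := Subtype.ext hxy
      funext l
      apply Subtype.ext
      simp only
      have h4 := h3 ⟨u, hu'⟩ hu (x :: l.1.map (x * ·))
      rw [List.map_cons, List.map_map] at h4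
      have e2 : ((fun z => (⟨u, hu'⟩ : R.weyl) * z) ∘ fun z => x * z) = fun z => y * z := by
        funext z; rw [e]; simp [mul_assoc]
      rw [e2, ← e] at h4
      rw [h4, ← act_mul]
      congr 2
      rw [hxy, mul_inv_rev]
      group
    · ext1 l
      by_cases hl : l.length = p + 1
      · cases l with
        | nil => simp at hl
        | cons x l =>
          have hl' : l.length = p := by simpa using hl
          rw [psi_cons _ _ _ _ _ _ hl']
          simp only [List.map_map]
          have : ((fun y => x * y) ∘ fun y => x⁻¹ * y) = id := by funext y; simp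
          rw [this, List.map_id, act_act_inv]
      · rw [psi_zero _ _ _ _ _ hl, h1 l hl]
  · rintro ⟨F, hF, rfl⟩
    refine ⟨fun l hl => psi_zero _ _ _ _ _ hl, fun l => ?_, fun u hu l => ?_⟩
    · by_cases hl : l.length = p + 1
      · cases l with
        | nil => simp at hl
        | cons x l =>
          have hl' : l.length = p := by simpa using hl
          rw [psi_cons _ _ _ _ _ _ hl']
          exact act_homog _ (F x _).2
      · rw [psi_zero _ _ _ _ _ hl]; exact isHomogeneous_zero _ _ _
    · by_cases hl : l.length = p + 1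
      · cases l with
        | nil => simp at hl
        | cons x l =>
          have hl' : l.length = p := by simpa using hl
          rw [List.map_cons, psi_cons _ _ _ _ _ _ (by simpa using hl'), psi_cons _ _ _ _ _ _ hl']
          have h4 := hF u hu x (u * x) rfl
          rw [Subgroup.coe_mul, act_mul, h4]
          congr 4
          apply Subtype.ext
          simp only [List.map_map]
          congr 1
          funext z; simp [mul_assoc]
      · rw [psi_zero _ _ _ _ _ hl, psi_zero _ _ _ _ _ (by simpa using hl), map_zero]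

lemma map_finset_sup {E F : Type*} [AddCommGroup E] [Module ℚ E] [AddCommGroup F] [Module ℚ F]
    (φ : E →ₗ[ℚ] F) {ι : Type*} (K : Finset ι) (f : ι → Submodule ℚ E) :
    (⨆ k ∈ K, f k).map φ = ⨆ k ∈ K, (f k).map φ := by
  simp only [Submodule.map_iSup]

lemma UU_dl (R : Realization A r) (hA : IsGCM A) (I K : Finset (Fin n)) (m p : ℕ) :
    UU R hA I m p ⊓ (⨆ k ∈ K, UU R hA {k} m p) = ⨆ k ∈ K, UU R hA (insert k (I : Set (Fin n))) m p := by
  apply le_antisymm
  · simp only [UU_eq_map]
    rw [← map_finset_sup, ← map_finset_sup, ← Submodule.map_inf _ (psi_injective R m p)]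
    apply Submodule.map_mono
    exact cox_dl (coroot := R.coroot) (root := R.root) (A := A)
      ⟨hA.diag, hA.neg, hA.zero, R.indep, R.pairing, s_apply R hA⟩ R.weyl (s_mem R hA) _ I K
  · apply iSup₂_le
    intro k hk
    rw [Set.insert_eq, Set.union_comm, ← UU_inf]
    exact inf_le_inf le_rfl (le_iSup₂ (f := fun k (_ : k ∈ K) => UU R hA {k} m p) k hk)

lemma UU_sum (R : Realization A r) (hA : IsGCM A) (J : Finset (Fin n))
    (hJ : Infinite (par R hA J)) (m p : ℕ) :
    (⨆ k ∈ J, UU R hA {k} m p) = UU R hA ∅ m p := by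
  simp only [UU_eq_map]
  rw [← map_finset_sup, cox_sum (coroot := R.coroot) (root := R.root) (A := A)
      ⟨hA.diag, hA.neg, hA.zero, R.indep, R.pairing, s_apply R hA⟩ R.weyl (s_mem R hA) _ J hJ]
  congr 1
  symm
  rw [eq_top_iff]
  intro F _ u hu x y hxy
  rw [WI, Set.image_empty, Subgroup.closure_empty, Subgroup.mem_bot] at hu
  rw [hu, one_mul] at hxy
  rw [Subtype.ext hxy]

lemma finrank_inv_zero (G : Subgroup ((Fin r → ℚ) ≃ₗ[ℚ] (Fin r → ℚ))) :
    Module.finrank ℚ (KMWanted.inv G 0) = 1 := by
  let e : ↥(KMWanted.inv G 0) ≃ₗ[ℚ] ℚ :=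
    { toFun := fun f => coeff 0 f.1
      map_add' := fun f g => by simp
      map_smul' := fun c f => by simp
      invFun := fun c => ⟨C c, isHomogeneous_C _ _, fun g _ v => by simp⟩
      left_inv := by
        rintro ⟨f, hf⟩
        apply Subtype.ext
        simp only
        have h1 : f.IsHomogeneous 0 := hf.1
        rw [← totalDegree_zero_iff_isHomogeneous] at h1
        exact (totalDegree_eq_zero_iff_eq_C.1 h1).symm
      right_inv := fun c => by simp }
  rw [e.finrank_eq, Module.finrank_self]

/-- The Euler characteristic series for all parabolic subgroups. -/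
theorem par_Pr (R : Realization A r) (hA : IsGCM A) (J : Finset (Fin n)) :
    Pr (dq _ _) r (UU R hA J) 1 := by
  classical
  induction J using Finset.strongInduction with
  | H J ih =>
    rcases finite_or_infinite (par R hA J) with hfin | hinf
    · refine ⟨fun m p => UU_d R hA J m p, 0, fun m => (sph_good R hA J m).1, ?_, ?_⟩
      · obtain ⟨u, v, h1, h2, h3⟩ := KMWanted.molien (par R hA J)
        refine ⟨u, v, h1, h2, ?_⟩
        rw [← h3]
        congr 2
        funext m
        rw [(sph_good R hA J m).2]; simp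
      · rw [(sph_good R hA J 0).2, finrank_inv_zero]; rfl
    · have hne : J.Nonempty := by
        rw [Finset.nonempty_iff_ne_empty]
        rintro rfl
        have : Finite (par R hA ((∅ : Finset (Fin n)) : Set (Fin n))) := by
          rw [par, WI, Finset.coe_empty, Set.image_empty, Subgroup.closure_empty]
          infer_instance
        exact not_finite (par R hA ((∅ : Finset (Fin n)) : Set (Fin n)))
      have h := lattice_induction (Λ := ℕ → ℕ → Submodule ℚ (Full R.weyl (MvPolynomial (Fin r) ℚ)))
        (fun U c => Pr (dq _ _) r U c)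
        (fun a b x y z h1 h2 h3 => Pr.sup _ dq_dq h1 h2 h3)
        (fun a b x y z h1 h2 h3 => Pr.inf _ dq_dq h1 h2 h3)
        (fun I : Finset (Fin n) => UU R hA I)
        (fun I K => by
          funext m p
          rw [Pi.inf_apply, Pi.inf_apply, UU_inf, Finset.coe_union])
        (fun I K => by
          funext m p
          rw [Pi.inf_apply, Pi.inf_apply, Finset.sup_apply, Finset.sup_apply, Finset.sup_apply,
            Finset.sup_apply, Finset.sup_eq_iSup, Finset.sup_eq_iSup]
          simp only [Finset.coe_singleton, Finset.coe_insert]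
          exact UU_dl R hA I K m p)
        J hne (fun I hI => ih I hI)
        (by
          funext m p
          rw [Finset.sup_apply, Finset.sup_apply, Finset.sup_eq_iSup]
          simp only [Finset.coe_singleton, Finset.coe_empty]
          exact UU_sum R hA J hinf m p)
      exact h

end KM
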