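import Pool.Agent.Lib_helper45.KM.Complex

/-! Cohomology for finite parabolic subgroups. -/

open MvPolynomial KMWanted2

namespace KM

variable {n r : ℕ} {A : Matrix (Fin n) (Fin n) ℤ}

lemma dd_pair {X P : Type*} [CommRing P] (f : List X → P) (x y : X) :
    dd f [x, y] = f [y] - f [x] := by
  simp [dd, Finset.sum_range_succ]; ring

/-- degree zero cocycles are constant -/
lemma cocycle0_const {X P : Type*} [CommRing P] (f : Full X P) (h : Full.d f = 0) (x y : X) :
    f [x] = f [y] := by
  have := DFunLike.congr_fun h [y, x]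
  rw [Full.d_apply, dd_pair] at this
  exact sub_eq_zero.1 this

/-- constant cochain -/
def cst {X P : Type*} [CommRing P] (c : P) : Full X P :=
  ⟨fun l => if l.length = 1 then c else 0, by simp⟩

lemma cst_apply {X P : Type*} [CommRing P] (c : P) (l : List X) :
    (cst c : Full X P) l = if l.length = 1 then c else 0 := rfl

lemma cst_eq {X P : Type*} [CommRing P] (c : P) : (cst c : Full X P) = c • (1 : Full X P) := by
  ext l
  rw [cst_apply, Full.smul_apply, Full.one_apply]
  split_ifs <;> simp

lemma d_cst {X P : Type*} [CommRing P] (c : P) : Full.d (cst c : Full X P) = 0 := by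
  rw [cst_eq, map_smul, Full.d_one, smul_zero]

lemma act_eq_iff (g : (Fin r → ℚ) ≃ₗ[ℚ] (Fin r → ℚ)) (f : MvPolynomial (Fin r) ℚ) :
    act g f = f ↔ ∀ v, eval (g v) f = eval v f := by
  constructor
  · intro h v
    conv_lhs => rw [← h, eval_act]
    have : g⁻¹ (g v) = v := LinearEquiv.symm_apply_apply g v
    rw [this]
  · intro h
    apply MvPolynomial.funext
    intro v
    rw [eval_act, ← h]
    have : g (g⁻¹ v) = v := LinearEquiv.apply_symm_apply g v
    rw [this]

/-- `H^0` of the equivariant cochains. -/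
noncomputable def zc0 (R : Realization A r) (hA : IsGCM A) (I : Set (Fin n)) (m : ℕ) :
    ↥(Zc (dq _ _) (UU R hA I m) 0) ≃ₗ[ℚ] ↥(KMWanted.inv (par R hA I) m) where
  toFun f := ⟨f.1 [1], by
    obtain ⟨f, ⟨hf1, hf2, hf3⟩, hf4⟩ := f
    refine ⟨hf2 _, fun g hg => ?_⟩
    rw [← act_eq_iff]
    have := hf3 ⟨g, par_le R hA I hg⟩ hg [1]
    rw [List.map_cons, List.map_nil, cocycle0_const f hf4 _ 1] at this
    exact this.symm⟩
  map_add' f g := rfl
  map_smul' c f := rfl
  invFun c := ⟨cst c.1, ⟨fun l hl => by rw [cst_apply, if_neg (by simpa using hl)], fun l => by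
      rw [cst_apply]; split_ifs
      · exact c.2.1
      · exact isHomogeneous_zero _ _ _, fun u hu l => by
      rw [cst_apply, cst_apply, List.length_map]
      split_ifs
      · exact ((act_eq_iff _ _).2 (c.2.2 u hu)).symm
      · simp⟩, d_cst _⟩
  left_inv := by
    rintro ⟨f, ⟨hf1, hf2, hf3⟩, hf4⟩
    apply Subtype.ext
    ext1 l
    change (cst (f [1]) : Full _ _) l = f l
    rw [cst_apply]
    split_ifs with h
    · obtain ⟨x, rfl⟩ := List.length_eq_one_iff.1 h
      exact cocycle0_const f hf4 _ _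
    · exact (hf1 l (by simpa using h)).symm
  right_inv := by
    rintro ⟨c, hc⟩
    apply Subtype.ext
    change (cst c : Full R.weyl _) [1] = c
    rw [cst_apply]; simp

lemma homog_fd (m : ℕ) : FiniteDimensional ℚ (homogeneousSubmodule (Fin r) ℚ m) :=
  Module.Finite.iff_fg.2 (homogeneousSubmodule_fg (R := ℚ) (σ := Fin r) m)

instance inv_fd (G : Subgroup ((Fin r → ℚ) ≃ₗ[ℚ] (Fin r → ℚ))) (m : ℕ) :
    FiniteDimensional ℚ (KMWanted.inv G m) := by
  have := homog_fd (r := r) m
  apply Submodule.finiteDimensional_of_le (S₂ := homogeneousSubmodule (Fin r) ℚ m)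
  intro f hf
  exact hf.1

lemma sph_good (R : Realization A r) (hA : IsGCM A) (I : Set (Fin n)) [Finite (par R hA I)]
    (m : ℕ) : Good (dq _ _) (UU R hA I m) 0 ∧
      chi (dq _ _) (UU R hA I m) 0 = Module.finrank ℚ (KMWanted.inv (par R hA I) m) := by
  have h0 : (Bc (dq _ _) (UU R hA I m) 0).submoduleOf (Zc (dq _ _) (UU R hA I m) 0) = ⊥ := by
    rw [Bc, Submodule.submoduleOf, Submodule.comap_bot, Submodule.ker_subtype]
  have e := (Submodule.quotEquivOfEqBot _ h0).trans (zc0 R hA I m)
  have hs : ∀ p, Subsingleton (Hc (dq _ _) (UU R hA I m) (p + 1)) := by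
    intro p
    rw [Submodule.Quotient.subsingleton_iff, Submodule.submoduleOf_eq_top]
    exact sph_exact R hA I m p
  refine ⟨⟨fun p => ?_, fun p hp => ?_⟩, ?_⟩
  · cases p with
    | zero =>
      exact Module.Finite.equiv e.symm
    | succ p => have := hs p; infer_instance
  · obtain ⟨q, rfl⟩ : ∃ q, p = q + 1 := ⟨p - 1, by omega⟩
    have := hs q
    exact Module.finrank_zero_of_subsingleton
  · unfold chi
    simp only [zero_add, Finset.range_one, Finset.sum_singleton, pow_zero, one_mul]
    exact_mod_cast e.finrank_eq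

end KM
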