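import Pool.Agent.Lib_helper45.KM.Indef

/-! Invariants of the Weyl group of an indefinite generalized Cartan matrix: normalized
coordinates. -/

set_option linter.unusedSectionVars false
set_option linter.unusedSimpArgs false

open MvPolynomial

namespace KM

variable {ι ν : Type*} [Fintype ι] [Fintype ν] [DecidableEq ι] [DecidableEq ν]

/-- The coordinate coroots. -/
def ee (ι ν : Type*) [DecidableEq ι] [DecidableEq ν] (i : ι) : ι ⊕ ν → ℚ :=
  Pi.single (Sum.inl i) 1

lemma dot_ee (φ : ι ⊕ ν → ℚ) (i : ι) : φ ⬝ᵥ ee ι ν i = φ (Sum.inl i) := by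
  simp [ee]

lemma killed {f : MvPolynomial (ι ⊕ ν) ℚ} (h : ∀ i, D (ee ι ν i) f = 0) :
    ∃ p : MvPolynomial ν ℚ, f = rename Sum.inr p := by
  refine ⟨aeval (Sum.elim (fun _ => 0) X) f, ?_⟩
  apply MvPolynomial.funext
  intro v
  have h1 : ∀ s : Finset ι, eval (v + ∑ i ∈ s, (- v (Sum.inl i)) • ee ι ν i) f = eval v f := by
    intro s
    induction s using Finset.induction_on with
    | empty => simp
    | insert a s ha ih =>
      rw [Finset.sum_insert ha, add_comm (_ • _), ← add_assoc,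
        eval_add_smul_of_D_eq_zero _ _ (h a), ih]
  rw [← h1 Finset.univ, eval_rename]
  have h2 : v + ∑ i, (- v (Sum.inl i)) • ee ι ν i = Sum.elim (fun _ => 0) (v ∘ Sum.inr) := by
    ext x
    rcases x with x | x
    · simp [ee, Finset.sum_apply, Pi.single_apply]
    · simp [ee, Finset.sum_apply, Pi.single_apply]
  rw [h2]
  have h3 : (eval (v ∘ Sum.inr)).comp
      ((aeval (Sum.elim (fun _ => 0) X) : MvPolynomial (ι ⊕ ν) ℚ →ₐ[ℚ] MvPolynomial ν ℚ) :
        MvPolynomial (ι ⊕ ν) ℚ →+* MvPolynomial ν ℚ) =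
      eval (Sum.elim (fun _ => 0) (v ∘ Sum.inr)) := by
    apply ringHom_ext
    · intro r; simp
    · intro i; rcases i with i | i <;> simp
  exact (DFunLike.congr_fun h3 f).symm

lemma D_rename_inr (i : ι) (p : MvPolynomial ν ℚ) :
    D (ee ι ν i) (rename Sum.inr p) = 0 := by
  induction p using MvPolynomial.induction_on with
  | C a => simp
  | add p q hp hq => simp [hp, hq]
  | mul_X p k hp =>
    rw [map_mul, D_mul, hp, rename_X, D_X]
    simp [ee]

variable {α : ι → ι ⊕ ν → ℚ} {A : ι → ι → ℤ}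

/-- The quadratic form. -/
lemma exists_form (hA : ∀ i j, α j (Sum.inl i) = A i j) (hA2 : ∀ i, A i i = 2)
    (κ : ι → ℚ) (hκ : ∀ i j, κ i * A j i = κ j * A i j) :
    ∃ b : MvPolynomial (ι ⊕ ν) ℚ, b.IsHomogeneous 2 ∧
      (∀ i, D (ee ι ν i) b = C (κ i) * lin (α i)) ∧
      (∀ i, Inv b (α i) (ee ι ν i)) := by
  set α' : ι → ι ⊕ ν → ℚ := fun k => Sum.elim (fun l => (1/2) * α k (Sum.inl l))
    (fun m => α k (Sum.inr m)) with hα'
  set b : MvPolynomial (ι ⊕ ν) ℚ := ∑ k, C (κ k) * X (Sum.inl k) * lin (α' k) with hb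
  have hD : ∀ i, D (ee ι ν i) b = C (κ i) * lin (α i) := by
    intro i
    have h1 : ∀ k, D (ee ι ν i) (C (κ k) * X (Sum.inl k) * lin (α' k)) =
        (if k = i then C (κ k) * lin (α' k) else 0) +
          C ((1/2) * κ k * A i k) * X (Sum.inl k) := by
      intro k
      rw [mul_assoc, D_C_mul, D_mul, D_X, D_lin, dot_ee]
      have e1 : α' k (Sum.inl i) = (1/2) * A i k := by
        simp only [hα', Sum.elim_inl, hA]
      rw [e1]
      have e2 : (ee ι ν i (Sum.inl k) : ℚ) = if k = i then 1 else 0 := by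
        simp [ee, Pi.single_apply]
      rw [e2]
      split_ifs with h
      · rw [C_1, C_mul, C_mul, C_mul]; ring
      · rw [C_0, C_mul, C_mul, C_mul]; ring
    rw [hb, map_sum, Finset.sum_congr rfl (fun k _ => h1 k), Finset.sum_add_distrib]
    rw [Finset.sum_ite_eq' Finset.univ i]
    simp only [Finset.mem_univ, if_true]
    have h2 : ∑ k, C ((1/2) * κ k * A i k) * X (Sum.inl k) =
        C (κ i) * (∑ k, C ((1/2) * (A k i : ℚ)) * X (Sum.inl k) : MvPolynomial (ι ⊕ ν) ℚ) := by
      rw [Finset.mul_sum]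
      apply Finset.sum_congr rfl
      intro k _
      rw [← mul_assoc, ← C_mul]
      congr 2
      linear_combination (1/2) * hκ k i
    rw [h2, ← mul_add]
    congr 1
    simp only [lin, hα', Fintype.sum_sum_type, Sum.elim_inl, Sum.elim_inr]
    rw [add_right_comm, ← Finset.sum_add_distrib]
    congr 1
    apply Finset.sum_congr rfl
    intro k _
    rw [hA, ← add_mul, ← C_add]
    congr 2
    ring
  refine ⟨b, ?_, hD, ?_⟩
  · rw [hb]
    apply IsHomogeneous.sum
    intro k _
    have h1 := ((isHomogeneous_C (ι ⊕ ν) (κ k)).mul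
      (isHomogeneous_X ℚ (Sum.inl k : ι ⊕ ν))).mul (lin_homog (α' k))
    simpa using h1
  · intro k
    have h2 : α k ⬝ᵥ ee ι ν k = 2 := by rw [dot_ee, hA, hA2]; norm_num
    apply Inv.of_R_eq h2
    set h := R (α k) (ee ι ν k) b - b with hh
    have hk1 : D (ee ι ν k) h = 0 := by
      rw [hh, map_sub, D_R, refl_self h2, D_neg_apply, hD, map_neg, map_mul, R_C, R_lin, h2]
      have : α k - (2 : ℚ) • α k = - α k := by ext i; simp; ring
      rw [this, lin_neg]; ring
    have hk2 : R (α k) (ee ι ν k) h = h := by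
      apply MvPolynomial.funext
      intro v
      rw [R_eval]
      have := eval_add_smul_of_D_eq_zero _ h hk1 v (-((α k) ⬝ᵥ v))
      rw [← this]
      congr 2
      ext i; simp [refl]; ring
    have hk3 : R (α k) (ee ι ν k) h = -h := by
      have hRR : R (α k) (ee ι ν k) (R (α k) (ee ι ν k) b) = b := by
        apply MvPolynomial.funext
        intro v
        rw [R_eval, R_eval, refl_refl h2]
      rw [hh, map_sub, hRR]; ring
    have h5 : (2 : MvPolynomial (ι ⊕ ν) ℚ) * h = 0 := by linear_combination hk3 - hk2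
    rcases mul_eq_zero.1 h5 with h6 | h6
    · exact absurd h6 (by norm_num)
    · exact sub_eq_zero.1 h6

/-- integration -/
lemma integrate {b : MvPolynomial (ι ⊕ ν) ℚ} (p : Polynomial (MvPolynomial ν ℚ)) :
    ∃ q : Polynomial (MvPolynomial ν ℚ), ∀ i,
      D (ee ι ν i) (q.eval₂ (rename Sum.inr : MvPolynomial ν ℚ →ₐ[ℚ] _).toRingHom b) =
        p.eval₂ (rename Sum.inr : MvPolynomial ν ℚ →ₐ[ℚ] _).toRingHom b * D (ee ι ν i) b := by
  induction p using Polynomial.induction_on' with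
  | add p q hp hq =>
    obtain ⟨p', hp'⟩ := hp
    obtain ⟨q', hq'⟩ := hq
    refine ⟨p' + q', fun i => ?_⟩
    rw [Polynomial.eval₂_add, map_add, hp', hq', Polynomial.eval₂_add]; ring
  | monomial n a =>
    refine ⟨Polynomial.monomial (n+1) (C (1/(n+1 : ℚ)) * a), fun i => ?_⟩
    rw [Polynomial.eval₂_monomial, Polynomial.eval₂_monomial]
    simp only [AlgHom.toRingHom_eq_coe, RingHom.coe_coe, map_mul, rename_C]
    rw [D_mul, D_C_mul, D_rename_inr]
    have h1 : D (ee ι ν i) (b ^ (n+1)) = C ((n : ℚ) + 1) * b^n * D (ee ι ν i) b := by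
      rw [Derivation.leibniz_pow]
      simp [smul_eq_mul]
      ring
    rw [h1]
    have h2 : (C (1/((n : ℚ)+1)) : MvPolynomial (ι ⊕ ν) ℚ) * C ((n : ℚ) + 1) = 1 := by
      rw [← C_mul, ← C_1]; congr 1
      have : (n : ℚ) + 1 ≠ 0 := by positivity
      field_simp
    linear_combination (rename Sum.inr a * b^n * D (ee ι ν i) b) * h2

/-- **Theorem A**: in indefinite type all invariants are polynomials in one quadratic form and
the fixed linear forms. -/
theorem thmA [Nonempty ι] (hA : ∀ i j, α j (Sum.inl i) = A i j) (hA2 : ∀ i, A i i = 2)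
    (hA0 : ∀ i j, A i j = 0 → A j i = 0)
    (conn : ∀ P : ι → Prop, (∃ i, P i) → (∀ i j, P i → A i j ≠ 0 → P j) → ∀ i, P i)
    (u : ι → ℝ) (hu : ∀ i, 0 < u i) (hAu : ∀ i, ∑ j, (A i j : ℝ) * u j < 0) :
    ∃ b : MvPolynomial (ι ⊕ ν) ℚ, b.IsHomogeneous 2 ∧ (∀ i, Inv b (α i) (ee ι ν i)) ∧
      ∀ f, (∀ i, Inv f (α i) (ee ι ν i)) → ∃ p : Polynomial (MvPolynomial ν ℚ),
        f = p.eval₂ (rename Sum.inr : MvPolynomial ν ℚ →ₐ[ℚ] _).toRingHom b := by
  have hA' : ∀ i j, α j ⬝ᵥ ee ι ν i = A i j := fun i j => by rw [dot_ee, hA]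
  by_cases hex : ∃ f₀ : MvPolynomial (ι ⊕ ν) ℚ, (∀ i, Inv f₀ (α i) (ee ι ν i)) ∧
      ∀ i, D (ee ι ν i) f₀ ≠ 0
  · obtain ⟨f₀, hf₀, hD₀⟩ := hex
    obtain ⟨j, β, b', m, m', hR, hH⟩ := exists_hyp hA' hA2 hf₀ hD₀ u hu hAu
    obtain ⟨g₀, hg₀, _, hgi₀, κ, hκ0, hκ⟩ := main1 hA' hf₀ hD₀ conn hR hH
    have hsym : ∀ i j, κ i * A j i = κ j * A i j := by
      intro i j
      have := symm_kappa hg₀ hf₀ hgi₀ hκ i j
      rwa [hA', hA'] at this
    obtain ⟨b, hb1, hb2, hb3⟩ := exists_form hA hA2 κ hsym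
    refine ⟨b, hb1, hb3, ?_⟩
    intro f hf
    induction hN : f.totalDegree using Nat.strong_induction_on generalizing f with
    | _ N ih =>
      by_cases hD : ∃ i, D (ee ι ν i) f = 0
      · have := D_zero_of hA' hf conn hD
        obtain ⟨p, hp⟩ := killed this
        exact ⟨Polynomial.C p, by simp [hp]⟩
      · push Not at hD
        obtain ⟨j, β, b', m, m', hR, hH⟩ := exists_hyp hA' hA2 hf hD u hu hAu
        obtain ⟨g, hg, hdeg, hgi, κ', hκ0', hκ'⟩ := main1 hA' hf hD conn hR hH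
        have hsym' : ∀ i j, κ' i * A j i = κ' j * A i j := by
          intro i j
          have := symm_kappa hg hf hgi hκ' i j
          rwa [hA', hA'] at this
        obtain ⟨i₀⟩ := ‹Nonempty ι›
        have hlam : ∀ i, κ' i = (κ' i₀ / κ i₀) * κ i := by
          apply conn
          · exact ⟨i₀, by field_simp [hκ0 i₀]⟩
          · intro i j hi hij
            have h1 := hsym' i j
            have h2 := hsym i j
            have h3 : (A i j : ℚ) ≠ 0 := by exact_mod_cast hij
            apply mul_right_cancel₀ h3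
            rw [← h1, hi]
            linear_combination (κ' i₀ / κ i₀) * h2
        obtain ⟨p, hp⟩ := ih g.totalDegree (by rw [← hN]; exact hdeg) g hgi rfl
        obtain ⟨q, hq⟩ := integrate (b := b) p
        set lam := κ' i₀ / κ i₀ with hlam'
        have hf' : ∀ i, D (ee ι ν i) f = C lam * (g * D (ee ι ν i) b) := by
          intro i
          rw [hκ' i, hb2 i, hlam i, C_mul]; ring
        obtain ⟨r, hr⟩ := killed (f := f - C lam *
            q.eval₂ (rename Sum.inr : MvPolynomial ν ℚ →ₐ[ℚ] _).toRingHom b) (by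
          intro i
          rw [map_sub, D_C_mul, hq i, hf' i, ← hp, sub_self])
        refine ⟨Polynomial.C r + Polynomial.C (C lam) * q, ?_⟩
        rw [Polynomial.eval₂_add, Polynomial.eval₂_mul, Polynomial.eval₂_C, Polynomial.eval₂_C]
        simp only [AlgHom.toRingHom_eq_coe, RingHom.coe_coe, rename_C] at hr ⊢
        rw [← hr]; ring
  · push Not at hex
    refine ⟨0, isHomogeneous_zero _ _ _, ?_, ?_⟩
    · intro i
      exact ⟨by rw [hA', hA2]; norm_num, fun v => by simp⟩
    · intro f hf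
      obtain ⟨i, hi⟩ := hex f hf
      have := D_zero_of hA' hf conn ⟨i, hi⟩
      obtain ⟨p, hp⟩ := killed this
      exact ⟨Polynomial.C p, by simp [hp]⟩

end KM
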